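import Pool.Agent.EMD33.Metric

set_option autoImplicit false

namespace Pool.Agent.EMD33

open Finset MeasureTheory

/-- `e` approximates the earth mover distance of `A` and `B` within the factor `c`. -/
def Approx {g : ℕ} (c : ℝ) (A B : Finset (Fin g × Fin g)) (e : ℝ) : Prop :=
  (∃ π : ↥A ≃ ↥B, cost π ≤ e) ∧ ∀ π : ↥A ≃ ↥B, e ≤ c * cost π

/-- the harmonic sum over an interval of integers. -/
theorem harmonic_Icc (a b : ℕ) (ha : 1 ≤ a) (hab : a ≤ b) :
    Real.log (((b : ℝ) + 1) / a) ≤ ∑ t ∈ Finset.Icc a b, 1 / (t : ℝ) := by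
  have ha0 : (0 : ℝ) < a := by exact_mod_cast ha
  induction b, hab using Nat.le_induction with
  | base =>
    rw [Finset.Icc_self, Finset.sum_singleton]
    have h1 := Real.log_le_sub_one_of_pos (x := ((a : ℝ) + 1) / a) (by positivity)
    have h2 : ((a : ℝ) + 1) / a - 1 = 1 / a := by field_simp; ring
    linarith
  | succ b hb ih =>
    have hb0 : (0 : ℝ) < (b : ℝ) + 1 := by positivity
    rw [Finset.sum_Icc_succ_top (by omega : a ≤ b + 1)]
    have h1 := Real.log_le_sub_one_of_pos (x := (((b : ℝ) + 1) + 1) / ((b : ℝ) + 1)) (by positivity)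
    have h2 : (((b : ℝ) + 1) + 1) / ((b : ℝ) + 1) - 1 = 1 / ((b : ℝ) + 1) := by field_simp; ring
    have h3 : Real.log ((((b : ℝ) + 1) + 1) / a) =
        Real.log (((b : ℝ) + 1) / a) + Real.log ((((b : ℝ) + 1) + 1) / ((b : ℝ) + 1)) := by
      rw [← Real.log_mul (by positivity) (by positivity)]
      congr 1
      field_simp
    push_cast
    rw [h3]
    linarith

/-- a protocol needs at least one bit. -/
theorem one_le_size {g s : ℕ} (hg : 2 ≤ g) (c : ℝ)
    {Ω : Type*} [MeasurableSpace Ω] (P : Measure Ω) [IsProbabilityMeasure P]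
    (L : Ω → Finset (Fin g × Fin g) → (Fin s → Bool))
    (E : Ω → (Fin s → Bool) → Finset (Fin g × Fin g) → ℝ)
    (hmeas : ∀ A B : Finset (Fin g × Fin g), A.card = B.card →
      MeasurableSet {ω | Approx c A B (E ω (L ω A) B)})
    (hprob : ∀ A B : Finset (Fin g × Fin g), A.card = B.card →
      (2 / 3 : ENNReal) ≤ P {ω | Approx c A B (E ω (L ω A) B)}) :
    1 ≤ s := by
  by_contra hs
  have hs0 : s = 0 := by omega
  subst hs0
  set p : Fin g × Fin g := (⟨0, by omega⟩, ⟨0, by omega⟩) with hp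
  set q : Fin g × Fin g := (⟨1, by omega⟩, ⟨0, by omega⟩) with hq
  have hm1 := hmeas {p} {p} rfl
  have hm2 := hmeas {q} {p} (by simp)
  have hp1 := hprob {p} {p} rfl
  have hp2 := hprob {q} {p} (by simp)
  have hdisj : Disjoint {ω | Approx c {p} {p} (E ω (L ω {p}) {p})}
      {ω | Approx c {q} {p} (E ω (L ω {q}) {p})} := by
    rw [Set.disjoint_left]
    intro ω h1 h2
    have h3 : L ω {p} = L ω {q} := Subsingleton.elim _ _
    obtain ⟨-, h1b⟩ : Approx c {p} {p} (E ω (L ω {p}) {p}) := h1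
    obtain ⟨⟨π, hπ⟩, -⟩ : Approx c {q} {p} (E ω (L ω {q}) {p}) := h2
    have e1 : cost (Equiv.refl (↥({p} : Finset (Fin g × Fin g)))) = 0 := by
      unfold cost dist1
      simp
    have e2 : E ω (L ω {p}) {p} ≤ 0 := by
      have := h1b (Equiv.refl _)
      rw [e1, mul_zero] at this
      exact this
    have e3 : cost π = 1 := by
      unfold cost
      have hall : ∀ a : ↥({q} : Finset (Fin g × Fin g)), dist1 a.1 (π a).1 = 1 := by
        intro a
        have ha : a.1 = q := Finset.mem_singleton.1 a.2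
        have hb : (π a).1 = p := Finset.mem_singleton.1 (π a).2
        rw [ha, hb, hq, hp]
        unfold dist1
        simp
      rw [Finset.sum_congr rfl fun a _ => hall a]
      simp
    rw [e3, ← h3] at hπ
    linarith
  have hu := measure_union (μ := P) hdisj hm2
  have h1 : P ({ω | Approx c {p} {p} (E ω (L ω {p}) {p})} ∪
      {ω | Approx c {q} {p} (E ω (L ω {q}) {p})}) ≤ 1 := prob_le_one
  rw [hu] at h1
  have h2 : (2 / 3 : ENNReal) + 2 / 3 ≤ 1 := (add_le_add hp1 hp2).trans h1
  have h3 : (2 / 3 : ENNReal) + 2 / 3 = ENNReal.ofReal (4 / 3) := by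
    have : (2 / 3 : ENNReal) = ENNReal.ofReal (2 / 3) := by
      rw [ENNReal.ofReal_div_of_pos (by norm_num)]
      norm_num
    rw [this, ← ENNReal.ofReal_add (by norm_num) (by norm_num)]
    norm_num
  rw [h3, ← ENNReal.ofReal_one, ENNReal.ofReal_le_ofReal_iff (by norm_num)] at h2
  norm_num at h2

end Pool.Agent.EMD33
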