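import Pool.Agent.EMD33.Core
import Pool.Agent.EMD33.Small

set_option autoImplicit false

namespace Pool.Agent.EMD33

open Finset MeasureTheory

section good

variable {Ω : Type*} [MeasurableSpace Ω]

/-- `φ` is integrable with integral at least `2/3` of `m`. -/
private def Gd (P : Measure Ω) (φ : Ω → ℝ) (m : ℝ) : Prop :=
  Integrable φ P ∧ (2 / 3) * m ≤ ∫ ω, φ ω ∂P

private theorem gd_add {P : Measure Ω} {φ ψ : Ω → ℝ} {m n : ℝ} (h : Gd P φ m) (h' : Gd P ψ n) :
    Gd P (fun ω => φ ω + ψ ω) (m + n) := by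
  refine ⟨h.1.add h'.1, ?_⟩
  rw [integral_add h.1 h'.1]
  have h1 := h.2
  have h2 := h'.2
  linarith

private theorem gd_mul {P : Measure Ω} {φ : Ω → ℝ} {m : ℝ} (h : Gd P φ m) {a : ℝ} (ha : 0 ≤ a) :
    Gd P (fun ω => a * φ ω) (a * m) := by
  refine ⟨h.1.const_mul a, ?_⟩
  rw [integral_const_mul]
  have h2 := mul_le_mul_of_nonneg_left h.2 ha
  linarith

private theorem gd_zero {P : Measure Ω} : Gd P (fun _ => (0 : ℝ)) 0 := by
  refine ⟨integrable_zero _ _ _, ?_⟩
  simp

private theorem gd_sum {P : Measure Ω} {α : Type*} (s : Finset α) {φ : α → Ω → ℝ} {m : α → ℝ}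
    (h : ∀ a ∈ s, Gd P (φ a) (m a)) : Gd P (fun ω => ∑ a ∈ s, φ a ω) (∑ a ∈ s, m a) := by
  classical
  induction s using Finset.induction_on with
  | empty =>
    simp only [sum_empty]
    exact gd_zero
  | insert a s ha ih =>
    simp only [sum_insert ha]
    exact gd_add (h a (mem_insert_self a s)) (ih fun b hb => h b (mem_insert_of_mem hb))

private theorem gd_step {G ι : Type*} [AddCommGroup G] [Fintype G] [Fintype ι] {P : Measure Ω}
    (w : ι → ℝ) (v : ι → G) (hw : ∀ i, 0 ≤ w i) (hs : ∑ i, w i ≤ 1) {φ : G → Ω → ℝ} {m : G → ℝ}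
    (h : ∀ x, Gd P (φ x) (m x)) (t : ℕ) (z : G) :
    Gd P (fun ω => (step w v)^[t] (fun x => φ x ω) z) ((step w v)^[t] m z) := by
  induction t generalizing z with
  | zero => exact h z
  | succ t ih =>
    have h1 : (fun ω => (step w v)^[t + 1] (fun x => φ x ω) z)
        = fun ω => (1 - ∑ i, w i) * (step w v)^[t] (fun x => φ x ω) z
          + ∑ i, w i * (step w v)^[t] (fun x => φ x ω) (z + v i) := by
      funext ω
      rw [Function.iterate_succ_apply']
      rfl
    have h2 : (step w v)^[t + 1] m z = (1 - ∑ i, w i) * (step w v)^[t] m z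
        + ∑ i, w i * (step w v)^[t] m (z + v i) := by
      rw [Function.iterate_succ_apply']
      rfl
    rw [h1, h2]
    exact gd_add (gd_mul (ih z) (by linarith)) (gd_sum _ fun i _ => gd_mul (ih (z + v i)) (hw i))

private theorem gd_ind {P : Measure Ω} [IsProbabilityMeasure P] {A : Set Ω} {a : ℝ}
    (h : a = 0 ∨ (a = 1 ∧ MeasurableSet A ∧ (2 / 3 : ENNReal) ≤ P A)) :
    Gd P (fun ω => a * A.indicator (fun _ => (1 : ℝ)) ω) a := by
  rcases h with rfl | ⟨rfl, hA, hP⟩
  · simp only [zero_mul]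
    exact gd_zero
  · simp only [one_mul]
    refine ⟨(integrable_const 1).indicator hA, ?_⟩
    rw [integral_indicator hA, setIntegral_const, smul_eq_mul, mul_one]
    have h1 : ((2 / 3 : ENNReal)).toReal ≤ (P A).toReal :=
      ENNReal.toReal_mono (measure_ne_top P A) hP
    have h2 : ((2 / 3 : ENNReal)).toReal = 2 / 3 := by
      rw [ENNReal.toReal_div]
      norm_num
    rw [h2] at h1
    simpa [Measure.real] using h1

end good

/-- Averaging over the public randomness. -/
theorem average {g s : ℕ} {G ι κ : Type*} [AddCommGroup G] [Fintype G] [Fintype ι] [Fintype κ]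
    (w : ι → ℝ) (v : ι → G) (hw : ∀ i, 0 ≤ w i) (hs : ∑ i, w i ≤ 1 / 2)
    (w' : ℕ → κ → ℝ) (v' : ℕ → κ → G) (hw' : ∀ t k, 0 ≤ w' t k) (hs' : ∀ t, ∑ k, w' t k = 1)
    (cc : ℕ → ℝ) (I : Finset ℕ) (hcc : ∀ t ∈ I, 0 < cc t)
    (hcomp : ∀ t ∈ I, ∀ F : G → ℝ, ∑ z, ∑ k, w' t k * (F z - F (z + v' t k)) ^ 2
        ≤ cc t * ∑ z, ∑ i, w i * (F z - F (z + v i)) ^ 2)
    (en : G → Finset (Fin g × Fin g)) (Λ : ℕ → ℝ) (c : ℝ) (hc : 1 ≤ c)
    (near : ℕ → G → G → ℝ) (far : ℕ → G → G → ℝ)
    (hnear : ∀ t x z, near t x z = 0 ∨ (near t x z = 1 ∧ Near (Λ t) (en x) (en z)))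
    (hfar : ∀ t x z, far t x z = 0 ∨ (far t x z = 1 ∧ Far (c * Λ t) (en x) (en z)))
    (hN : ∀ t ∈ I, (35 / 36 : ℝ) * Fintype.card G
        ≤ ∑ z, (step w v)^[t] (fun x => near t x z) z)
    (hF : ∀ t ∈ I, (34 / 36 : ℝ) * Fintype.card G
        ≤ ∑ z, ∑ k, w' t k * (step w v)^[t] (fun x => far t x z) (z + v' t k))
    {Ω : Type*} [MeasurableSpace Ω] (P : Measure Ω) [IsProbabilityMeasure P]
    (L : Ω → Finset (Fin g × Fin g) → (Fin s → Bool))
    (E : Ω → (Fin s → Bool) → Finset (Fin g × Fin g) → ℝ)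
    (hmeas : ∀ A B : Finset (Fin g × Fin g), A.card = B.card →
      MeasurableSet {ω | Approx c A B (E ω (L ω A) B)})
    (hprob : ∀ A B : Finset (Fin g × Fin g), A.card = B.card →
      (2 / 3 : ENNReal) ≤ P {ω | Approx c A B (E ω (L ω A) B)}) :
    ∑ t ∈ I, 1 / cc t ≤ 256 * (s : ℝ) * Real.log 2 := by
  classical
  have hw1 : ∑ i, w i ≤ 1 := by linarith
  have hG : (0 : ℝ) < Fintype.card G := by
    have : 0 < Fintype.card G := Fintype.card_pos
    exact_mod_cast this
  -- the events
  obtain ⟨A, hAdef⟩ : ∃ A : G → G → Set Ω, ∀ x z,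
      A x z = {ω | Approx c (en x) (en z) (E ω (L ω (en x)) (en z))} := ⟨_, fun _ _ => rfl⟩
  have hAev : ∀ x z, (en x).card = (en z).card →
      MeasurableSet (A x z) ∧ (2 / 3 : ENNReal) ≤ P (A x z) := by
    intro x z hcard
    rw [hAdef]
    exact ⟨hmeas _ _ hcard, hprob _ _ hcard⟩
  have hgn : ∀ t x z, Gd P (fun ω => near t x z * (A x z).indicator (fun _ => (1 : ℝ)) ω)
      (near t x z) := by
    intro t x z
    refine gd_ind ?_
    rcases hnear t x z with h | ⟨h, π, -⟩
    · exact Or.inl h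
    · have hcard : (en x).card = (en z).card := by
        have := Fintype.card_congr π
        simpa using this
      exact Or.inr ⟨h, hAev x z hcard⟩
  have hgf : ∀ t x z, Gd P (fun ω => far t x z * (A x z).indicator (fun _ => (1 : ℝ)) ω)
      (far t x z) := by
    intro t x z
    refine gd_ind ?_
    rcases hfar t x z with h | ⟨h, hcard, -⟩
    · exact Or.inl h
    · exact Or.inr ⟨h, hAev x z hcard⟩
  -- the averaged quantity
  obtain ⟨Sf, hSf⟩ : ∃ Sf : Ω → ℝ, ∀ ω, Sf ω = ∑ t ∈ I, (1 / cc t) *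
      (∑ z, (step w v)^[t] (fun x => near t x z * (A x z).indicator (fun _ => (1 : ℝ)) ω) z
        + ∑ z, ∑ k, w' t k * (step w v)^[t]
          (fun x => far t x z * (A x z).indicator (fun _ => (1 : ℝ)) ω) (z + v' t k)) :=
    ⟨_, fun _ => rfl⟩
  have hgS : Gd P Sf (∑ t ∈ I, (1 / cc t) *
      (∑ z, (step w v)^[t] (fun x => near t x z) z
        + ∑ z, ∑ k, w' t k * (step w v)^[t] (fun x => far t x z) (z + v' t k))) := by
    rw [show Sf = _ from funext hSf]
    refine gd_sum _ fun t ht => gd_mul (gd_add ?_ ?_) (by have := hcc t ht; positivity)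
    · exact gd_sum _ fun z _ => gd_step w v hw hw1 (fun x => hgn t x z) t z
    · exact gd_sum _ fun z _ => gd_sum _ fun k _ =>
        gd_mul (gd_step w v hw hw1 (fun x => hgf t x z) t (z + v' t k)) (hw' t k)
  -- the pointwise inequality
  have hcard : Real.log (Fintype.card (Fin s → Bool)) = s * Real.log 2 := by
    rw [Fintype.card_fun, Fintype.card_bool, Fintype.card_fin]
    push_cast
    rw [Real.log_pow]
  have hpt : ∀ ω, Sf ω ≤ 32 * (Fintype.card G : ℝ) * (s * Real.log 2)
      + ∑ t ∈ I, (1 / cc t) * ((9 / 8) * (Fintype.card G : ℝ)) := by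
    intro ω
    have hcore := core w v hw hs w' v' hw' hs' cc I hcc hcomp (fun x => L ω (en x))
      (fun t m z => if E ω m (en z) ≤ c * Λ t then (1 : ℝ) else 0)
      (fun t m z => by split_ifs <;> norm_num)
      (fun t m z => by split_ifs <;> norm_num)
    rw [hcard] at hcore
    rw [hSf]
    have hterm : ∀ t ∈ I,
        (1 / cc t) * (∑ z, (step w v)^[t]
            (fun x => near t x z * (A x z).indicator (fun _ => (1 : ℝ)) ω) z
          + ∑ z, ∑ k, w' t k * (step w v)^[t]
            (fun x => far t x z * (A x z).indicator (fun _ => (1 : ℝ)) ω) (z + v' t k))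
        ≤ (1 / cc t) * (∑ z, (step w v)^[t]
            (fun x => if E ω (L ω (en x)) (en z) ≤ c * Λ t then (1 : ℝ) else 0) z
          - ∑ z, ∑ k, w' t k * (step w v)^[t]
            (fun x => if E ω (L ω (en x)) (en z) ≤ c * Λ t then (1 : ℝ) else 0) (z + v' t k)
          - (Fintype.card G : ℝ) / 8) + (1 / cc t) * ((9 / 8) * (Fintype.card G : ℝ)) := by
      intro t ht
      have hc0 : 0 ≤ 1 / cc t := by have := hcc t ht; positivity
      rw [← mul_add]
      refine mul_le_mul_of_nonneg_left ?_ hc0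
      have h1 : ∑ z, (step w v)^[t]
            (fun x => near t x z * (A x z).indicator (fun _ => (1 : ℝ)) ω) z
          ≤ ∑ z, (step w v)^[t]
            (fun x => if E ω (L ω (en x)) (en z) ≤ c * Λ t then (1 : ℝ) else 0) z := by
        refine sum_le_sum fun z _ => step_mono w v hw hw1 t (fun x => ?_) z
        beta_reduce
        have h01 : (0 : ℝ) ≤ if E ω (L ω (en x)) (en z) ≤ c * Λ t then (1 : ℝ) else 0 := by
          split_ifs <;> norm_num
        rcases hnear t x z with h | ⟨h, π, hπ⟩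
        · rw [h, zero_mul]
          exact h01
        · rw [h, one_mul]
          by_cases hω : ω ∈ A x z
          · rw [Set.indicator_of_mem hω]
            rw [hAdef] at hω
            have h2 := hω.2 π
            have h3 : c * cost π ≤ c * Λ t := mul_le_mul_of_nonneg_left hπ (by linarith)
            rw [if_pos (h2.trans h3)]
          · rw [Set.indicator_of_notMem hω]
            exact h01
      have h2 : ∀ z k, (step w v)^[t]
            (fun x => if E ω (L ω (en x)) (en z) ≤ c * Λ t then (1 : ℝ) else 0) (z + v' t k)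
          + (step w v)^[t]
            (fun x => far t x z * (A x z).indicator (fun _ => (1 : ℝ)) ω) (z + v' t k) ≤ 1 := by
        intro z k
        rw [← step_add]
        refine le_of_le_of_eq (step_mono w v hw hw1 t (f' := fun _ => (1 : ℝ)) (fun x => ?_) _)
          (step_const w v t 1 (z + v' t k))
        beta_reduce
        have h01 : (if E ω (L ω (en x)) (en z) ≤ c * Λ t then (1 : ℝ) else 0) ≤ 1 := by
          split_ifs <;> norm_num
        rcases hfar t x z with h | ⟨h, -, hf⟩
        · rw [h, zero_mul, add_zero]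
          exact h01
        · rw [h, one_mul]
          by_cases hω : ω ∈ A x z
          · rw [Set.indicator_of_mem hω]
            rw [hAdef] at hω
            obtain ⟨π, hπ⟩ := hω.1
            have h3 := (hf π).trans_le hπ
            rw [if_neg (not_le.2 h3)]
            norm_num
          · rw [Set.indicator_of_notMem hω, add_zero]
            exact h01
      have h3 : ∑ z, ∑ k, w' t k * (step w v)^[t]
            (fun x => if E ω (L ω (en x)) (en z) ≤ c * Λ t then (1 : ℝ) else 0) (z + v' t k)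
          + ∑ z, ∑ k, w' t k * (step w v)^[t]
            (fun x => far t x z * (A x z).indicator (fun _ => (1 : ℝ)) ω) (z + v' t k)
          ≤ (Fintype.card G : ℝ) := by
        rw [← sum_add_distrib]
        have h4 : ∀ z ∈ (univ : Finset G), (∑ k, w' t k * (step w v)^[t]
              (fun x => if E ω (L ω (en x)) (en z) ≤ c * Λ t then (1 : ℝ) else 0) (z + v' t k)
            + ∑ k, w' t k * (step w v)^[t]
              (fun x => far t x z * (A x z).indicator (fun _ => (1 : ℝ)) ω) (z + v' t k)) ≤ 1 := by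
          intro z _
          rw [← sum_add_distrib]
          refine le_of_le_of_eq (sum_le_sum fun k _ => ?_) (hs' t)
          rw [← mul_add]
          have := mul_le_mul_of_nonneg_left (h2 z k) (hw' t k)
          linarith
        calc _ ≤ ∑ _z : G, (1 : ℝ) := sum_le_sum h4
          _ = (Fintype.card G : ℝ) := by simp
      linarith
    refine (sum_le_sum hterm).trans ?_
    rw [sum_add_distrib]
    linarith
  -- integration
  have hint : ∫ ω, Sf ω ∂P ≤ 32 * (Fintype.card G : ℝ) * (s * Real.log 2)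
      + ∑ t ∈ I, (1 / cc t) * ((9 / 8) * (Fintype.card G : ℝ)) := by
    have h1 := integral_mono hgS.1 (integrable_const _) hpt
    rw [integral_const] at h1
    simpa using h1
  have hM : ∑ t ∈ I, (1 / cc t) * ((69 / 36) * (Fintype.card G : ℝ))
      ≤ ∑ t ∈ I, (1 / cc t) * (∑ z, (step w v)^[t] (fun x => near t x z) z
        + ∑ z, ∑ k, w' t k * (step w v)^[t] (fun x => far t x z) (z + v' t k)) := by
    refine sum_le_sum fun t ht => ?_
    have hc0 : 0 ≤ 1 / cc t := by have := hcc t ht; positivity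
    refine mul_le_mul_of_nonneg_left ?_ hc0
    have h1 := hN t ht
    have h2 := hF t ht
    linarith
  have hfin := hgS.2
  rw [← sum_mul] at hint
  rw [← sum_mul] at hM
  set Z := ∑ t ∈ I, 1 / cc t with hZ
  have h5 : (2 / 3) * (Z * ((69 / 36) * (Fintype.card G : ℝ)))
      ≤ 32 * (Fintype.card G : ℝ) * (s * Real.log 2) + Z * ((9 / 8) * (Fintype.card G : ℝ)) := by
    linarith
  have h6 : (Fintype.card G : ℝ) * (Z * (11 / 72))
      ≤ (Fintype.card G : ℝ) * (32 * (s * Real.log 2)) := by
    linarith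
  have h7 := le_of_mul_le_mul_left h6 hG
  have h8 : 0 ≤ (s : ℝ) * Real.log 2 := mul_nonneg (Nat.cast_nonneg s) (Real.log_nonneg (by norm_num))
  nlinarith

end Pool.Agent.EMD33
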