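import Pool.Agent.EMD33.Defs

set_option autoImplicit false

namespace Pool.Agent.EMD33

open Finset

private theorem sum_signs_pi {κ : Type*} [Fintype κ] [DecidableEq κ] (f : κ → Bool → ℝ) :
    ∑ ε : κ → Bool, ∏ q, f q (ε q) = ∏ q, (f q true + f q false) := by
  have h := Finset.prod_univ_sum (fun _ : κ => (Finset.univ : Finset Bool)) (fun q b => f q b)
  rw [Fintype.piFinset_univ] at h
  rw [← h]
  refine Finset.prod_congr rfl fun q _ => ?_
  rw [Fintype.sum_bool]

private theorem sg_true : (sg true : ℝ) = 1 := by simp [sg]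
private theorem sg_false : (sg false : ℝ) = -1 := by simp [sg]

private theorem orth {κ : Type*} [Fintype κ] [DecidableEq κ] (p q : κ) :
    ∑ ε : κ → Bool, (sg (ε p) : ℝ) * (sg (ε q) : ℝ) = if p = q then 2 ^ Fintype.card κ else 0 := by
  by_cases h : p = q
  · subst h
    rw [if_pos rfl]
    have h1 : ∀ ε : κ → Bool, (sg (ε p) : ℝ) * (sg (ε p) : ℝ) = 1 := by
      intro ε
      cases ε p <;> simp [sg]
    simp [h1]
  · rw [if_neg h]
    have h1 : ∀ ε : κ → Bool, (sg (ε p) : ℝ) * (sg (ε q) : ℝ) =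
        ∏ k, (if k = p then (sg (ε k) : ℝ) else if k = q then (sg (ε k) : ℝ) else 1) := by
      intro ε
      rw [← Finset.mul_prod_erase _ _ (Finset.mem_univ p),
        ← Finset.mul_prod_erase _ _ (Finset.mem_erase.mpr ⟨Ne.symm h, Finset.mem_univ q⟩)]
      rw [if_pos rfl, if_neg (Ne.symm h), if_pos rfl]
      rw [Finset.prod_eq_one]
      · ring
      · intro k hk
        rw [Finset.mem_erase, Finset.mem_erase] at hk
        rw [if_neg hk.2.1, if_neg hk.1]
    rw [Finset.sum_congr rfl fun ε _ => h1 ε]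
    rw [sum_signs_pi (fun k b => if k = p then (sg b : ℝ) else if k = q then (sg b : ℝ) else 1)]
    apply Finset.prod_eq_zero (Finset.mem_univ p)
    rw [if_pos rfl, if_pos rfl, sg_true, sg_false]
    ring

/-- average of a random signed sum (Cauchy-Schwarz and orthogonality of the signs). -/
theorem sign_avg {κ : Type*} [Fintype κ] [DecidableEq κ] (b : κ → ℝ) :
    ∑ ε : κ → Bool, |∑ q, (sg (ε q) : ℝ) * b q|
      ≤ 2 ^ (Fintype.card κ) * Real.sqrt (∑ q, b q ^ 2) := by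
  have hsq : ∑ ε : κ → Bool, (∑ q, (sg (ε q) : ℝ) * b q) ^ 2 =
      2 ^ (Fintype.card κ) * ∑ q, b q ^ 2 := by
    have h1 : ∀ ε : κ → Bool, (∑ q, (sg (ε q) : ℝ) * b q) ^ 2 =
        ∑ p, ∑ q, ((sg (ε p) : ℝ) * (sg (ε q) : ℝ)) * (b p * b q) := by
      intro ε
      rw [sq, Finset.sum_mul_sum]
      refine Finset.sum_congr rfl fun p _ => Finset.sum_congr rfl fun q _ => ?_
      ring
    rw [Finset.sum_congr rfl fun ε _ => h1 ε, Finset.sum_comm]
    rw [Finset.mul_sum]
    refine Finset.sum_congr rfl fun p _ => ?_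
    rw [Finset.sum_comm]
    rw [Finset.sum_eq_single p]
    · rw [← Finset.sum_mul, orth, if_pos rfl]
      ring
    · intro q _ hq
      rw [← Finset.sum_mul, orth, if_neg (Ne.symm hq), zero_mul]
    · intro h; exact absurd (Finset.mem_univ p) h
  have hcs := Finset.sum_mul_sq_le_sq_mul_sq (Finset.univ : Finset (κ → Bool)) (fun _ => (1 : ℝ))
    (fun ε => |∑ q, (sg (ε q) : ℝ) * b q|)
  simp only [one_mul, one_pow, sq_abs] at hcs
  rw [hsq] at hcs
  have hcard : ∑ _i : κ → Bool, (1 : ℝ) = 2 ^ (Fintype.card κ) := by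
    simp
  rw [hcard] at hcs
  have hb : 0 ≤ ∑ q, b q ^ 2 := Finset.sum_nonneg fun q _ => sq_nonneg _
  refine abs_le_of_sq_le_sq' ?_ (by positivity) |>.2
  rw [mul_pow, Real.sq_sqrt hb]
  calc (∑ ε : κ → Bool, |∑ q, (sg (ε q) : ℝ) * b q|) ^ 2
      ≤ 2 ^ Fintype.card κ * (2 ^ Fintype.card κ * ∑ q, b q ^ 2) := hcs
    _ = _ := by ring

/-- `sum_ε cos (sum_k ε_k b_k) = 2^|κ| prod_k cos b_k`. -/
theorem sign_prod {κ : Type*} [Fintype κ] [DecidableEq κ] (b : κ → ℝ) :
    ∑ ε : κ → Bool, Real.cos (∑ q, (sg (ε q) : ℝ) * b q)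
      = 2 ^ (Fintype.card κ) * ∏ q, Real.cos (b q) := by
  have h1 : ∀ ε : κ → Bool, ((Real.cos (∑ q, (sg (ε q) : ℝ) * b q) : ℝ) : ℂ) =
      ((∏ q, Complex.exp (((sg (ε q) : ℝ) * b q : ℝ) * Complex.I)) +
        (∏ q, Complex.exp (-((sg (ε q) : ℝ) * b q : ℝ) * Complex.I))) / 2 := by
    intro ε
    rw [Complex.ofReal_cos, Complex.cos, ← Complex.exp_sum, ← Complex.exp_sum]
    congr 3
    · rw [← Finset.sum_mul]
      push_cast
      rfl
    · rw [← Finset.sum_mul, Finset.sum_neg_distrib]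
      push_cast
      rfl
  have hpi : ∀ f : κ → Bool → ℂ, ∑ ε : κ → Bool, ∏ q, f q (ε q) = ∏ q, (f q true + f q false) := by
    intro f
    have h := Finset.prod_univ_sum (fun _ : κ => (Finset.univ : Finset Bool)) (fun q b => f q b)
    rw [Fintype.piFinset_univ] at h
    rw [← h]
    refine Finset.prod_congr rfl fun q _ => ?_
    rw [Fintype.sum_bool]
  have h2 : ((∑ ε : κ → Bool, Real.cos (∑ q, (sg (ε q) : ℝ) * b q) : ℝ) : ℂ) =
      ((2 ^ (Fintype.card κ) * ∏ q, Real.cos (b q) : ℝ) : ℂ) := by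
    have h3 : ∑ ε : κ → Bool, ((Real.cos (∑ q, (sg (ε q) : ℝ) * b q) : ℝ) : ℂ) =
        ((∑ ε : κ → Bool, ∏ q, Complex.exp (((sg (ε q) : ℝ) * b q : ℝ) * Complex.I)) +
        (∑ ε : κ → Bool, ∏ q, Complex.exp (-((sg (ε q) : ℝ) * b q : ℝ) * Complex.I))) / 2 := by
      rw [← Finset.sum_add_distrib, Finset.sum_div]
      exact Finset.sum_congr rfl fun ε _ => h1 ε
    have h4 : ∑ ε : κ → Bool, ∏ q, Complex.exp (((sg (ε q) : ℝ) * b q : ℝ) * Complex.I) =
        ∏ q, (2 * Complex.cos (b q)) := by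
      rw [hpi (fun q c => Complex.exp (((sg c : ℝ) * b q : ℝ) * Complex.I))]
      refine Finset.prod_congr rfl fun q _ => ?_
      rw [Complex.two_cos]
      rw [sg_true, sg_false]
      push_cast
      congr 2 <;> ring
    have h5 : ∑ ε : κ → Bool, ∏ q, Complex.exp (-((sg (ε q) : ℝ) * b q : ℝ) * Complex.I) =
        ∏ q, (2 * Complex.cos (b q)) := by
      rw [hpi (fun q c => Complex.exp (-((sg c : ℝ) * b q : ℝ) * Complex.I))]
      refine Finset.prod_congr rfl fun q _ => ?_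
      rw [Complex.two_cos]
      rw [sg_true, sg_false, add_comm]
      push_cast
      congr 2 <;> ring
    have h6 : ∏ q, (2 * Complex.cos (b q)) = 2 ^ (Fintype.card κ) * ∏ q, Complex.cos (b q) := by
      rw [Finset.prod_mul_distrib, Finset.prod_const, Finset.card_univ]
    rw [Complex.ofReal_sum, h3, h4, h5, h6]
    push_cast
    ring
  exact_mod_cast h2

theorem one_sub_prod_le {κ : Type*} (s : Finset κ) (x : κ → ℝ) (h : ∀ i ∈ s, |x i| ≤ 1) :
    1 - ∏ i ∈ s, x i ≤ ∑ i ∈ s, (1 - x i) := by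
  classical
  have key : ∀ s : Finset κ, (∀ i ∈ s, |x i| ≤ 1) → |∏ i ∈ s, x i| ≤ 1 ∧
      1 - ∏ i ∈ s, x i ≤ ∑ i ∈ s, (1 - x i) := by
    intro s
    induction s using Finset.induction_on with
    | empty => intro _; simp
    | insert a s ha ih =>
      intro hs
      obtain ⟨h1, h2⟩ := ih fun i hi => hs i (Finset.mem_insert_of_mem hi)
      have h3 := hs a (Finset.mem_insert_self a s)
      rw [Finset.prod_insert ha, Finset.sum_insert ha]
      refine ⟨?_, ?_⟩
      · rw [abs_mul]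
        nlinarith [abs_nonneg (x a), abs_nonneg (∏ i ∈ s, x i)]
      · rw [abs_le] at h1 h3
        nlinarith
  exact (key s h).2

end Pool.Agent.EMD33
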