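import Pool.Agent.EMD33.SobolevSet
import Pool.Agent.EMD33.Signs

set_option autoImplicit false

namespace Pool.Agent.EMD33

open Finset

private theorem layer_sum {L x : ℕ} (hx : x ≤ L) :
    ∑ t ∈ range L, (if t < x then (1 : ℝ) else 0) = x := by
  rw [← sum_filter, sum_const, nsmul_eq_mul, mul_one]
  congr 1
  have h1 : (range L).filter (fun t => t < x) = range x := by
    ext t
    rw [mem_filter, mem_range, mem_range]
    omega
  rw [h1, card_range]

private theorem layer_abs_le {L x y : ℕ} (hx : x ≤ L) (hy : y ≤ L) (hxy : y ≤ x) :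
    |(x : ℝ) - y| = ∑ t ∈ range L, |(if t < x then (1 : ℝ) else 0) - (if t < y then 1 else 0)| := by
  have h1 : ∀ t, |(if t < x then (1 : ℝ) else 0) - (if t < y then 1 else 0)|
      = (if t < x then (1 : ℝ) else 0) - (if t < y then 1 else 0) := by
    intro t
    apply abs_of_nonneg
    by_cases h2 : t < y
    · rw [if_pos h2, if_pos (h2.trans_le hxy)]
      norm_num
    · rw [if_neg h2]
      split_ifs <;> norm_num
  simp only [h1]
  rw [sum_sub_distrib, layer_sum hx, layer_sum hy, abs_of_nonneg]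
  have : (y : ℝ) ≤ x := by exact_mod_cast hxy
  linarith

private theorem layer_abs {L x y : ℕ} (hx : x ≤ L) (hy : y ≤ L) :
    |(x : ℝ) - y| = ∑ t ∈ range L, |(if t < x then (1 : ℝ) else 0) - (if t < y then 1 else 0)| := by
  rcases le_total y x with h | h
  · exact layer_abs_le hx hy h
  · rw [abs_sub_comm, layer_abs_le hy hx h]
    exact sum_congr rfl fun t _ => abs_sub_comm _ _

private theorem ind_layer {N : ℕ} (φ : Fin N × Fin N → ℕ) (t : ℕ) (a : Fin N × Fin N) :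
    ind (univ.filter (fun a => t < φ a)) a = if t < φ a then 1 else 0 := by
  unfold ind
  simp only [mem_filter, mem_univ, true_and]

/-- Coarea: layers `1[φ > t]`, `t < L` (for values at most `L`). -/
theorem tv_layers {N : ℕ} (φ : Fin N × Fin N → ℕ) (L : ℕ) (hL : ∀ a, φ a ≤ L) :
    tv (fun a => (φ a : ℝ)) = ∑ t ∈ range L, tv (ind (univ.filter (fun a => t < φ a))) := by
  unfold tv
  conv_rhs => rw [sum_comm]
  refine sum_congr rfl fun b _ => ?_
  conv_rhs => rw [sum_comm]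
  refine sum_congr rfl fun a _ => ?_
  simp only [ind_layer]
  exact layer_abs (hL _) (hL _)

private theorem pat_layers {N : ℕ} (h : ℕ) (φ : Fin N × Fin N → ℕ) (L : ℕ) (hL : ∀ a, φ a ≤ L)
    (q : Fin N × Fin N) : pat h (fun a => (φ a : ℝ)) q =
      ∑ t ∈ range L, pat h (ind (univ.filter (fun a => t < φ a))) q := by
  unfold pat
  rw [sum_comm]
  refine sum_congr rfl fun a _ => ?_
  simp only [ind_layer]
  by_cases h1 : cell h a = q
  · simp only [if_pos h1]
    rw [← mul_sum, layer_sum (hL a)]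
  · simp only [if_neg h1]
    rw [sum_const_zero]

/-- Besov-Sobolev inequality for integer valued functions, randomised form. -/
theorem sobolev_nat (B : ℕ) (φ : Fin (4 ^ (B + 1)) × Fin (4 ^ (B + 1)) → ℕ) :
    ∑ j ∈ range B, (1 / (4 : ℝ) ^ (j + 1)) *
      ∑ ε : Fin (4 ^ (B + 1)) × Fin (4 ^ (B + 1)) → Bool,
        |∑ q, (sg (ε q) : ℝ) * pat (4 ^ (j + 1)) (fun a => (φ a : ℝ)) q|
      ≤ 2 ^ (4 ^ (B + 1) * 4 ^ (B + 1)) * (4 * tv (fun a => (φ a : ℝ))) := by
  obtain ⟨N, hN⟩ : ∃ N, N = 4 ^ (B + 1) := ⟨_, rfl⟩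
  obtain ⟨L, hL⟩ : ∃ L, ∀ a, φ a ≤ L := ⟨∑ a, φ a, fun a => single_le_sum (f := φ)
    (fun _ _ => Nat.zero_le _) (mem_univ a)⟩
  have hcard : Fintype.card (Fin (4 ^ (B + 1)) × Fin (4 ^ (B + 1))) = 4 ^ (B + 1) * 4 ^ (B + 1) := by
    rw [Fintype.card_prod, Fintype.card_fin]
  -- one scale
  have h1 : ∀ j : ℕ, ∑ ε : Fin (4 ^ (B + 1)) × Fin (4 ^ (B + 1)) → Bool,
        |∑ q, (sg (ε q) : ℝ) * pat (4 ^ (j + 1)) (fun a => (φ a : ℝ)) q|
      ≤ ∑ t ∈ range L, 2 ^ (4 ^ (B + 1) * 4 ^ (B + 1)) *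
        Real.sqrt (∑ q, (pat (4 ^ (j + 1)) (ind (univ.filter (fun a => t < φ a))) q) ^ 2) := by
    intro j
    calc ∑ ε : Fin (4 ^ (B + 1)) × Fin (4 ^ (B + 1)) → Bool,
        |∑ q, (sg (ε q) : ℝ) * pat (4 ^ (j + 1)) (fun a => (φ a : ℝ)) q|
        ≤ ∑ ε : Fin (4 ^ (B + 1)) × Fin (4 ^ (B + 1)) → Bool, ∑ t ∈ range L,
          |∑ q, (sg (ε q) : ℝ) * pat (4 ^ (j + 1)) (ind (univ.filter (fun a => t < φ a))) q| := by
          refine sum_le_sum fun ε _ => ?_
          have h2 : ∑ q, (sg (ε q) : ℝ) * pat (4 ^ (j + 1)) (fun a => (φ a : ℝ)) q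
              = ∑ t ∈ range L, ∑ q, (sg (ε q) : ℝ) *
                pat (4 ^ (j + 1)) (ind (univ.filter (fun a => t < φ a))) q := by
            rw [sum_comm]
            refine sum_congr rfl fun q _ => ?_
            rw [pat_layers _ φ L hL q, mul_sum]
          rw [h2]
          exact abs_sum_le_sum_abs _ _
      _ = ∑ t ∈ range L, ∑ ε : Fin (4 ^ (B + 1)) × Fin (4 ^ (B + 1)) → Bool,
          |∑ q, (sg (ε q) : ℝ) * pat (4 ^ (j + 1)) (ind (univ.filter (fun a => t < φ a))) q| :=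
          sum_comm
      _ ≤ _ := by
          refine sum_le_sum fun t _ => ?_
          have h3 := sign_avg (κ := Fin (4 ^ (B + 1)) × Fin (4 ^ (B + 1)))
            (fun q => pat (4 ^ (j + 1)) (ind (univ.filter (fun a => t < φ a))) q)
          rw [hcard] at h3
          exact h3
  calc ∑ j ∈ range B, (1 / (4 : ℝ) ^ (j + 1)) *
      ∑ ε : Fin (4 ^ (B + 1)) × Fin (4 ^ (B + 1)) → Bool,
        |∑ q, (sg (ε q) : ℝ) * pat (4 ^ (j + 1)) (fun a => (φ a : ℝ)) q|
      ≤ ∑ j ∈ range B, ∑ t ∈ range L, 2 ^ (4 ^ (B + 1) * 4 ^ (B + 1)) *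
        ((1 / (4 : ℝ) ^ (j + 1)) *
        Real.sqrt (∑ q, (pat (4 ^ (j + 1)) (ind (univ.filter (fun a => t < φ a))) q) ^ 2)) := by
        refine sum_le_sum fun j _ => ?_
        refine (mul_le_mul_of_nonneg_left (h1 j) (by positivity)).trans (le_of_eq ?_)
        rw [mul_sum]
        exact sum_congr rfl fun t _ => by ring
    _ = ∑ t ∈ range L, 2 ^ (4 ^ (B + 1) * 4 ^ (B + 1)) *
        ∑ j ∈ range B, (1 / (4 : ℝ) ^ (j + 1)) *
        Real.sqrt (∑ q, (pat (4 ^ (j + 1)) (ind (univ.filter (fun a => t < φ a))) q) ^ 2) := by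
        rw [sum_comm]
        exact sum_congr rfl fun t _ => by rw [mul_sum]
    _ ≤ ∑ t ∈ range L, 2 ^ (4 ^ (B + 1) * 4 ^ (B + 1)) *
        (4 * tv (ind (univ.filter (fun a => t < φ a)))) := by
        refine sum_le_sum fun t _ => mul_le_mul_of_nonneg_left ?_ (by positivity)
        exact sobolev_set B _
    _ = _ := by
        rw [tv_layers φ L hL, mul_sum, mul_sum]

end Pool.Agent.EMD33
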