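import Pool.Agent.EMD33.Defs

set_option autoImplicit false

namespace Pool.Agent.EMD33

open Finset

/-- the character `ψ ↦ e (sum_a ψ a * x a)`. -/
private noncomputable def chF {S : Type*} [Fintype S] (Q : ℕ) [NeZero Q] (x : S → ZMod Q) :
    AddChar (S → ZMod Q) ℂ where
  toFun ψ := ZMod.stdAddChar (∑ a, ψ a * x a)
  map_zero_eq_one' := by simp
  map_add_eq_mul' ψ φ := by
    simp only [Pi.add_apply, add_mul, Finset.sum_add_distrib, AddChar.map_add_eq_mul]

private lemma chF_apply {S : Type*} [Fintype S] (Q : ℕ) [NeZero Q] (x ψ : S → ZMod Q) :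
    chF Q x ψ = ZMod.stdAddChar (∑ a, ψ a * x a) := rfl

private lemma chF_add {S : Type*} [Fintype S] (Q : ℕ) [NeZero Q] (x y ψ : S → ZMod Q) :
    chF Q (x + y) ψ = chF Q x ψ * chF Q y ψ := by
  simp only [chF_apply, Pi.add_apply, mul_add, Finset.sum_add_distrib, AddChar.map_add_eq_mul]

private lemma conj_std (Q : ℕ) [NeZero Q] (t : ZMod Q) :
    (starRingEnd ℂ) (ZMod.stdAddChar t) = ZMod.stdAddChar (-t) := by
  rw [ZMod.stdAddChar_apply, ZMod.stdAddChar_apply, AddChar.map_neg_eq_inv, Circle.coe_inv_eq_conj]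

private lemma chF_neg {S : Type*} [Fintype S] (Q : ℕ) [NeZero Q] (x ψ : S → ZMod Q) :
    chF Q (-x) ψ = (starRingEnd ℂ) (chF Q x ψ) := by
  simp only [chF_apply, Pi.neg_apply, mul_neg, Finset.sum_neg_distrib, conj_std]

private lemma chF_sum {S : Type*} [Fintype S] [DecidableEq S] (Q : ℕ) [NeZero Q]
    (x : S → ZMod Q) :
    ∑ ψ, chF Q x ψ = if x = 0 then (Fintype.card (S → ZMod Q) : ℂ) else 0 := by
  split_ifs with h
  · subst h
    simp [chF_apply]
  · apply AddChar.sum_eq_zero_of_ne_one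
    intro h1
    apply h
    ext a
    have h2 := DFunLike.congr_fun h1 (Pi.single a 1)
    rw [chF_apply, AddChar.one_apply] at h2
    have h3 : ∑ b, (Pi.single a 1 : S → ZMod Q) b * x b = x a := by
      rw [Finset.sum_eq_single a]
      · simp
      · intro b _ hb
        simp [Pi.single_eq_of_ne hb]
      · simp
    rw [h3, ← (ZMod.stdAddChar (N := Q)).map_zero_eq_one] at h2
    exact ZMod.injective_stdAddChar h2

private lemma re_std (Q : ℕ) [NeZero Q] (t : ZMod Q) :
    (ZMod.stdAddChar t : ℂ).re = cs Q t := by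
  rw [ZMod.stdAddChar_apply, ZMod.toCircle_eq_circleExp, Circle.coe_exp, cs]
  rw [Complex.exp_ofReal_mul_I_re]
  congr 1
  ring

private lemma normSq_one_sub (Q : ℕ) [NeZero Q] (t : ZMod Q) :
    Complex.normSq (1 - ZMod.stdAddChar t) = 2 * (1 - cs Q t) := by
  have h1 : Complex.normSq (ZMod.stdAddChar t : ℂ) = 1 := by
    rw [ZMod.stdAddChar_apply, Circle.normSq_coe]
  rw [Complex.normSq_sub, h1, conj_std, Complex.normSq_one]
  have h2 : (1 * (ZMod.stdAddChar (-t) : ℂ)).re = cs Q t := by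
    rw [one_mul, ← conj_std, Complex.conj_re, re_std]
  rw [h2]
  ring

private lemma parseval {S : Type*} [Fintype S] [DecidableEq S] (Q : ℕ) [NeZero Q]
    (g : (S → ZMod Q) → ℝ) :
    ∑ ψ, Complex.normSq (∑ z, (g z : ℂ) * chF Q z ψ)
      = (Fintype.card (S → ZMod Q) : ℝ) * ∑ z, (g z) ^ 2 := by
  have h : (∑ ψ, ((Complex.normSq (∑ z, (g z : ℂ) * chF Q z ψ) : ℝ) : ℂ))
      = (Fintype.card (S → ZMod Q) : ℂ) * ∑ z, ((g z : ℝ) : ℂ) ^ 2 := by
    calc (∑ ψ, ((Complex.normSq (∑ z, (g z : ℂ) * chF Q z ψ) : ℝ) : ℂ))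
        = ∑ ψ, ∑ z, ∑ y, (g z : ℂ) * (g y : ℂ) * chF Q (z + -y) ψ := by
          refine Finset.sum_congr rfl fun ψ _ => ?_
          rw [← Complex.mul_conj, map_sum, Finset.sum_mul_sum]
          refine Finset.sum_congr rfl fun z _ => Finset.sum_congr rfl fun y _ => ?_
          rw [chF_add, chF_neg, map_mul, Complex.conj_ofReal]
          ring
      _ = ∑ z, ∑ y, (g z : ℂ) * (g y : ℂ) * ∑ ψ, chF Q (z + -y) ψ := by
          rw [Finset.sum_comm]
          refine Finset.sum_congr rfl fun z _ => ?_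
          rw [Finset.sum_comm]
          refine Finset.sum_congr rfl fun y _ => ?_
          rw [Finset.mul_sum]
      _ = ∑ z, (g z : ℂ) * (g z : ℂ) * (Fintype.card (S → ZMod Q) : ℂ) := by
          refine Finset.sum_congr rfl fun z _ => ?_
          rw [Finset.sum_eq_single z]
          · rw [chF_sum, if_pos (add_neg_cancel z)]
          · intro y _ hy
            rw [chF_sum, if_neg, mul_zero]
            intro h0
            exact hy (by rw [← sub_eq_add_neg, sub_eq_zero] at h0; exact h0.symm)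
          · simp
      _ = (Fintype.card (S → ZMod Q) : ℂ) * ∑ z, ((g z : ℝ) : ℂ) ^ 2 := by
          rw [Finset.mul_sum]
          refine Finset.sum_congr rfl fun z _ => ?_
          ring
  exact_mod_cast h

private lemma shift_parseval {S : Type*} [Fintype S] [DecidableEq S] (Q : ℕ) [NeZero Q]
    (F : (S → ZMod Q) → ℝ) (v : S → ZMod Q) :
    (Fintype.card (S → ZMod Q) : ℝ) * ∑ z, (F z - F (z + v)) ^ 2
      = ∑ ψ, Complex.normSq (∑ z, (F z : ℂ) * chF Q z ψ) * (2 * (1 - cs Q (∑ a, ψ a * v a))) := by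
  rw [← parseval Q (fun z => F z - F (z + v))]
  refine Finset.sum_congr rfl fun ψ _ => ?_
  have h1 : ∑ z, ((F z - F (z + v) : ℝ) : ℂ) * chF Q z ψ
      = (∑ z, (F z : ℂ) * chF Q z ψ) * (1 - ZMod.stdAddChar (-(∑ a, ψ a * v a))) := by
    have h2 : ∑ z, (F (z + v) : ℂ) * chF Q z ψ
        = (∑ z, (F z : ℂ) * chF Q z ψ) * ZMod.stdAddChar (-(∑ a, ψ a * v a)) := by
      rw [Finset.sum_mul]
      rw [← Equiv.sum_comp (Equiv.addRight v)
        (fun z => (F z : ℂ) * chF Q z ψ * ZMod.stdAddChar (-(∑ a, ψ a * v a)))]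
      refine Finset.sum_congr rfl fun z _ => ?_
      simp only [Equiv.coe_addRight]
      rw [chF_add, ← conj_std, ← chF_apply, mul_assoc, mul_assoc, Complex.mul_conj]
      have h3 : Complex.normSq (chF Q v ψ) = 1 := by
        rw [chF_apply, ZMod.stdAddChar_apply, Circle.normSq_coe]
      rw [h3]
      simp
    simp only [Complex.ofReal_sub, sub_mul, Finset.sum_sub_distrib]
    rw [h2]
    ring
  rw [h1, Complex.normSq_mul, normSq_one_sub]
  congr 3
  rw [← re_std, ← re_std, ← conj_std, Complex.conj_re]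

private lemma form_eq {S κ : Type*} [Fintype S] [DecidableEq S] [Fintype κ] (Q : ℕ) [NeZero Q]
    (u : κ → ℝ) (x : κ → S → ZMod Q) (F : (S → ZMod Q) → ℝ) :
    (Fintype.card (S → ZMod Q) : ℝ) * ∑ z, ∑ k, u k * (F z - F (z + x k)) ^ 2
      = ∑ ψ, Complex.normSq (∑ z, (F z : ℂ) * chF Q z ψ) *
          (2 * ∑ k, u k * (1 - cs Q (∑ a, ψ a * x k a))) := by
  rw [Finset.sum_comm]
  calc (Fintype.card (S → ZMod Q) : ℝ) * ∑ k, ∑ z, u k * (F z - F (z + x k)) ^ 2
      = ∑ k, u k * ((Fintype.card (S → ZMod Q) : ℝ) * ∑ z, (F z - F (z + x k)) ^ 2) := by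
        rw [Finset.mul_sum]
        refine Finset.sum_congr rfl fun k _ => ?_
        rw [← Finset.mul_sum]
        ring
    _ = ∑ k, ∑ ψ, u k * (Complex.normSq (∑ z, (F z : ℂ) * chF Q z ψ) *
          (2 * (1 - cs Q (∑ a, ψ a * x k a)))) := by
        refine Finset.sum_congr rfl fun k _ => ?_
        rw [shift_parseval, Finset.mul_sum]
    _ = _ := by
        rw [Finset.sum_comm]
        refine Finset.sum_congr rfl fun ψ _ => ?_
        rw [Finset.mul_sum, Finset.mul_sum]
        refine Finset.sum_congr rfl fun k _ => ?_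
        ring

/-- Comparison of quadratic forms of translations by their characters.

Proof. With `e (t) = ZMod.stdAddChar t` and `Fh ψ = sum_z F z * e (sum_a ψ a * z a)` one has
`sum_z (F z - F (z + v))^2 = (2 / |G|) * sum_ψ |Fh ψ|^2 * (1 - cs Q (sum_a ψ a * v a))`
by orthogonality `sum_ψ e (sum_a ψ a * x a) = if x = 0 then |G| else 0`
(product of one-dimensional sums, `AddChar.sum_mulShift`). -/
theorem fourier_comparison {S ι κ : Type*} [Fintype S] [DecidableEq S] [Fintype ι] [Fintype κ]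
    (Q : ℕ) [NeZero Q] (w : ι → ℝ) (v : ι → S → ZMod Q) (w' : κ → ℝ) (v' : κ → S → ZMod Q)
    (C : ℝ)
    (h : ∀ ψ : S → ZMod Q, ∑ k, w' k * (1 - cs Q (∑ a, ψ a * v' k a))
        ≤ C * ∑ i, w i * (1 - cs Q (∑ a, ψ a * v i a)))
    (F : (S → ZMod Q) → ℝ) :
    ∑ z, ∑ k, w' k * (F z - F (z + v' k)) ^ 2
      ≤ C * ∑ z, ∑ i, w i * (F z - F (z + v i)) ^ 2 := by
  have hG : (0 : ℝ) < (Fintype.card (S → ZMod Q) : ℝ) := by
    exact_mod_cast Fintype.card_pos
  refine le_of_mul_le_mul_left ?_ hG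
  rw [form_eq Q w' v' F, mul_left_comm, form_eq Q w v F, Finset.mul_sum]
  refine Finset.sum_le_sum fun ψ _ => ?_
  have h0 := Complex.normSq_nonneg (∑ z, (F z : ℂ) * chF Q z ψ)
  have h1 := h ψ
  calc Complex.normSq (∑ z, (F z : ℂ) * chF Q z ψ) *
          (2 * ∑ k, w' k * (1 - cs Q (∑ a, ψ a * v' k a)))
      ≤ Complex.normSq (∑ z, (F z : ℂ) * chF Q z ψ) *
          (2 * (C * ∑ i, w i * (1 - cs Q (∑ a, ψ a * v i a)))) := by
        apply mul_le_mul_of_nonneg_left _ h0
        linarith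
    _ = _ := by ring

end Pool.Agent.EMD33
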