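import Pool.Agent.EMD33.Defs

set_option autoImplicit false

namespace Pool.Agent.EMD33

open Finset

theorem cut_sum {Q : ℕ} [NeZero Q] (x y : ZMod Q) :
    ∑ θ : ZMod Q, |(((y - θ).val : ℕ) : ℝ) - (((x - θ).val : ℕ) : ℝ)| ≤ 2 * (Q : ℝ) * (nd (y - x) : ℝ) := by
  have hcard : ((univ : Finset (ZMod Q)).card : ℝ) = Q := by
    rw [card_univ, ZMod.card]
  have hzero : ∑ θ : ZMod Q, ((((y - θ).val : ℕ) : ℝ) - (((x - θ).val : ℕ) : ℝ)) = 0 := by
    rw [sum_sub_distrib]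
    have h1 : ∀ w : ZMod Q, ∑ θ : ZMod Q, (((w - θ).val : ℕ) : ℝ) = ∑ θ : ZMod Q, ((θ.val : ℕ) : ℝ) :=
      fun w => Equiv.sum_comp (Equiv.subLeft w) (fun θ : ZMod Q => ((θ.val : ℕ) : ℝ))
    rw [h1 y, h1 x, sub_self]
  have hd : (y - x).val < Q := ZMod.val_lt _
  have hval : ∀ θ : ZMod Q, (y - θ).val = (x - θ).val + (y - x).val ∨
      (y - θ).val + Q = (x - θ).val + (y - x).val := by
    intro θ
    have h1 : y - θ = (x - θ) + (y - x) := by ring
    by_cases h : (x - θ).val + (y - x).val < Q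
    · left
      rw [h1, ZMod.val_add_of_lt h]
    · right
      rw [h1]
      exact (ZMod.val_add_val_of_le (not_lt.mp h)).symm
  have hdR : ((y - x).val : ℝ) < Q := by exact_mod_cast hd
  have hd0 : (0 : ℝ) ≤ ((y - x).val : ℝ) := Nat.cast_nonneg _
  have b1 : ∀ θ : ZMod Q, |(((y - θ).val : ℕ) : ℝ) - (((x - θ).val : ℕ) : ℝ)| ≤
      2 * ((y - x).val : ℝ) - ((((y - θ).val : ℕ) : ℝ) - (((x - θ).val : ℕ) : ℝ)) := by
    intro θ
    rcases hval θ with h | h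
    · have h2 : (((y - θ).val : ℕ) : ℝ) = ((x - θ).val : ℝ) + ((y - x).val : ℝ) := by exact_mod_cast h
      rw [abs_le]
      constructor <;> linarith
    · have h2 : (((y - θ).val : ℕ) : ℝ) + Q = ((x - θ).val : ℝ) + ((y - x).val : ℝ) := by exact_mod_cast h
      rw [abs_le]
      constructor <;> linarith
  have b2 : ∀ θ : ZMod Q, |(((y - θ).val : ℕ) : ℝ) - (((x - θ).val : ℕ) : ℝ)| ≤
      2 * ((Q : ℝ) - ((y - x).val : ℝ)) + ((((y - θ).val : ℕ) : ℝ) - (((x - θ).val : ℕ) : ℝ)) := by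
    intro θ
    rcases hval θ with h | h
    · have h2 : (((y - θ).val : ℕ) : ℝ) = ((x - θ).val : ℝ) + ((y - x).val : ℝ) := by exact_mod_cast h
      rw [abs_le]
      constructor <;> linarith
    · have h2 : (((y - θ).val : ℕ) : ℝ) + Q = ((x - θ).val : ℝ) + ((y - x).val : ℝ) := by exact_mod_cast h
      rw [abs_le]
      constructor <;> linarith
  have s1 := sum_le_sum (fun θ (_ : θ ∈ (univ : Finset (ZMod Q))) => b1 θ)
  have s2 := sum_le_sum (fun θ (_ : θ ∈ (univ : Finset (ZMod Q))) => b2 θ)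
  rw [sum_sub_distrib, hzero, sum_const, nsmul_eq_mul, hcard] at s1
  rw [sum_add_distrib, hzero, sum_const, nsmul_eq_mul, hcard] at s2
  have hnd : (nd (y - x) : ℝ) = min ((y - x).val : ℝ) ((Q : ℝ) - ((y - x).val : ℝ)) := by
    unfold nd
    rw [Nat.cast_min, Nat.cast_sub hd.le]
  rw [hnd]
  rcases min_cases ((y - x).val : ℝ) ((Q : ℝ) - ((y - x).val : ℝ)) with ⟨h, -⟩ | ⟨h, -⟩
  · rw [h]
    linarith
  · rw [h]
    linarith

/-- Cutting the circle at a good point.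

Proof. Average over `θ`: if `d = nd (ψ b - ψ a)` then `|(ψ b - θ).val - (ψ a - θ).val|` is
`Q - d` for `d` values of `θ` and `d` for the other `Q - d` values. -/
theorem exists_cut {N Q : ℕ} [NeZero Q] (ψ : Fin N × Fin N → ZMod Q) :
    ∃ θ : ZMod Q, tv (fun a => (((ψ a - θ).val : ℕ) : ℝ))
      ≤ 2 * ∑ b : Bool, ∑ a, (nd (ψ (nxt b a) - ψ a) : ℝ) := by
  have hcard : ((univ : Finset (ZMod Q)).card : ℝ) = Q := by
    rw [card_univ, ZMod.card]
  have h1 : ∑ θ : ZMod Q, tv (fun a => (((ψ a - θ).val : ℕ) : ℝ)) ≤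
      ∑ _θ : ZMod Q, 2 * ∑ b : Bool, ∑ a, (nd (ψ (nxt b a) - ψ a) : ℝ) := by
    unfold tv
    rw [sum_comm, sum_const, nsmul_eq_mul, hcard, mul_sum, mul_sum]
    refine sum_le_sum fun b _ => ?_
    rw [sum_comm, mul_sum, mul_sum]
    refine sum_le_sum fun a _ => ?_
    refine (cut_sum (ψ a) (ψ (nxt b a))).trans (le_of_eq ?_)
    ring
  obtain ⟨θ, -, hθ⟩ := exists_le_of_sum_le (univ_nonempty (α := ZMod Q)) h1
  exact ⟨θ, hθ⟩

end Pool.Agent.EMD33
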