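import Pool.Agent.EMD33.Defs

set_option autoImplicit false

namespace Pool.Agent.EMD33

open Finset

private theorem one_sub_cos_le {y s x : ℝ} (hy : 0 < y) (hs : 1 ≤ s) (hx : |x| ≤ y / s) :
    1 - Real.cos x ≤ 8 * y ^ 2 * (1 / (s - 1 + y) - 1 / (s + y)) := by
  have h1 : 0 < s - 1 + y := by linarith
  have h2 : 0 < s + y := by linarith
  have h3 : 1 / (s - 1 + y) - 1 / (s + y) = 1 / ((s - 1 + y) * (s + y)) := by
    field_simp
    ring
  have h4 : 0 < (s - 1 + y) * (s + y) := mul_pos h1 h2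
  rw [h3, mul_one_div, le_div_iff₀ h4]
  by_cases h : s ≤ y
  · have h5 : 1 - Real.cos x ≤ 2 := by linarith [Real.neg_one_le_cos x]
    have h6 : (s - 1 + y) * (s + y) ≤ (2 * y) * (2 * y) :=
      mul_le_mul (by linarith) (by linarith) h2.le (by linarith)
    calc (1 - Real.cos x) * ((s - 1 + y) * (s + y))
        ≤ 2 * ((2 * y) * (2 * y)) := by
          refine mul_le_mul h5 h6 h4.le (by norm_num)
      _ = 8 * y ^ 2 := by ring
  · push Not at h
    have h5 : 1 - Real.cos x ≤ x ^ 2 / 2 := by linarith [Real.one_sub_sq_div_two_le_cos (x := x)]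
    have h6 : (s - 1 + y) * (s + y) ≤ (2 * s) * (2 * s) :=
      mul_le_mul (by linarith) (by linarith) h2.le (by linarith)
    have h7 : x ^ 2 ≤ (y / s) ^ 2 := by
      rw [← sq_abs x]
      exact pow_le_pow_left₀ (abs_nonneg x) hx 2
    have hs0 : 0 < s := by linarith
    calc (1 - Real.cos x) * ((s - 1 + y) * (s + y))
        ≤ ((y / s) ^ 2 / 2) * ((2 * s) * (2 * s)) := by
          refine mul_le_mul (by linarith) h6 h4.le (by positivity)
      _ = 2 * y ^ 2 := by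
          field_simp
      _ ≤ 8 * y ^ 2 := by nlinarith [sq_nonneg y]

/-- Heavy tailed amplitudes: linear bound.

Proof. `1 - cos x <= 2 * min 1 (x^2)`, `alpha n r * |θ| <= y / s` with `y = n |θ|`, `s = r + 1`, and
`min 1 (y^2/s^2) <= 4 y^2 (1/(s-1+y) - 1/(s+y))`, which telescopes to `4 y`. -/
theorem heavy_tail (n M : ℕ) (θ : ℝ) :
    ∑ r ∈ range M, (1 - Real.cos ((alpha n r : ℝ) * θ)) ≤ 8 * n * |θ| := by
  rcases eq_or_lt_of_le (show 0 ≤ (n : ℝ) * |θ| by positivity) with h | h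
  · have h1 : ∀ r ∈ range M, 1 - Real.cos ((alpha n r : ℝ) * θ) = 0 := by
      intro r _
      have h2 : (alpha n r : ℝ) * θ = 0 := by
        rcases mul_eq_zero.1 h.symm with h3 | h3
        · have h4 : n = 0 := by exact_mod_cast h3
          rw [alpha, h4, Nat.zero_div, Nat.cast_zero, zero_mul]
        · rw [abs_eq_zero.1 h3, mul_zero]
      rw [h2, Real.cos_zero, sub_self]
    rw [sum_eq_zero h1, mul_assoc, ← h, mul_zero]
  · set y : ℝ := (n : ℝ) * |θ| with hy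
    have h1 : ∀ r ∈ range M, 1 - Real.cos ((alpha n r : ℝ) * θ) ≤
        8 * y ^ 2 * (1 / ((r : ℝ) + y) - 1 / (((r + 1 : ℕ) : ℝ) + y)) := by
      intro r _
      have h2 : |(alpha n r : ℝ) * θ| ≤ y / ((r : ℝ) + 1) := by
        rw [abs_mul, Nat.abs_cast, hy, mul_div_right_comm]
        apply mul_le_mul_of_nonneg_right _ (abs_nonneg θ)
        have h3 : ((n / (r + 1) : ℕ) : ℝ) ≤ (n : ℝ) / ((r + 1 : ℕ) : ℝ) := Nat.cast_div_le
        rw [alpha]
        refine h3.trans (le_of_eq ?_)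
        push_cast
        rfl
      have h4 := one_sub_cos_le h (s := (r : ℝ) + 1) (by
        have : (0 : ℝ) ≤ r := Nat.cast_nonneg r
        linarith) h2
      rw [add_sub_cancel_right] at h4
      push_cast
      exact h4
    refine (sum_le_sum h1).trans ?_
    rw [← mul_sum, sum_range_sub' (fun r : ℕ => 1 / ((r : ℝ) + y)) M]
    have h5 : 0 ≤ 1 / ((M : ℝ) + y) := by positivity
    have h6 : (8 : ℝ) * n * |θ| = 8 * y := by rw [hy]; ring
    rw [h6, Nat.cast_zero, zero_add]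
    have h7 : 8 * y ^ 2 * (1 / y) = 8 * y := by
      field_simp
    have h8 : 0 ≤ 8 * y ^ 2 * (1 / ((M : ℝ) + y)) := by positivity
    linarith [mul_sub (8 * y ^ 2) (1 / y) (1 / ((M : ℝ) + y))]

private theorem harm_eq (n : ℕ) : ((harmonic n : ℚ) : ℝ) = ∑ r ∈ range n, ((r : ℝ) + 1)⁻¹ := by
  rw [harmonic]
  push_cast
  rfl

/-- `sum_{r < M} floor (n/(r+1)) >= n (log n - 1)` for `n <= M`. -/
theorem alpha_lower (n M : ℕ) (hn : 1 ≤ n) (h : n ≤ M) :
    (n : ℝ) * (Real.log n - 1) ≤ ∑ r ∈ range M, (alpha n r : ℝ) := by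
  have h1 : ∑ r ∈ range n, (alpha n r : ℝ) ≤ ∑ r ∈ range M, (alpha n r : ℝ) :=
    sum_le_sum_of_subset_of_nonneg (range_mono h) (fun _ _ _ => Nat.cast_nonneg _)
  refine le_trans ?_ h1
  have h2 : ∀ r ∈ range n, (n : ℝ) * ((r : ℝ) + 1)⁻¹ - 1 ≤ (alpha n r : ℝ) := by
    intro r _
    have h3 := Nat.lt_succ_floor ((n : ℝ) / ((r + 1 : ℕ) : ℝ))
    rw [Nat.floor_div_eq_div] at h3
    rw [alpha, ← div_eq_mul_inv]
    push_cast at h3
    linarith
  have h3 : ∑ r ∈ range n, ((n : ℝ) * ((r : ℝ) + 1)⁻¹ - 1) = n * (harmonic n : ℚ) - n := by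
    rw [sum_sub_distrib, ← mul_sum, harm_eq, sum_const, card_range, nsmul_eq_mul, mul_one]
  refine le_trans ?_ (sum_le_sum h2)
  rw [h3]
  have h4 := log_add_one_le_harmonic n
  have h5 : Real.log n ≤ Real.log ((n + 1 : ℕ) : ℝ) := by
    apply Real.log_le_log
    · exact_mod_cast hn
    · exact_mod_cast Nat.le_succ n
  have h6 : (n : ℝ) * Real.log n ≤ n * (harmonic n : ℚ) :=
    mul_le_mul_of_nonneg_left (h5.trans h4) (Nat.cast_nonneg n)
  linarith

/-- `sum_{r < M} floor (n/(r+1)) <= n (1 + log n)`. -/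
theorem alpha_upper (n M : ℕ) (hn : 1 ≤ n) :
    ∑ r ∈ range M, (alpha n r : ℝ) ≤ (n : ℝ) * (1 + Real.log n) := by
  have h1 : ∑ r ∈ range M, (alpha n r : ℝ) ≤ ∑ r ∈ range n, (alpha n r : ℝ) := by
    have h2 : ∑ r ∈ range M, (alpha n r : ℝ) = ∑ r ∈ (range M).filter (· < n), (alpha n r : ℝ) := by
      symm
      apply sum_filter_of_ne
      intro r _ hr
      by_contra hc
      apply hr
      rw [alpha, Nat.div_eq_of_lt (by omega), Nat.cast_zero]
    rw [h2]
    apply sum_le_sum_of_subset_of_nonneg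
    · intro r hr
      exact mem_range.2 (mem_filter.1 hr).2
    · exact fun _ _ _ => Nat.cast_nonneg _
  refine h1.trans ?_
  have h2 : ∀ r ∈ range n, (alpha n r : ℝ) ≤ (n : ℝ) * ((r : ℝ) + 1)⁻¹ := by
    intro r _
    have h3 : ((n / (r + 1) : ℕ) : ℝ) ≤ (n : ℝ) / ((r + 1 : ℕ) : ℝ) := Nat.cast_div_le
    rw [alpha, ← div_eq_mul_inv]
    push_cast at h3
    exact h3
  refine (sum_le_sum h2).trans ?_
  rw [← mul_sum, ← harm_eq]
  exact mul_le_mul_of_nonneg_left (harmonic_le_one_add_log n) (Nat.cast_nonneg n)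

end Pool.Agent.EMD33
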