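import Pool.Agent.EMD33.NdSum
import Pool.Agent.EMD33.Coarea
import Pool.Agent.EMD33.Cut
import Pool.Agent.EMD33.HeavyTail

set_option autoImplicit false

namespace Pool.Agent.EMD33

open Finset

private theorem cs_int {Q : ℕ} [NeZero Q] (Z : ℤ) :
    cs Q (Z : ZMod Q) = Real.cos (2 * Real.pi * Z / Q) := by
  have hQ : (Q : ℝ) ≠ 0 := Nat.cast_ne_zero.2 (NeZero.ne Q)
  have h1 : (((Z : ZMod Q).val : ℕ) : ℤ) = Z % Q := ZMod.val_intCast Z
  have h2 : (((Z : ZMod Q).val : ℕ) : ℝ) = (Z : ℝ) - (Q : ℝ) * ((Z / (Q : ℤ) : ℤ) : ℝ) := by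
    have h3 : (((Z : ZMod Q).val : ℕ) : ℤ) = Z - Q * (Z / Q) := by rw [h1, Int.emod_def]
    exact_mod_cast h3
  rw [cs, h2]
  have h4 : 2 * Real.pi * ((Z : ℝ) - (Q : ℝ) * ((Z / (Q : ℤ) : ℤ) : ℝ)) / Q
      = 2 * Real.pi * Z / Q - ((Z / (Q : ℤ) : ℤ) : ℝ) * (2 * Real.pi) := by
    field_simp
  rw [h4, Real.cos_sub_int_mul_two_pi]

private theorem sum_cell {N : ℕ} {A : Type*} [AddCommMonoid A] (h : ℕ)
    (f : Fin N × Fin N → A) :
    ∑ a, f a = ∑ q : Fin N × Fin N, ∑ a, if cell h a = q then f a else 0 := by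
  rw [Finset.sum_comm]
  refine Finset.sum_congr rfl fun a _ => ?_
  rw [Finset.sum_ite_eq]
  simp

private theorem waveZ_sum {N : ℕ} (h : ℕ) (hh : 1 ≤ h) (hd : 2 * h ∣ N)
    (ε : Fin N × Fin N → Bool) : ∑ a, waveZ h ε a = 0 := by
  rw [sum_cell h]
  refine Finset.sum_eq_zero fun q _ => ?_
  have h1 : ∀ a, (if cell h a = q then waveZ h ε a else 0)
      = ((N / h : ℕ) : ℤ) * sg (ε q) * (if cell h a = q then sgnH h a else 0) := by
    intro a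
    split_ifs with h2
    · rw [waveZ, h2]
    · simp
  simp_rw [h1]
  rw [← Finset.mul_sum, sgn_cell_sum h hh hd q, mul_zero]

private theorem waveZ_pat {N : ℕ} (h : ℕ) (ε : Fin N × Fin N → Bool)
    (φ : Fin N × Fin N → ℝ) : ∑ a, (waveZ h ε a : ℝ) * φ a
      = ∑ q, (sg (ε q) : ℝ) * (((N / h : ℕ) : ℝ) * pat h φ q) := by
  rw [sum_cell h]
  refine Finset.sum_congr rfl fun q _ => ?_
  rw [pat, Finset.mul_sum, Finset.mul_sum]
  refine Finset.sum_congr rfl fun a _ => ?_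
  split_ifs with h2
  · rw [waveZ, h2, Int.cast_mul, Int.cast_mul, Int.cast_natCast]
    ring
  · simp

private theorem cs_wave {M N B n Q : ℕ} [NeZero M] [NeZero Q] (x : IV M N B)
    (hd : 2 * 4 ^ ((x.2.1 : ℕ) + 1) ∣ N) (ψ : Site M N → ZMod Q) (θ : Fin M → ZMod Q) :
    cs Q (∑ s, ψ s * red Q (VV n x) s) = Real.cos (∑ s : Site M N, (sg (x.2.2 s) : ℝ) *
      (2 * Real.pi / Q * (alpha n ((s.1 + x.1 : Fin M) : ℕ) : ℝ) *
        (((N / 4 ^ ((x.2.1 : ℕ) + 1) : ℕ) : ℝ) *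
          pat (4 ^ ((x.2.1 : ℕ) + 1)) (fun a => (((ψ (s.1, a) - θ s.1).val : ℕ) : ℝ)) s.2))) := by
  have h0 : ∑ s : Site M N, θ s.1 * ((VV n x s : ℤ) : ZMod Q) = 0 := by
    rw [Fintype.sum_prod_type]
    refine Finset.sum_eq_zero fun m _ => ?_
    show ∑ a : Fin N × Fin N, θ m * ((VV n x (m, a) : ℤ) : ZMod Q) = 0
    rw [← Finset.mul_sum]
    have h1 : ∑ a : Fin N × Fin N, ((VV n x (m, a) : ℤ) : ZMod Q) = 0 := by
      rw [← Int.cast_sum]
      have h2 : ∑ a : Fin N × Fin N, VV n x (m, a) = 0 := by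
        simp only [VV]
        rw [← Finset.mul_sum, waveZ_sum _ (Nat.one_le_pow _ _ (by norm_num)) hd, mul_zero]
      rw [h2, Int.cast_zero]
    rw [h1, mul_zero]
  have h1 : ∑ s, ψ s * red Q (VV n x) s
      = ((∑ s, (((ψ s - θ s.1).val : ℕ) : ℤ) * VV n x s : ℤ) : ZMod Q) := by
    rw [Int.cast_sum, ← sub_eq_zero, ← Finset.sum_sub_distrib]
    rw [← h0]
    refine Finset.sum_congr rfl fun s _ => ?_
    rw [red, Int.cast_mul, Int.cast_natCast, ZMod.natCast_zmod_val]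
    ring
  rw [h1, cs_int]
  congr 1
  rw [Int.cast_sum, Finset.mul_sum, Finset.sum_div, Fintype.sum_prod_type,
    Fintype.sum_prod_type]
  refine Finset.sum_congr rfl fun m _ => ?_
  have h3 := waveZ_pat (4 ^ ((x.2.1 : ℕ) + 1)) (fun q => x.2.2 (m, q))
    (fun a => (((ψ (m, a) - θ m).val : ℕ) : ℝ))
  calc ∑ a : Fin N × Fin N, 2 * Real.pi *
        ((((((ψ (m, a) - θ m).val : ℕ) : ℤ) * VV n x (m, a) : ℤ)) : ℝ) / Q
      = 2 * Real.pi / Q * (alpha n ((m + x.1 : Fin M) : ℕ) : ℝ) *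
        ∑ a, (waveZ (4 ^ ((x.2.1 : ℕ) + 1)) (fun q => x.2.2 (m, q)) a : ℝ) *
          (((ψ (m, a) - θ m).val : ℕ) : ℝ) := by
        rw [Finset.mul_sum]
        refine Finset.sum_congr rfl fun a _ => ?_
        simp only [VV]
        push_cast
        ring
    _ = _ := by
        rw [h3, Finset.mul_sum]
        refine Finset.sum_congr rfl fun q _ => ?_
        ring

private theorem sign_split {M : ℕ} {κ : Type*} [Fintype κ] [DecidableEq κ]
    (b : Fin M × κ → ℝ) :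
    ∑ ε : Fin M × κ → Bool, (1 - Real.cos (∑ s, (sg (ε s) : ℝ) * b s))
      ≤ 2 ^ (M * Fintype.card κ) * ∑ m, (1 - ∏ q, Real.cos (b (m, q))) := by
  rw [Finset.sum_sub_distrib, sign_prod]
  have h1 : ∑ _ε : Fin M × κ → Bool, (1 : ℝ) = 2 ^ (M * Fintype.card κ) := by
    simp
  have h2 : Fintype.card (Fin M × κ) = M * Fintype.card κ := by simp
  rw [h1, h2, ← mul_one_sub]
  refine mul_le_mul_of_nonneg_left ?_ (by positivity)
  rw [Fintype.prod_prod_type]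
  refine one_sub_prod_le _ _ fun m _ => ?_
  rw [Finset.abs_prod]
  exact Finset.prod_le_one (fun q _ => abs_nonneg _) fun q _ => Real.abs_cos_le_one _

private theorem one_sub_prod_eq {κ : Type*} [Fintype κ] [DecidableEq κ] (b : κ → ℝ) :
    1 - ∏ q, Real.cos (b q) = (1 / 2 ^ (Fintype.card κ)) *
      ∑ ε : κ → Bool, (1 - Real.cos (∑ q, (sg (ε q) : ℝ) * b q)) := by
  rw [Finset.sum_sub_distrib, sign_prod]
  have h1 : ∑ _ε : κ → Bool, (1 : ℝ) = 2 ^ (Fintype.card κ) := by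
    simp
  rw [h1, ← mul_one_sub, ← mul_assoc, one_div, inv_mul_cancel₀ (by positivity), one_mul]

private theorem shift_sum {M : ℕ} [NeZero M] (m : Fin M) (f : ℕ → ℝ) :
    ∑ τ : Fin M, f ((m + τ : Fin M) : ℕ) = ∑ r ∈ range M, f r := by
  rw [Finset.sum_range]
  exact Fintype.sum_equiv (Equiv.addLeft m) _ _ fun τ => rfl

/-- the estimate for a single copy and a single scale -/
private theorem copy_scale {M n Q : ℕ} [NeZero M] [NeZero Q] {κ : Type*} [Fintype κ]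
    [DecidableEq κ] (m : Fin M) (H : ℝ) (hH : 0 ≤ H) (p : κ → ℝ) :
    ∑ τ : Fin M, (1 - ∏ q, Real.cos (2 * Real.pi / Q *
        (alpha n ((m + τ : Fin M) : ℕ) : ℝ) * (H * p q)))
      ≤ (1 / 2 ^ (Fintype.card κ)) * (16 * Real.pi * n / Q * H) *
        ∑ ε : κ → Bool, |∑ q, (sg (ε q) : ℝ) * p q| := by
  have hQ : (0 : ℝ) < Q := Nat.cast_pos.2 (Nat.pos_of_ne_zero (NeZero.ne Q))
  simp_rw [one_sub_prod_eq]
  rw [← Finset.mul_sum, mul_assoc]
  refine mul_le_mul_of_nonneg_left ?_ (by positivity)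
  rw [Finset.sum_comm, Finset.mul_sum]
  refine Finset.sum_le_sum fun ε _ => ?_
  have h1 : ∀ τ : Fin M, ∑ q, (sg (ε q) : ℝ) * (2 * Real.pi / Q *
      (alpha n ((m + τ : Fin M) : ℕ) : ℝ) * (H * p q))
      = (alpha n ((m + τ : Fin M) : ℕ) : ℝ) * (2 * Real.pi / Q * H *
        ∑ q, (sg (ε q) : ℝ) * p q) := by
    intro τ
    rw [Finset.mul_sum, Finset.mul_sum]
    refine Finset.sum_congr rfl fun q _ => ?_
    ring
  simp_rw [h1]
  rw [shift_sum m fun r => 1 - Real.cos ((alpha n r : ℝ) * (2 * Real.pi / Q * H *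
    ∑ q, (sg (ε q) : ℝ) * p q))]
  refine (heavy_tail n M _).trans (le_of_eq ?_)
  rw [abs_mul, abs_of_nonneg (show (0 : ℝ) ≤ 2 * Real.pi / Q * H by positivity)]
  ring

/-- The waves see at most `ndSum / B`.

Proof. Choose a cut `θ m` for each copy and let `φ m a = (ψ (m,a) - θ m).val`. As each cell is
balanced (`sgn_cell_sum`), `cs (sum_s ψ s * VV s) = cos (sum_{m,q} ε (m,q) * b (m,q))` with
`b (m,q) = (2 pi / Q) * alpha n (m + τ) * (N/h) * pat h (φ m) q`; average over the signs with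
`sign_prod`, split the product over the copies with `one_sub_prod_le` (and `sign_prod` back),
sum over the shift `τ` with `heavy_tail` (`θ := (2 pi/Q) (N/h) sum_q ε_q pat h (φ m) q`), then
over the scale with `sobolev_nat` and `exists_cut`. -/
theorem wave_upper (M B n Q : ℕ) [NeZero M] [NeZero Q] (hB : 1 ≤ B)
    (ψ : Site M (4 ^ (B + 1)) → ZMod Q) :
    ∑ x : IV M (4 ^ (B + 1)) B, wV M (4 ^ (B + 1)) B x *
        (1 - cs Q (∑ s, ψ s * red Q (VV n x) s))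
      ≤ 128 * Real.pi * n * (4 : ℝ) ^ (B + 1) / ((M : ℝ) * B * Q) * ndSum ψ := by
  have hQ : (0 : ℝ) < Q := Nat.cast_pos.2 (Nat.pos_of_ne_zero (NeZero.ne Q))
  have hM : (0 : ℝ) < M := Nat.cast_pos.2 (Nat.pos_of_ne_zero (NeZero.ne M))
  have hB' : (0 : ℝ) < B := Nat.cast_pos.2 hB
  choose θ hθ using fun m : Fin M => exists_cut fun a => ψ (m, a)
  -- the values
  obtain ⟨φ, hφ⟩ : ∃ φ : Fin M → Fin (4 ^ (B + 1)) × Fin (4 ^ (B + 1)) → ℕ,
      ∀ m a, φ m a = (ψ (m, a) - θ m).val := ⟨_, fun _ _ => rfl⟩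
  have hθ' : ∀ m, tv (fun a => (φ m a : ℝ)) ≤
      2 * ∑ b : Bool, ∑ a, (nd (ψ (m, nxt b a) - ψ (m, a)) : ℝ) := by
    intro m
    have := hθ m
    simp_rw [← hφ] at this
    exact this
  have hdvd : ∀ j : Fin B, 2 * 4 ^ ((j : ℕ) + 1) ∣ 4 ^ (B + 1) := by
    intro j
    have h1 : (4 : ℕ) ^ (B + 1) = 4 ^ ((j : ℕ) + 1) * (4 * 4 ^ (B - 1 - j)) := by
      rw [← pow_succ', ← pow_add]
      congr 1
      have := j.2
      omega
    rw [h1]
    exact ⟨2 * 4 ^ (B - 1 - j), by ring⟩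
  have hdiv : ∀ j : Fin B, (((4 ^ (B + 1) / 4 ^ ((j : ℕ) + 1) : ℕ)) : ℝ)
      = (4 : ℝ) ^ (B + 1) / 4 ^ ((j : ℕ) + 1) := by
    intro j
    rw [Nat.cast_div ((Dvd.intro_left 2 rfl).trans (hdvd j)) (by positivity)]
    push_cast
    rfl
  -- the first step
  have step1 : ∑ x : IV M (4 ^ (B + 1)) B, wV M (4 ^ (B + 1)) B x *
        (1 - cs Q (∑ s, ψ s * red Q (VV n x) s))
      ≤ 1 / ((M : ℝ) * B) * ∑ τ : Fin M, ∑ j : Fin B, ∑ m : Fin M,
        (1 - ∏ q, Real.cos (2 * Real.pi / Q * (alpha n ((m + τ : Fin M) : ℕ) : ℝ) *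
          (((4 : ℝ) ^ (B + 1) / 4 ^ ((j : ℕ) + 1)) *
            pat (4 ^ ((j : ℕ) + 1)) (fun a => (φ m a : ℝ)) q))) := by
    rw [Fintype.sum_prod_type, Finset.mul_sum]
    refine Finset.sum_le_sum fun τ _ => ?_
    rw [Fintype.sum_prod_type, Finset.mul_sum]
    refine Finset.sum_le_sum fun j _ => ?_
    have h1 : ∀ ε : Site M (4 ^ (B + 1)) → Bool,
        wV M (4 ^ (B + 1)) B (τ, j, ε) * (1 - cs Q (∑ s, ψ s * red Q (VV n (τ, j, ε)) s))
        = 1 / ((M : ℝ) * B * 2 ^ (M * (4 ^ (B + 1) * 4 ^ (B + 1)))) *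
          (1 - Real.cos (∑ s : Site M (4 ^ (B + 1)), (sg (ε s) : ℝ) *
            (2 * Real.pi / Q * (alpha n ((s.1 + τ : Fin M) : ℕ) : ℝ) *
              (((4 : ℝ) ^ (B + 1) / 4 ^ ((j : ℕ) + 1)) *
                pat (4 ^ ((j : ℕ) + 1)) (fun a => (φ s.1 a : ℝ)) s.2)))) := by
      intro ε
      rw [cs_wave (τ, j, ε) (hdvd j) ψ θ, wV]
      simp only [hφ, hdiv]
    simp_rw [h1]
    rw [← Finset.mul_sum]
    have h2 := sign_split (fun s : Fin M × (Fin (4 ^ (B + 1)) × Fin (4 ^ (B + 1))) =>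
      2 * Real.pi / Q * (alpha n ((s.1 + τ : Fin M) : ℕ) : ℝ) *
              (((4 : ℝ) ^ (B + 1) / 4 ^ ((j : ℕ) + 1)) *
                pat (4 ^ ((j : ℕ) + 1)) (fun a => (φ s.1 a : ℝ)) s.2))
    have h3 : Fintype.card (Fin (4 ^ (B + 1)) × Fin (4 ^ (B + 1)))
        = 4 ^ (B + 1) * 4 ^ (B + 1) := by simp
    rw [h3] at h2
    refine (mul_le_mul_of_nonneg_left h2 (by positivity)).trans (le_of_eq ?_)
    rw [← mul_assoc]
    congr 1
    field_simp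
  refine step1.trans ?_
  -- exchange the sums
  have step2 : ∑ τ : Fin M, ∑ j : Fin B, ∑ m : Fin M,
        (1 - ∏ q, Real.cos (2 * Real.pi / Q * (alpha n ((m + τ : Fin M) : ℕ) : ℝ) *
          (((4 : ℝ) ^ (B + 1) / 4 ^ ((j : ℕ) + 1)) *
            pat (4 ^ ((j : ℕ) + 1)) (fun a => (φ m a : ℝ)) q)))
      ≤ ∑ m : Fin M, 16 * Real.pi * n * (4 : ℝ) ^ (B + 1) / Q *
          (4 * tv (fun a => (φ m a : ℝ))) := by
    rw [Finset.sum_comm]
    have h1 : ∀ j : Fin B, ∑ τ : Fin M, ∑ m : Fin M,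
        (1 - ∏ q, Real.cos (2 * Real.pi / Q * (alpha n ((m + τ : Fin M) : ℕ) : ℝ) *
          (((4 : ℝ) ^ (B + 1) / 4 ^ ((j : ℕ) + 1)) *
            pat (4 ^ ((j : ℕ) + 1)) (fun a => (φ m a : ℝ)) q)))
        ≤ ∑ m : Fin M, 1 / 2 ^ (4 ^ (B + 1) * 4 ^ (B + 1)) *
          (16 * Real.pi * n / Q * ((4 : ℝ) ^ (B + 1) / 4 ^ ((j : ℕ) + 1))) *
            ∑ ε : Fin (4 ^ (B + 1)) × Fin (4 ^ (B + 1)) → Bool,
              |∑ q, (sg (ε q) : ℝ) * pat (4 ^ ((j : ℕ) + 1)) (fun a => (φ m a : ℝ)) q| := by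
      intro j
      rw [Finset.sum_comm]
      refine Finset.sum_le_sum fun m _ => ?_
      have h2 := copy_scale (n := n) (Q := Q) m ((4 : ℝ) ^ (B + 1) / 4 ^ ((j : ℕ) + 1))
        (by positivity) (pat (4 ^ ((j : ℕ) + 1)) (fun a => (φ m a : ℝ)))
      have h3 : Fintype.card (Fin (4 ^ (B + 1)) × Fin (4 ^ (B + 1)))
        = 4 ^ (B + 1) * 4 ^ (B + 1) := by simp
      rw [h3] at h2
      exact h2
    refine (Finset.sum_le_sum fun j _ => h1 j).trans ?_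
    rw [Finset.sum_comm]
    refine Finset.sum_le_sum fun m _ => ?_
    have h4 := sobolev_nat B (φ m)
    rw [Finset.sum_range] at h4
    have h5 : ∀ j : Fin B, 1 / 2 ^ (4 ^ (B + 1) * 4 ^ (B + 1)) *
          (16 * Real.pi * n / Q * ((4 : ℝ) ^ (B + 1) / 4 ^ ((j : ℕ) + 1))) *
            ∑ ε : Fin (4 ^ (B + 1)) × Fin (4 ^ (B + 1)) → Bool,
              |∑ q, (sg (ε q) : ℝ) * pat (4 ^ ((j : ℕ) + 1)) (fun a => (φ m a : ℝ)) q|
        = 1 / 2 ^ (4 ^ (B + 1) * 4 ^ (B + 1)) * (16 * Real.pi * n * (4 : ℝ) ^ (B + 1) / Q) *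
          ((1 / (4 : ℝ) ^ ((j : ℕ) + 1)) *
            ∑ ε : Fin (4 ^ (B + 1)) × Fin (4 ^ (B + 1)) → Bool,
              |∑ q, (sg (ε q) : ℝ) * pat (4 ^ ((j : ℕ) + 1)) (fun a => (φ m a : ℝ)) q|) := by
      intro j
      ring
    simp_rw [h5]
    rw [← Finset.mul_sum]
    refine (mul_le_mul_of_nonneg_left h4 (by positivity)).trans (le_of_eq ?_)
    have h6 : (2 : ℝ) ^ (4 ^ (B + 1) * 4 ^ (B + 1)) ≠ 0 := by positivity
    generalize (2 : ℝ) ^ (4 ^ (B + 1) * 4 ^ (B + 1)) = W at h6 ⊢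
    field_simp
  refine (mul_le_mul_of_nonneg_left step2 (by positivity)).trans ?_
  rw [← Finset.mul_sum, ← Finset.mul_sum]
  have step3 : ∑ m : Fin M, tv (fun a => (φ m a : ℝ)) ≤ 2 * ndSum ψ := by
    refine (Finset.sum_le_sum fun m _ => hθ' m).trans (le_of_eq ?_)
    rw [← Finset.mul_sum, ndSum, Fintype.sum_prod_type]
    congr 1
    refine Finset.sum_congr rfl fun m _ => ?_
    rw [Fintype.sum_prod_type]
  calc 1 / ((M : ℝ) * B) * (16 * Real.pi * n * (4 : ℝ) ^ (B + 1) / Q *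
        (4 * ∑ m : Fin M, tv (fun a => (φ m a : ℝ))))
      ≤ 1 / ((M : ℝ) * B) * (16 * Real.pi * n * (4 : ℝ) ^ (B + 1) / Q *
        (4 * (2 * ndSum ψ))) := by gcongr
    _ = 128 * Real.pi * n * (4 : ℝ) ^ (B + 1) / ((M : ℝ) * B * Q) * ndSum ψ := by
        field_simp
        ring

end Pool.Agent.EMD33
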