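import Pool.Agent.EMD33.StepLower
import Pool.Agent.EMD33.WaveUpper
import Pool.Agent.EMD33.Fourier

set_option autoImplicit false

namespace Pool.Agent.EMD33

open Finset

/-- Far perturbations against steps. -/
theorem compare (M B n T : ℕ) [NeZero M] (hB : 1 ≤ B)
    (F : (Site M (4 ^ (B + 1)) → ZMod (2 ^ T)) → ℝ) :
    ∑ z, ∑ x : IV M (4 ^ (B + 1)) B, wV M (4 ^ (B + 1)) B x *
        (F z - F (z + red (2 ^ T) (VV n x))) ^ 2
      ≤ 512 * Real.pi * n * ((4 : ℝ) ^ (B + 1)) ^ 3 / B *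
        ∑ z, ∑ x : IU M (4 ^ (B + 1)) T, wU M (4 ^ (B + 1)) T x *
          (F z - F (z + red (2 ^ T) (VU x))) ^ 2 := by
  refine fourier_comparison (2 ^ T) (wU M (4 ^ (B + 1)) T) (fun x => red (2 ^ T) (VU x))
    (wV M (4 ^ (B + 1)) B) (fun x => red (2 ^ T) (VV n x)) _ (fun ψ => ?_) F
  have hM : 1 ≤ M := Nat.one_le_iff_ne_zero.mpr (NeZero.ne M)
  have hM' : (0 : ℝ) < M := by exact_mod_cast hM
  have hB' : (0 : ℝ) < B := by exact_mod_cast hB
  have h1 := wave_upper M B n (2 ^ T) hB ψ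
  have h2 := step_lower M (4 ^ (B + 1)) T hM (Nat.one_le_pow _ _ (by norm_num)) ψ
  refine h1.trans ?_
  have hC : (0 : ℝ) ≤ 512 * Real.pi * n * ((4 : ℝ) ^ (B + 1)) ^ 3 / B := by positivity
  refine le_trans (le_of_eq ?_) (mul_le_mul_of_nonneg_left h2 hC)
  push_cast
  field_simp
  ring

end Pool.Agent.EMD33
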