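import Pool.Agent.EMD33.Defs

set_option autoImplicit false

namespace Pool.Agent.EMD33

open Finset

section
variable {G ι : Type*} [AddCommGroup G] [Fintype G] [Fintype ι]

private theorem sum_shift (f : G → ℝ) (u : G) : ∑ z, f (z + u) = ∑ z, f z :=
  Equiv.sum_comp (Equiv.addRight u) f

private theorem step_succ (w : ι → ℝ) (v : ι → G) (t : ℕ) (f : G → ℝ) (z : G) :
    (step w v)^[t + 1] f z
      = (1 - ∑ i, w i) * (step w v)^[t] f z + ∑ i, w i * (step w v)^[t] f (z + v i) := by
  rw [Function.iterate_succ_apply']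
  rfl

theorem step_sum (w : ι → ℝ) (v : ι → G) (f : G → ℝ) : ∑ z, step w v f z = ∑ z, f z := by
  unfold step
  rw [sum_add_distrib, ← mul_sum, sum_comm]
  have h : ∀ i, ∑ z, w i * f (z + v i) = w i * ∑ z, f z := by
    intro i
    rw [← mul_sum, sum_shift]
  simp only [h]
  rw [← sum_mul]
  ring

theorem step_mono (w : ι → ℝ) (v : ι → G) (hw : ∀ i, 0 ≤ w i) (hs : ∑ i, w i ≤ 1)
    (t : ℕ) {f f' : G → ℝ} (h : ∀ z, f z ≤ f' z) (z : G) :
    (step w v)^[t] f z ≤ (step w v)^[t] f' z := by
  induction t generalizing z with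
  | zero => exact h z
  | succ t ih =>
    rw [step_succ, step_succ]
    refine add_le_add (mul_le_mul_of_nonneg_left (ih z) (by linarith)) ?_
    exact sum_le_sum fun i _ => mul_le_mul_of_nonneg_left (ih _) (hw i)

theorem step_add (w : ι → ℝ) (v : ι → G) (t : ℕ) (f f' : G → ℝ) (z : G) :
    (step w v)^[t] (fun x => f x + f' x) z = (step w v)^[t] f z + (step w v)^[t] f' z := by
  induction t generalizing z with
  | zero => rfl
  | succ t ih =>
    rw [step_succ, step_succ, step_succ]
    simp only [ih, mul_add, sum_add_distrib]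
    ring

theorem step_const_mul (w : ι → ℝ) (v : ι → G) (t : ℕ) (c : ℝ) (f : G → ℝ) (z : G) :
    (step w v)^[t] (fun x => c * f x) z = c * (step w v)^[t] f z := by
  induction t generalizing z with
  | zero => rfl
  | succ t ih =>
    rw [step_succ, step_succ]
    simp only [ih]
    rw [mul_add, mul_sum]
    congr 1
    · ring
    · exact sum_congr rfl fun i _ => by ring

theorem step_const (w : ι → ℝ) (v : ι → G) (t : ℕ) (c : ℝ) (z : G) :
    (step w v)^[t] (fun _ => c) z = c := by
  induction t generalizing z with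
  | zero => rfl
  | succ t ih =>
    rw [step_succ]
    simp only [ih]
    rw [← sum_mul]
    ring

theorem step_sum_fun {α : Type*} (w : ι → ℝ) (v : ι → G) (t : ℕ) (s : Finset α)
    (f : α → G → ℝ) (z : G) :
    (step w v)^[t] (fun x => ∑ a ∈ s, f a x) z = ∑ a ∈ s, (step w v)^[t] (f a) z := by
  classical
  induction s using Finset.induction_on with
  | empty =>
    simp only [sum_empty]
    exact step_const w v t 0 z
  | insert a s ha ih =>
    simp only [sum_insert ha]
    rw [step_add, ih]

theorem step_iter_sum (w : ι → ℝ) (v : ι → G) (t : ℕ) (f : G → ℝ) :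
    ∑ z, (step w v)^[t] f z = ∑ z, f z := by
  induction t with
  | zero => rfl
  | succ t ih =>
    rw [Function.iterate_succ_apply', step_sum, ih]

/-- The expected distance grows at most linearly along the walk. -/
theorem walk_bound (w : ι → ℝ) (v : ι → G) (hw : ∀ i, 0 ≤ w i) (hs : ∑ i, w i ≤ 1)
    (D : G → G → ℝ) (h0 : ∀ x, D x x = 0) (htri : ∀ x y z, D x z ≤ D x y + D y z) (t : ℕ) :
    ∑ z, (step w v)^[t] (fun x => D x z) z ≤ t * ∑ z, ∑ i, w i * D (z + v i) z := by
  induction t with
  | zero => simp [h0]
  | succ t ih =>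
    have key : ∀ z i, (step w v)^[t] (fun x => D x z) (z + v i)
        ≤ (step w v)^[t] (fun x => D x (z + v i)) (z + v i) + D (z + v i) z := by
      intro z i
      have h1 := step_mono w v hw hs t (f := fun x => D x z)
        (f' := fun x => D x (z + v i) + D (z + v i) z) (fun x => htri x (z + v i) z) (z + v i)
      rw [step_add w v t (fun x => D x (z + v i)) (fun _ => D (z + v i) z), step_const] at h1
      exact h1
    have h2 : ∑ z, (step w v)^[t + 1] (fun x => D x z) z
        ≤ ∑ z, ((1 - ∑ i, w i) * (step w v)^[t] (fun x => D x z) z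
          + (∑ i, w i * (step w v)^[t] (fun x => D x (z + v i)) (z + v i)
            + ∑ i, w i * D (z + v i) z)) := by
      refine sum_le_sum fun z _ => ?_
      rw [step_succ, ← sum_add_distrib]
      refine add_le_add le_rfl (sum_le_sum fun i _ => ?_)
      rw [← mul_add]
      exact mul_le_mul_of_nonneg_left (key z i) (hw i)
    have h3 : ∑ z, ((1 - ∑ i, w i) * (step w v)^[t] (fun x => D x z) z
          + (∑ i, w i * (step w v)^[t] (fun x => D x (z + v i)) (z + v i)
            + ∑ i, w i * D (z + v i) z))
        = ∑ z, (step w v)^[t] (fun x => D x z) z + ∑ z, ∑ i, w i * D (z + v i) z := by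
      rw [sum_add_distrib, sum_add_distrib, ← mul_sum]
      have h4 : ∑ z, ∑ i, w i * (step w v)^[t] (fun x => D x (z + v i)) (z + v i)
          = (∑ i, w i) * ∑ z, (step w v)^[t] (fun x => D x z) z := by
        rw [sum_comm, sum_mul]
        refine sum_congr rfl fun i _ => ?_
        rw [← mul_sum, sum_shift (fun z => (step w v)^[t] (fun x => D x z) z)]
      rw [h4]
      ring
    rw [h3] at h2
    push_cast
    linarith

end

end Pool.Agent.EMD33
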