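import Pool.Agent.EMD33.Entropy
import Pool.Agent.EMD33.Walk

set_option autoImplicit false

namespace Pool.Agent.EMD33

open Finset

/-- A test distinguishes two probability vectors only as far as their square roots differ:
`|p - q| = |sqrt p - sqrt q| (sqrt p + sqrt q) <= 8 (sqrt p - sqrt q)^2 + (sqrt p + sqrt q)^2/32`
and `(sqrt p + sqrt q)^2 <= 2 (p + q)`. -/
theorem advantage_le {Msg : Type*} [Fintype Msg] (p q τ : Msg → ℝ)
    (hp : ∀ m, 0 ≤ p m) (hq : ∀ m, 0 ≤ q m) (hp1 : ∑ m, p m = 1) (hq1 : ∑ m, q m = 1)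
    (h0 : ∀ m, 0 ≤ τ m) (h1 : ∀ m, τ m ≤ 1) :
    ∑ m, p m * τ m - ∑ m, q m * τ m
      ≤ 8 * ∑ m, (Real.sqrt (p m) - Real.sqrt (q m)) ^ 2 + 1 / 8 := by
  have key : ∀ m, p m * τ m - q m * τ m
      ≤ 8 * (Real.sqrt (p m) - Real.sqrt (q m)) ^ 2 + (p m + q m) / 16 := by
    intro m
    obtain ⟨a, ha⟩ : ∃ a, a = Real.sqrt (p m) := ⟨_, rfl⟩
    obtain ⟨b, hb⟩ : ∃ b, b = Real.sqrt (q m) := ⟨_, rfl⟩
    have ha0 : 0 ≤ a := by rw [ha]; exact Real.sqrt_nonneg _
    have hb0 : 0 ≤ b := by rw [hb]; exact Real.sqrt_nonneg _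
    have hpa : p m = a ^ 2 := by rw [ha, Real.sq_sqrt (hp m)]
    have hqb : q m = b ^ 2 := by rw [hb, Real.sq_sqrt (hq m)]
    rw [← ha, ← hb, hpa, hqb]
    have h2 := h0 m
    have h3 := h1 m
    have h4 : a ^ 2 * τ m - b ^ 2 * τ m = (a - b) * (a + b) * τ m := by ring
    have h5 : (a - b) * (a + b) * τ m ≤ |(a - b) * (a + b)| := by
      refine (le_abs_self _).trans ?_
      rw [abs_mul, abs_of_nonneg h2]
      exact mul_le_of_le_one_right (abs_nonneg _) h3
    have h6 : |(a - b) * (a + b)| ≤ 8 * (a - b) ^ 2 + (a + b) ^ 2 / 32 := by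
      rw [abs_le]
      constructor
      · nlinarith [sq_nonneg (16 * (a - b) + (a + b))]
      · nlinarith [sq_nonneg (16 * (a - b) - (a + b))]
    have h7 : (a + b) ^ 2 / 32 ≤ (a ^ 2 + b ^ 2) / 16 := by
      nlinarith [sq_nonneg (a - b)]
    rw [h4]
    linarith
  have h2 := sum_le_sum (fun m (_ : m ∈ (univ : Finset Msg)) => key m)
  rw [sum_sub_distrib, sum_add_distrib, ← mul_sum, ← sum_div, sum_add_distrib, hp1, hq1] at h2
  linarith

/-- Deterministic core inequality. -/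
theorem core {G ι κ Msg : Type*} [AddCommGroup G] [Fintype G] [Fintype ι] [Fintype κ]
    [Fintype Msg] [DecidableEq Msg] [Nonempty Msg]
    (w : ι → ℝ) (v : ι → G) (hw : ∀ i, 0 ≤ w i) (hs : ∑ i, w i ≤ 1 / 2)
    (w' : ℕ → κ → ℝ) (v' : ℕ → κ → G) (hw' : ∀ t k, 0 ≤ w' t k) (hs' : ∀ t, ∑ k, w' t k = 1)
    (cc : ℕ → ℝ) (I : Finset ℕ) (hcc : ∀ t ∈ I, 0 < cc t)
    (hcomp : ∀ t ∈ I, ∀ F : G → ℝ, ∑ z, ∑ k, w' t k * (F z - F (z + v' t k)) ^ 2
        ≤ cc t * ∑ z, ∑ i, w i * (F z - F (z + v i)) ^ 2)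
    (f : G → Msg) (test : ℕ → Msg → G → ℝ)
    (h0 : ∀ t m z, 0 ≤ test t m z) (h1 : ∀ t m z, test t m z ≤ 1) :
    ∑ t ∈ I, (1 / cc t) *
      (∑ z, (step w v)^[t] (fun x => test t (f x) z) z
        - ∑ z, ∑ k, w' t k * (step w v)^[t] (fun x => test t (f x) z) (z + v' t k)
        - (Fintype.card G : ℝ) / 8)
      ≤ 32 * (Fintype.card G : ℝ) * Real.log (Fintype.card Msg) := by
  classical
  have hs1 : ∑ i, w i ≤ 1 := by linarith
  -- the message probabilities
  obtain ⟨P, hP⟩ : ∃ P : ℕ → Msg → G → ℝ,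
      P = fun t m => (step w v)^[t] (fun x => if f x = m then 1 else 0) := ⟨_, rfl⟩
  have hP0 : ∀ t m z, 0 ≤ P t m z := by
    intro t m z
    rw [hP]
    have h := step_mono w v hw hs1 t (f := fun _ => 0) (f' := fun x => if f x = m then 1 else 0)
      (fun z => by split_ifs <;> norm_num) z
    rw [step_const] at h
    exact h
  have hP1 : ∀ t z, ∑ m, P t m z = 1 := by
    intro t z
    rw [hP]
    have h := step_sum_fun w v t (univ : Finset Msg) (fun m x => if f x = m then (1 : ℝ) else 0) z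
    rw [← h]
    have h2 : (fun x : G => ∑ m ∈ (univ : Finset Msg), if f x = m then (1 : ℝ) else 0) = fun _ => 1 := by
      funext x
      rw [sum_ite_eq]
      simp
    rw [h2, step_const]
  have hlin : ∀ t z z', (step w v)^[t] (fun x => test t (f x) z) z' = ∑ m, P t m z' * test t m z := by
    intro t z z'
    have h2 : (fun x : G => test t (f x) z)
        = fun x => ∑ m ∈ (univ : Finset Msg), test t m z * (if f x = m then (1 : ℝ) else 0) := by
      funext x
      simp
    rw [h2, step_sum_fun w v t (univ : Finset Msg)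
      (fun m x => test t m z * (if f x = m then (1 : ℝ) else 0)) z']
    refine sum_congr rfl fun m _ => ?_
    rw [step_const_mul, hP, mul_comm]
  -- one time step
  have hone : ∀ t ∈ I, (1 / cc t) *
      (∑ z, (step w v)^[t] (fun x => test t (f x) z) z
        - ∑ z, ∑ k, w' t k * (step w v)^[t] (fun x => test t (f x) z) (z + v' t k)
        - (Fintype.card G : ℝ) / 8)
      ≤ 8 * ∑ m : Msg, ∑ z : G, ∑ i, w i *
        (Real.sqrt (P t m z) - Real.sqrt (P t m (z + v i))) ^ 2 := by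
    intro t ht
    have hcct := hcc t ht
    rw [one_div, inv_mul_le_iff₀ hcct]
    simp only [hlin]
    have hA : ∀ z, ∑ m, P t m z * test t m z
        - ∑ k, w' t k * ∑ m, P t m (z + v' t k) * test t m z
        ≤ ∑ k, w' t k * (8 * ∑ m, (Real.sqrt (P t m z) - Real.sqrt (P t m (z + v' t k))) ^ 2) + 1 / 8 := by
      intro z
      have e1 : ∑ m, P t m z * test t m z = ∑ k, w' t k * ∑ m, P t m z * test t m z := by
        rw [← sum_mul, hs', one_mul]
      have e2 : (1 : ℝ) / 8 = ∑ k, w' t k * (1 / 8) := by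
        rw [← sum_mul, hs', one_mul]
      rw [e1, e2, ← sum_sub_distrib, ← sum_add_distrib]
      refine sum_le_sum fun k _ => ?_
      rw [← mul_sub, ← mul_add]
      apply mul_le_mul_of_nonneg_left _ (hw' t k)
      exact advantage_le (fun m => P t m z) (fun m => P t m (z + v' t k)) (fun m => test t m z)
        (fun m => hP0 t m z) (fun m => hP0 t m _) (hP1 t z) (hP1 t _)
        (fun m => h0 t m z) (fun m => h1 t m z)
    have hB := sum_le_sum (fun z (_ : z ∈ (univ : Finset G)) => hA z)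
    rw [sum_sub_distrib, sum_add_distrib, sum_const, card_univ, nsmul_eq_mul] at hB
    have hC : ∑ z, ∑ k, w' t k * (8 * ∑ m, (Real.sqrt (P t m z) - Real.sqrt (P t m (z + v' t k))) ^ 2)
        = 8 * ∑ m, ∑ z, ∑ k, w' t k * (Real.sqrt (P t m z) - Real.sqrt (P t m (z + v' t k))) ^ 2 := by
      symm
      simp only [mul_sum]
      rw [sum_comm]
      refine sum_congr rfl fun z _ => ?_
      rw [sum_comm]
      refine sum_congr rfl fun k _ => ?_
      refine sum_congr rfl fun m _ => ?_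
      ring
    have hD : ∀ m, ∑ z, ∑ k, w' t k * (Real.sqrt (P t m z) - Real.sqrt (P t m (z + v' t k))) ^ 2
        ≤ cc t * ∑ z, ∑ i, w i * (Real.sqrt (P t m z) - Real.sqrt (P t m (z + v i))) ^ 2 :=
      fun m => hcomp t ht (fun z => Real.sqrt (P t m z))
    have hE := sum_le_sum (fun m (_ : m ∈ (univ : Finset Msg)) => hD m)
    rw [← mul_sum] at hE
    rw [hC] at hB
    linarith
  refine (sum_le_sum hone).trans ?_
  rw [← mul_sum]
  have hJ : I ⊆ range (I.sup id + 1) := by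
    intro t ht
    rw [mem_range]
    have := Finset.le_sup (f := id) ht
    simp only [id] at this
    omega
  have hF : ∑ t ∈ I, ∑ m : Msg, ∑ z : G, ∑ i, w i *
        (Real.sqrt (P t m z) - Real.sqrt (P t m (z + v i))) ^ 2
      ≤ ∑ t ∈ range (I.sup id + 1), ∑ m : Msg, ∑ z : G, ∑ i, w i *
        (Real.sqrt (P t m z) - Real.sqrt (P t m (z + v i))) ^ 2 := by
    apply sum_le_sum_of_subset_of_nonneg hJ
    intro t _ _
    refine sum_nonneg fun m _ => sum_nonneg fun z _ => sum_nonneg fun i _ => ?_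
    exact mul_nonneg (hw i) (sq_nonneg _)
  have hG := entropy_bound w v hw hs f (I.sup id + 1)
  rw [hP] at hF ⊢
  linarith

end Pool.Agent.EMD33
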