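import Mathlib

/-!
# Planar EMD sketches: definitions

Lower bound `c * s >= kappa * (log n)^2` for one-way protocols / sketches that approximate
the planar earth mover distance on `[n]^2` within the factor `c`.

Random walk on the finite group `Site M N -> ZMod Q` (site masses); one step moves a heavy
tailed amount of mass along one random edge of one of the `M` copies of the `N x N` grid.
-/

set_option autoImplicit false

namespace Pool.Agent.EMD33

open Finset

/-- One lazy step: with probability `w i` add `v i`, otherwise stay. -/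
noncomputable def step {G ι : Type*} [Add G] [Fintype ι] (w : ι → ℝ) (v : ι → G)
    (f : G → ℝ) : G → ℝ :=
  fun z => (1 - ∑ i, w i) * f z + ∑ i, w i * f (z + v i)

/-- `cos (2 pi t / Q)` for a residue `t` mod `Q`. -/
noncomputable def cs (Q : ℕ) (t : ZMod Q) : ℝ := Real.cos (2 * Real.pi * (t.val : ℝ) / Q)

/-- circular distance of a residue to `0`. -/
def nd {Q : ℕ} (t : ZMod Q) : ℕ := min t.val (Q - t.val)

/-- neighbour in direction `b` (the point itself on the boundary). -/
def nxt {N : ℕ} (b : Bool) (a : Fin N × Fin N) : Fin N × Fin N :=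
  if b then (⟨min (a.1.1 + 1) (N - 1), by have := a.1.2; omega⟩, a.2)
  else (a.1, ⟨min (a.2.1 + 1) (N - 1), by have := a.2.2; omega⟩)

/-- discrete total variation on the `N x N` grid. -/
noncomputable def tv {N : ℕ} (φ : Fin N × Fin N → ℝ) : ℝ :=
  ∑ b : Bool, ∑ a : Fin N × Fin N, |φ (nxt b a) - φ a|

/-- the cell (two horizontally adjacent `h x h` squares) that contains `a`. -/
def cell {N : ℕ} (h : ℕ) (a : Fin N × Fin N) : Fin N × Fin N :=
  (⟨a.1.1 / (2 * h), lt_of_le_of_lt (Nat.div_le_self _ _) a.1.2⟩,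
   ⟨a.2.1 / h, lt_of_le_of_lt (Nat.div_le_self _ _) a.2.2⟩)

/-- `+1` on the left square of a cell and `-1` on the right square. -/
def sgnH {N : ℕ} (h : ℕ) (a : Fin N × Fin N) : ℤ := if (a.1.1 / h) % 2 = 0 then 1 else -1

/-- sign of a Boolean. -/
def sg (b : Bool) : ℤ := if b then 1 else -1

/-- left mass minus right mass of `φ` in the cell `q`. -/
noncomputable def pat {N : ℕ} (h : ℕ) (φ : Fin N × Fin N → ℝ) (q : Fin N × Fin N) : ℝ :=
  ∑ a : Fin N × Fin N, if cell h a = q then (sgnH h a : ℝ) * φ a else 0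

/-- the wave with random signs `ε` on the cells of size `h`. -/
def waveZ {N : ℕ} (h : ℕ) (ε : Fin N × Fin N → Bool) (a : Fin N × Fin N) : ℤ :=
  ((N / h : ℕ) : ℤ) * sg (ε (cell h a)) * sgnH h a

/-- sites: `M` copies of the `N x N` grid. -/
abbrev Site (M N : ℕ) := Fin M × Fin N × Fin N

/-- unit dipole along the edge `e`. -/
def dip {M N : ℕ} (e : Fin M × Bool × Fin N × Fin N) (s : Site M N) : ℤ :=
  (if s = (e.1, nxt e.2.1 e.2.2) then 1 else 0) - (if s = (e.1, e.2.2) then 1 else 0)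

/-- index type of the steps of the walk. -/
abbrev IU (M N T : ℕ) := (Fin M × Bool × Fin N × Fin N) × Fin T

/-- weights of the steps. -/
noncomputable def wU (M N T : ℕ) (x : IU M N T) : ℝ :=
  (1 / 2) * (1 / (2 * (M : ℝ) * (N : ℝ) ^ 2)) * (1 / 2) ^ ((x.2 : ℕ) + 1)

/-- integer vectors of the steps. -/
def VU {M N T : ℕ} (x : IU M N T) (s : Site M N) : ℤ := 2 ^ (x.2 : ℕ) * dip x.1 s

/-- heavy tailed amplitudes. -/
def alpha (n r : ℕ) : ℕ := n / (r + 1)

/-- index type of the far perturbations: shift, scale, signs. -/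
abbrev IV (M N B : ℕ) := Fin M × Fin B × (Site M N → Bool)

/-- weights of the far perturbations (uniform). -/
noncomputable def wV (M N B : ℕ) (_x : IV M N B) : ℝ :=
  1 / ((M : ℝ) * (B : ℝ) * 2 ^ (M * (N * N)))

/-- integer vectors of the far perturbations. -/
def VV {M N B : ℕ} (n : ℕ) (x : IV M N B) (s : Site M N) : ℤ :=
  (alpha n ((s.1 + x.1 : Fin M) : ℕ) : ℤ) *
    waveZ (4 ^ ((x.2.1 : ℕ) + 1)) (fun q => x.2.2 (s.1, q)) s.2

/-- reduction mod `Q` of an integer vector. -/
def red {S : Type*} (Q : ℕ) (V : S → ℤ) : S → ZMod Q := fun s => ((V s : ℤ) : ZMod Q)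

/-- `z + V` has no wrap-around. -/
def Safe {S : Type*} {Q : ℕ} (z : S → ZMod Q) (V : S → ℤ) : Prop :=
  ∀ s, 0 ≤ ((z s).val : ℤ) + V s ∧ ((z s).val : ℤ) + V s < Q

/-- the `l^1` distance on the grid. -/
noncomputable def dist1 {g : ℕ} (p q : Fin g × Fin g) : ℝ :=
  |((p.1 : ℕ) : ℝ) - ((q.1 : ℕ) : ℝ)| + |((p.2 : ℕ) : ℝ) - ((q.2 : ℕ) : ℝ)|

/-- the cost of a bijection. -/
noncomputable def cost {g : ℕ} {A B : Finset (Fin g × Fin g)} (π : ↥A ≃ ↥B) : ℝ :=
  ∑ a : ↥A, dist1 a.1 (π a).1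

/-- truncated and rescaled earth mover distance (value `1` for sets of different size). -/
noncomputable def trunc {g : ℕ} (Λ : ℝ) (A B : Finset (Fin g × Fin g)) : ℝ :=
  open Classical in
  if Nonempty (↥A ≃ ↥B) then min 1 ((⨅ π : ↥A ≃ ↥B, cost π) / Λ) else 1

/-- `EMD(A,B) <= Λ`. -/
def Near {g : ℕ} (Λ : ℝ) (A B : Finset (Fin g × Fin g)) : Prop := ∃ π : ↥A ≃ ↥B, cost π ≤ Λ

/-- `EMD(A,B) > Λ`, for sets of the same size. -/
def Far {g : ℕ} (Λ : ℝ) (A B : Finset (Fin g × Fin g)) : Prop :=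
  A.card = B.card ∧ ∀ π : ↥A ≃ ↥B, Λ < cost π

/-- the grid point number `u` of the block of the site `s`. -/
def pl {M N K g : ℕ} (hg : 2 * K * (M * N) ≤ g) (q : Site M N × Fin K × Fin K) :
    Fin g × Fin g :=
  (⟨2 * K * (q.1.1 * N + q.1.2.1) + q.2.1, by
      obtain ⟨⟨m, a, b⟩, u, v⟩ := q
      have hm := m.2
      have ha := a.2
      have hu := u.2
      have h1 : (m : ℕ) * N + a + 1 ≤ M * N := by
        calc (m : ℕ) * N + a + 1 ≤ m * N + N := by omega
          _ = (m + 1) * N := by ring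
          _ ≤ M * N := Nat.mul_le_mul_right _ hm
      have h2 : 2 * K * ((m : ℕ) * N + a + 1) ≤ g := le_trans (Nat.mul_le_mul_left _ h1) hg
      have h3 : 2 * K * ((m : ℕ) * N + a + 1) = 2 * K * (m * N + a) + 2 * K := by ring
      show 2 * K * ((m : ℕ) * N + a) + u < g
      omega⟩,
   ⟨2 * K * q.1.2.2 + q.2.2, by
      obtain ⟨⟨m, a, b⟩, u, v⟩ := q
      have hm := m.2
      have hb := b.2
      have hv := v.2
      have h1 : (b : ℕ) + 1 ≤ M * N := by
        calc (b : ℕ) + 1 ≤ N := hb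
          _ = 1 * N := by ring
          _ ≤ M * N := Nat.mul_le_mul_right _ (by omega)
      have h2 : 2 * K * ((b : ℕ) + 1) ≤ g := le_trans (Nat.mul_le_mul_left _ h1) hg
      have h3 : 2 * K * ((b : ℕ) + 1) = 2 * K * b + 2 * K := by ring
      show 2 * K * (b : ℕ) + v < g
      omega⟩)

/-- the point set that encodes the masses `x`. -/
noncomputable def enc {M N K g Q : ℕ} (hg : 2 * K * (M * N) ≤ g) (x : Site M N → ZMod Q) :
    Finset (Fin g × Fin g) :=
  open Classical in
  (Finset.univ.filter (fun q : Site M N × Fin K × Fin K =>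
    (q.2.1 : ℕ) * K + q.2.2 < (x q.1).val)).image (pl hg)

end Pool.Agent.EMD33
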