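import Pool.Agent.EMD33.Defs

set_option autoImplicit false

namespace Pool.Agent.EMD33

open Finset

private theorem cs_nat_dp {Q : ℕ} (hQ : Q ≠ 0) (n : ℕ) :
    cs Q (n : ZMod Q) = Real.cos (2 * Real.pi * (n : ℝ) / Q) := by
  unfold cs
  rw [ZMod.val_natCast]
  have hQ' : (Q : ℝ) ≠ 0 := Nat.cast_ne_zero.2 hQ
  have h1 : (n : ℝ) = ((n % Q : ℕ) : ℝ) + (Q : ℝ) * ((n / Q : ℕ) : ℝ) := by
    exact_mod_cast (Nat.mod_add_div n Q).symm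
  have h2 : 2 * Real.pi * (n : ℝ) / Q =
      2 * Real.pi * ((n % Q : ℕ) : ℝ) / Q + ((n / Q : ℕ) : ℝ) * (2 * Real.pi) := by
    conv_lhs => rw [h1]
    field_simp
  rw [h2, Real.cos_add_nat_mul_two_pi]

private theorem cs_le_one_dp (Q : ℕ) (t : ZMod Q) : cs Q t ≤ 1 := Real.cos_le_one _

/-- Heavy tailed dipoles see the circular distance.

Proof. `D = 0` is trivial. Else let `d = nd D`, `1 <= d <= 2^T/2`; choose `i < T` with
`2^T/4 <= 2^i * d <= 2^T/2`; then `cs (2^i D) = cos (2 pi 2^i d / 2^T) <= 0`, so the `i`-th term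
is at least `(1/2)^(i+1) >= d / 2^T`, all terms are nonnegative. -/
theorem dipole_lower (T : ℕ) (D : ZMod (2 ^ T)) :
    (nd D : ℝ) / 2 ^ T ≤
      ∑ i ∈ range T, (1 / 2 : ℝ) ^ (i + 1) * (1 - cs (2 ^ T) ((2 : ZMod (2 ^ T)) ^ i * D)) := by
  have hnn : ∀ i ∈ range T,
      0 ≤ (1 / 2 : ℝ) ^ (i + 1) * (1 - cs (2 ^ T) ((2 : ZMod (2 ^ T)) ^ i * D)) := by
    intro i _
    have := cs_le_one_dp (2 ^ T) ((2 : ZMod (2 ^ T)) ^ i * D)
    apply mul_nonneg (by positivity)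
    linarith
  rcases Nat.eq_zero_or_pos (nd D) with h0 | hpos
  · rw [h0]
    simpa using sum_nonneg hnn
  have hQ : (2 ^ T : ℕ) ≠ 0 := by positivity
  have hQ0 : 0 < (2 ^ T : ℕ) := Nat.pos_of_ne_zero hQ
  haveI : NeZero (2 ^ T : ℕ) := ⟨hQ⟩
  obtain ⟨d, hd⟩ : ∃ d, d = nd D := ⟨_, rfl⟩
  have hval : D.val < 2 ^ T := ZMod.val_lt D
  have h2d : 2 * d ≤ 2 ^ T := by
    rw [hd, nd]
    omega
  have hcase : D.val = d ∨ D.val = 2 ^ T - d := by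
    rw [hd, nd]
    omega
  have hd0 : 1 ≤ d := by omega
  -- the scale
  obtain ⟨i, hi1, hi2⟩ : ∃ i, 2 ^ (i + 1) * d ≤ 2 ^ T ∧ 2 ^ T < 2 ^ (i + 2) * d := by
    have hex : ∃ i, 2 ^ T < 2 ^ (i + 1) * d := by
      refine ⟨T, ?_⟩
      calc 2 ^ T < 2 ^ (T + 1) := Nat.pow_lt_pow_right (by norm_num) (by omega)
        _ ≤ 2 ^ (T + 1) * d := Nat.le_mul_of_pos_right _ hd0
    have h1 := Nat.find_spec hex
    have h2 : Nat.find hex ≠ 0 := by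
      intro h3
      rw [h3] at h1
      simp only [zero_add, pow_one] at h1
      omega
    obtain ⟨i, hi⟩ : ∃ i, Nat.find hex = i + 1 := ⟨Nat.find hex - 1, by omega⟩
    have h3 : ¬ 2 ^ T < 2 ^ (i + 1) * d := Nat.find_min hex (by omega)
    rw [hi] at h1
    exact ⟨i, not_lt.1 h3, h1⟩
  have hiT : i < T := by
    have h1 : 2 ^ (i + 1) ≤ 2 ^ T := le_trans (Nat.le_mul_of_pos_right _ hd0) hi1
    have h2 := (Nat.pow_le_pow_iff_right (by norm_num : 1 < 2)).1 h1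
    omega
  -- the cosine
  have hcos : cs (2 ^ T) ((2 : ZMod (2 ^ T)) ^ i * D) =
      Real.cos (2 * Real.pi * ((2 ^ i * d : ℕ) : ℝ) / ((2 ^ T : ℕ) : ℝ)) := by
    have hQr : ((2 ^ T : ℕ) : ℝ) ≠ 0 := Nat.cast_ne_zero.2 hQ
    have h1 : (2 : ZMod (2 ^ T)) ^ i * D = ((2 ^ i * D.val : ℕ) : ZMod (2 ^ T)) := by
      rw [Nat.cast_mul, ZMod.natCast_zmod_val]
      push_cast
      rfl
    rw [h1, cs_nat_dp hQ]
    rcases hcase with h2 | h2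
    · rw [h2]
    · rw [h2]
      have h3 : ((2 ^ i * (2 ^ T - d) : ℕ) : ℝ) = (2 ^ i : ℕ) * ((2 ^ T : ℕ) : ℝ) - ((2 ^ i * d : ℕ) : ℝ) := by
        have h4 : d ≤ 2 ^ T := by omega
        rw [Nat.cast_mul, Nat.cast_sub h4, Nat.cast_mul]
        ring
      have h4 : 2 * Real.pi * ((2 ^ i * (2 ^ T - d) : ℕ) : ℝ) / ((2 ^ T : ℕ) : ℝ) =
          ((2 ^ i : ℕ) : ℝ) * (2 * Real.pi) - 2 * Real.pi * ((2 ^ i * d : ℕ) : ℝ) / ((2 ^ T : ℕ) : ℝ) := by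
        rw [h3]
        field_simp
      rw [h4, Real.cos_nat_mul_two_pi_sub]
  have hneg : cs (2 ^ T) ((2 : ZMod (2 ^ T)) ^ i * D) ≤ 0 := by
    rw [hcos]
    have hQr : (0 : ℝ) < ((2 ^ T : ℕ) : ℝ) := Nat.cast_pos.2 hQ0
    have hpi := Real.pi_pos
    have h1 : 2 * ((2 ^ i * d : ℕ) : ℝ) ≤ ((2 ^ T : ℕ) : ℝ) := by
      have : 2 * (2 ^ i * d) ≤ 2 ^ T := by
        calc 2 * (2 ^ i * d) = 2 ^ (i + 1) * d := by ring
          _ ≤ 2 ^ T := hi1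
      exact_mod_cast this
    have h2 : ((2 ^ T : ℕ) : ℝ) ≤ 4 * ((2 ^ i * d : ℕ) : ℝ) := by
      have : 2 ^ T ≤ 4 * (2 ^ i * d) := by
        calc 2 ^ T ≤ 2 ^ (i + 2) * d := hi2.le
          _ = 4 * (2 ^ i * d) := by ring
      exact_mod_cast this
    apply Real.cos_nonpos_of_pi_div_two_le_of_le
    · rw [le_div_iff₀ hQr]
      nlinarith
    · rw [div_le_iff₀ hQr]
      nlinarith
  have hterm : (d : ℝ) / 2 ^ T ≤
      (1 / 2 : ℝ) ^ (i + 1) * (1 - cs (2 ^ T) ((2 : ZMod (2 ^ T)) ^ i * D)) := by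
    have h1 : (d : ℝ) / 2 ^ T ≤ (1 / 2 : ℝ) ^ (i + 1) := by
      rw [div_le_iff₀ (by positivity), one_div, inv_pow, inv_mul_eq_div, le_div_iff₀ (by positivity)]
      have : d * 2 ^ (i + 1) ≤ 2 ^ T := by rw [mul_comm]; exact hi1
      exact_mod_cast this
    have h2 : (1 / 2 : ℝ) ^ (i + 1) * 1 ≤
        (1 / 2 : ℝ) ^ (i + 1) * (1 - cs (2 ^ T) ((2 : ZMod (2 ^ T)) ^ i * D)) :=
      mul_le_mul_of_nonneg_left (by linarith) (by positivity)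
    linarith
  rw [← hd]
  exact hterm.trans (single_le_sum (f := fun i =>
    (1 / 2 : ℝ) ^ (i + 1) * (1 - cs (2 ^ T) ((2 : ZMod (2 ^ T)) ^ i * D))) hnn (mem_range.2 hiT))

end Pool.Agent.EMD33
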