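import Pool.Agent.EMD33.Defs

set_option autoImplicit false

namespace Pool.Agent.EMD33

open Finset

private lemma bad_card {Q : ℕ} [NeZero Q] (v : ℤ) :
    ((univ : Finset (ZMod Q)).filter (fun t => ¬ (0 ≤ (t.val : ℤ) + v ∧ (t.val : ℤ) + v < Q))).card
      ≤ v.natAbs := by
  rcases le_or_gt 0 v with hv | hv
  · have h1 : ((univ : Finset (ZMod Q)).filter (fun t => ¬ (0 ≤ (t.val : ℤ) + v ∧ (t.val : ℤ) + v < Q))).card
        ≤ (Finset.Ico (Q - v.natAbs) Q).card := by
      apply card_le_card_of_injOn (fun t => t.val)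
      · intro t ht
        rw [coe_filter, Set.mem_setOf_eq] at ht
        have h2 := ZMod.val_lt t
        have h3 := ht.2
        simp only [coe_Ico, Set.mem_Ico]
        refine ⟨?_, h2⟩
        by_contra hcon
        apply h3
        omega
      · intro a _ b _ hab
        exact ZMod.val_injective Q hab
    refine h1.trans ?_
    rw [Nat.card_Ico]
    omega
  · have h1 : ((univ : Finset (ZMod Q)).filter (fun t => ¬ (0 ≤ (t.val : ℤ) + v ∧ (t.val : ℤ) + v < Q))).card
        ≤ (Finset.range v.natAbs).card := by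
      apply card_le_card_of_injOn (fun t => t.val)
      · intro t ht
        rw [coe_filter, Set.mem_setOf_eq] at ht
        have h2 := ZMod.val_lt t
        have h3 := ht.2
        simp only [coe_range, Set.mem_Iio]
        by_contra hcon
        apply h3
        omega
      · intro a _ b _ hab
        exact ZMod.val_injective Q hab
    rwa [card_range] at h1

private lemma fib_card {S : Type*} [Fintype S] [DecidableEq S] {Q : ℕ} [NeZero Q] (s : S)
    (B : Finset (ZMod Q)) :
    (Fintype.piFinset (fun i : S => if i = s then B else univ)).card * Q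
      = B.card * Fintype.card (S → ZMod Q) := by
  rw [Fintype.card_piFinset, Fintype.card_fun, ZMod.card,
    ← Finset.mul_prod_erase univ _ (mem_univ s), if_pos rfl]
  have h1 : ∏ i ∈ univ.erase s, (if i = s then B else (univ : Finset (ZMod Q))).card
      = ∏ i ∈ univ.erase s, Q := by
    apply prod_congr rfl
    intro i hi
    rw [if_neg (mem_erase.1 hi).1, card_univ, ZMod.card]
  rw [h1]
  have h2 : Q ^ Fintype.card S = Q * ∏ i ∈ univ.erase s, Q := by
    rw [Finset.mul_prod_erase univ (fun _ => Q) (mem_univ s), prod_const, card_univ]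
  rw [h2]
  ring

/-- few masses wrap around under the addition of `V`. -/
theorem unsafe_card {S : Type*} [Fintype S] [DecidableEq S] {Q : ℕ} [NeZero Q] (V : S → ℤ) :
    open Classical in
    (((univ : Finset (S → ZMod Q)).filter (fun z => ¬ Safe z V)).card : ℝ)
      ≤ (Fintype.card (S → ZMod Q) : ℝ) * (∑ s, |(V s : ℝ)|) / Q := by
  classical
  have hQ : (0 : ℝ) < Q := by exact_mod_cast Nat.pos_of_ne_zero (NeZero.ne Q)
  have hsub : (univ : Finset (S → ZMod Q)).filter (fun z => ¬ Safe z V) ⊆
      univ.biUnion fun s => Fintype.piFinset (fun i : S => if i = s then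
        ((univ : Finset (ZMod Q)).filter (fun t => ¬ (0 ≤ (t.val : ℤ) + V s ∧ (t.val : ℤ) + V s < Q)))
        else univ) := by
    intro z hz
    rw [mem_filter] at hz
    have h1 := hz.2
    unfold Safe at h1
    rw [not_forall] at h1
    obtain ⟨s, hs⟩ := h1
    rw [mem_biUnion]
    refine ⟨s, mem_univ _, ?_⟩
    rw [Fintype.mem_piFinset]
    intro i
    by_cases h : i = s
    · subst h
      rw [if_pos rfl, mem_filter]
      exact ⟨mem_univ _, hs⟩
    · rw [if_neg h]
      exact mem_univ _
  have hcard : (((univ : Finset (S → ZMod Q)).filter (fun z => ¬ Safe z V)).card : ℝ) ≤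
      ∑ s, ((Fintype.piFinset (fun i : S => if i = s then
        ((univ : Finset (ZMod Q)).filter (fun t => ¬ (0 ≤ (t.val : ℤ) + V s ∧ (t.val : ℤ) + V s < Q)))
        else univ)).card : ℝ) := by
    have := (card_le_card hsub).trans card_biUnion_le
    exact_mod_cast this
  have hterm : ∀ s : S, ((Fintype.piFinset (fun i : S => if i = s then
        ((univ : Finset (ZMod Q)).filter (fun t => ¬ (0 ≤ (t.val : ℤ) + V s ∧ (t.val : ℤ) + V s < Q)))
        else univ)).card : ℝ) ≤ (Fintype.card (S → ZMod Q) : ℝ) * |(V s : ℝ)| / Q := by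
    intro s
    rw [le_div_iff₀ hQ]
    have h1 := fib_card (Q := Q) s
      ((univ : Finset (ZMod Q)).filter (fun t => ¬ (0 ≤ (t.val : ℤ) + V s ∧ (t.val : ℤ) + V s < Q)))
    have h2 : ((Fintype.piFinset (fun i : S => if i = s then
        ((univ : Finset (ZMod Q)).filter (fun t => ¬ (0 ≤ (t.val : ℤ) + V s ∧ (t.val : ℤ) + V s < Q)))
        else univ)).card : ℝ) * Q =
        (((univ : Finset (ZMod Q)).filter
          (fun t => ¬ (0 ≤ (t.val : ℤ) + V s ∧ (t.val : ℤ) + V s < Q))).card : ℝ) *
          (Fintype.card (S → ZMod Q) : ℝ) := by exact_mod_cast h1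
    rw [h2, mul_comm]
    apply mul_le_mul_of_nonneg_left _ (Nat.cast_nonneg _)
    have h3 := bad_card (Q := Q) (V s)
    have h4 : |(V s : ℝ)| = ((V s).natAbs : ℝ) := by
      rw [Nat.cast_natAbs, Int.cast_abs]
    rw [h4]
    exact_mod_cast h3
  refine hcard.trans ((sum_le_sum fun s _ => hterm s).trans (le_of_eq ?_))
  rw [mul_sum, sum_div]

theorem safe_val {S : Type*} {Q : ℕ} [NeZero Q] {z : S → ZMod Q} {V : S → ℤ}
    (h : Safe z V) (s : S) : ((((z + red Q V) s).val : ℕ) : ℤ) = ((z s).val : ℤ) + V s := by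
  have h1 := h s
  have h2 : (z + red Q V) s = ((((z s).val : ℤ) + V s : ℤ) : ZMod Q) := by
    rw [Pi.add_apply]
    unfold red
    push_cast
    rw [ZMod.natCast_zmod_val]
  rw [h2, ZMod.val_intCast]
  exact Int.emod_eq_of_lt h1.1 h1.2

end Pool.Agent.EMD33
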