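import Pool.Agent.EMD33.Metric
import Pool.Agent.EMD33.Wrap

set_option autoImplicit false

namespace Pool.Agent.EMD33

open Finset

variable {M N K g Q : ℕ}

/-- distance of sites. -/
noncomputable def sdist (s s' : Site M N) : ℝ :=
  |(((s.1 : ℕ) * N + s.2.1 : ℕ) : ℝ) - (((s'.1 : ℕ) * N + s'.2.1 : ℕ) : ℝ)|
    + |(((s.2.2 : ℕ)) : ℝ) - (((s'.2.2 : ℕ)) : ℝ)|

private theorem mul_add_inj {n a b u v : ℕ} (hu : u < n) (hv : v < n) (h : n * a + u = n * b + v) :
    a = b ∧ u = v := by
  have hn : 0 < n := by omega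
  have h1 : (n * a + u) / n = a := by
    rw [Nat.mul_add_div hn, Nat.div_eq_of_lt hu, add_zero]
  have h2 : (n * b + v) / n = b := by
    rw [Nat.mul_add_div hn, Nat.div_eq_of_lt hv, add_zero]
  have h3 : a = b := by rw [← h1, ← h2, h]
  subst h3
  exact ⟨rfl, by omega⟩

theorem pl_injective (hg : 2 * K * (M * N) ≤ g) :
    Function.Injective (pl (M := M) (N := N) (K := K) hg) := by
  rintro ⟨⟨m, a, b⟩, u, v⟩ ⟨⟨m', a', b'⟩, u', v'⟩ h
  unfold pl at h
  rw [Prod.mk.injEq, Fin.mk.injEq, Fin.mk.injEq] at h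
  obtain ⟨h1, h2⟩ := h
  simp only at h1 h2
  have hu := u.2
  have hu' := u'.2
  have hv := v.2
  have hv' := v'.2
  obtain ⟨h3, h4⟩ := mul_add_inj (by omega) (by omega) h1
  obtain ⟨h5, h6⟩ := mul_add_inj (by omega) (by omega) h2
  rw [mul_comm, mul_comm (m' : ℕ)] at h3
  obtain ⟨h7, h8⟩ := mul_add_inj a.2 a'.2 h3
  rw [Prod.mk.injEq, Prod.mk.injEq, Prod.mk.injEq, Prod.mk.injEq]
  exact ⟨⟨Fin.ext h7, Fin.ext h8, Fin.ext h5⟩, Fin.ext h4, Fin.ext h6⟩

/-- the number of points of a block. -/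
private theorem card_block {n : ℕ} (hn : n ≤ K * K) :
    (univ.filter fun q : Fin K × Fin K => (q.1 : ℕ) * K + q.2 < n).card = n := by
  have h1 : (univ.filter fun q : Fin K × Fin K => (q.1 : ℕ) * K + q.2 < n).image
      (fun q => (q.1 : ℕ) * K + q.2) = range n := by
    ext i
    rw [mem_image, mem_range]
    constructor
    · rintro ⟨q, hq, rfl⟩
      exact (mem_filter.1 hq).2
    · intro hi
      have hK : 0 < K := by
        rcases Nat.eq_zero_or_pos K with h | h
        · subst h; omega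
        · exact h
      refine ⟨(⟨i / K, Nat.div_lt_of_lt_mul (by omega)⟩, ⟨i % K, Nat.mod_lt _ hK⟩), ?_, ?_⟩
      · rw [mem_filter]
        refine ⟨mem_univ _, ?_⟩
        simp only
        rw [Nat.div_add_mod']
        exact hi
      · simp only
        exact Nat.div_add_mod' i K
  have h2 := card_image_of_injOn (s := univ.filter fun q : Fin K × Fin K => (q.1 : ℕ) * K + q.2 < n)
    (f := fun q => (q.1 : ℕ) * K + q.2) (fun q _ q' _ h => by
      simp only at h
      rw [mul_comm, mul_comm (q'.1 : ℕ)] at h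
      obtain ⟨h3, h4⟩ := mul_add_inj q.2.2 q'.2.2 h
      exact Prod.ext (Fin.ext h3) (Fin.ext h4))
  rw [← h2, h1, card_range]

/-- a sum over the encoded set. -/
theorem enc_sum [NeZero Q] (hg : 2 * K * (M * N) ≤ g) (hQ : Q ≤ K * K)
    (x : Site M N → ZMod Q) (G : Fin g × Fin g → ℝ) (c : Site M N → ℝ)
    (hG : ∀ q, G (pl hg q) = c q.1) :
    ∑ p ∈ enc hg x, G p = ∑ s, ((x s).val : ℝ) * c s := by
  unfold enc
  rw [sum_image fun q _ q' _ h => pl_injective hg h]
  simp only [hG]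
  rw [sum_filter, Fintype.sum_prod_type]
  refine sum_congr rfl fun s _ => ?_
  simp only
  rw [← sum_filter, sum_const, nsmul_eq_mul]
  congr 2
  have h1 := card_block (K := K) (n := (x s).val) ((ZMod.val_lt (x s)).le.trans hQ)
  convert h1

/-- the size of the encoded set is the total mass. -/
theorem enc_card_safe [NeZero Q] (hg : 2 * K * (M * N) ≤ g) (hQ : Q ≤ K * K)
    (z : Site M N → ZMod Q) (V : Site M N → ℤ) (hV : ∑ s, V s = 0) (hz : Safe z V) :
    (enc hg (z + red Q V)).card = (enc hg z).card := by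
  have h1 : ∀ x : Site M N → ZMod Q, ((enc hg x).card : ℝ) = ∑ s, ((x s).val : ℝ) := by
    intro x
    have := enc_sum hg hQ x (fun _ => 1) (fun _ => 1) (fun _ => rfl)
    simpa using this
  have h2 : ((enc hg (z + red Q V)).card : ℝ) = ((enc hg z).card : ℝ) := by
    rw [h1, h1]
    have h3 : ∀ s, ((((z + red Q V) s).val : ℕ) : ℝ) = ((z s).val : ℝ) + ((V s : ℤ) : ℝ) := by
      intro s
      have := safe_val hz s
      exact_mod_cast this
    simp only [h3]
    rw [sum_add_distrib, ← Int.cast_sum, hV, Int.cast_zero, add_zero]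
  exact_mod_cast h2

end Pool.Agent.EMD33
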