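import Pool.Agent.EMD33.EncBasic

set_option autoImplicit false

namespace Pool.Agent.EMD33

open Finset

variable {M N K g Q : ℕ}

private lemma helper61_block (K i i' u u' : ℕ) (hu : u < K) (hu' : u' < K) :
    (K : ℝ) * |((i : ℕ) : ℝ) - ((i' : ℕ) : ℝ)| ≤
      |((2 * K * i + u : ℕ) : ℝ) - ((2 * K * i' + u' : ℕ) : ℝ)| := by
  have hz : (K : ℤ) * |(i : ℤ) - (i' : ℤ)| ≤
      |((2 * K * i + u : ℕ) : ℤ) - ((2 * K * i' + u' : ℕ) : ℤ)| := by
    push_cast
    have hK : (0 : ℤ) ≤ K := by positivity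
    have h1 : (u : ℤ) < K := by exact_mod_cast hu
    have h2 : (u' : ℤ) < K := by exact_mod_cast hu'
    have h3 : (0 : ℤ) ≤ u := by positivity
    have h4 : (0 : ℤ) ≤ u' := by positivity
    rcases lt_trichotomy (i : ℤ) (i' : ℤ) with h | h | h
    · rw [abs_of_neg (by linarith)]
      rw [abs_sub_comm]
      refine le_trans ?_ (le_abs_self _)
      have h5 : (1 : ℤ) ≤ (i' : ℤ) - i := by linarith
      nlinarith
    · rw [h]
      simp
    · rw [abs_of_pos (by linarith)]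
      refine le_trans ?_ (le_abs_self _)
      have h5 : (1 : ℤ) ≤ (i : ℤ) - i' := by linarith
      nlinarith
  exact_mod_cast hz

/-- the points of two blocks. -/
theorem dist1_pl_ge (hg : 2 * K * (M * N) ≤ g) (q q' : Site M N × Fin K × Fin K) :
    (K : ℝ) * sdist q.1 q'.1 ≤ dist1 (pl hg q) (pl hg q') := by
  unfold sdist dist1 pl
  rw [mul_add]
  exact add_le_add
    (helper61_block K _ _ _ _ q.2.1.2 q'.2.1.2)
    (helper61_block K _ _ _ _ q.2.2.2 q'.2.2.2)

private lemma helper61_val [NeZero Q] (z : Site M N → ZMod Q) (V : Site M N → ℤ) (hz : Safe z V)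
    (s : Site M N) : (((z + red Q V) s).val : ℝ) = ((z s).val : ℝ) + (V s : ℝ) := by
  obtain ⟨h1, h2⟩ := hz s
  have h3 : (z + red Q V) s = ((((z s).val : ℤ) + V s : ℤ) : ZMod Q) := by
    simp [red]
  have h4 : ((((z + red Q V) s).val : ℕ) : ℤ) = ((z s).val : ℤ) + V s := by
    rw [h3, ZMod.val_intCast, Int.emod_eq_of_lt h1 h2]
  have h5 := congrArg (fun t : ℤ => (t : ℝ)) h4
  push_cast at h5
  exact h5

/-- Kantorovich lower bound for a safe perturbation. -/
theorem enc_lower [NeZero Q] (hg : 2 * K * (M * N) ≤ g) (hQ : Q ≤ K * K)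
    (z : Site M N → ZMod Q) (V : Site M N → ℤ) (hz : Safe z V)
    (g₀ : Site M N → ℝ) (hLip : ∀ s s', g₀ s - g₀ s' ≤ sdist s s')
    (π : ↥(enc hg (z + red Q V)) ≃ ↥(enc hg z)) :
    (K : ℝ) * ∑ s, (V s : ℝ) * g₀ s ≤ cost π := by
  classical
  have hinj := pl_injective (M := M) (N := N) (K := K) hg
  obtain ⟨G, hG⟩ : ∃ G : Fin g × Fin g → ℝ, ∀ q, G (pl hg q) = (K : ℝ) * g₀ q.1 := by
    refine ⟨fun p => if h : ∃ q, pl (M := M) (N := N) (K := K) hg q = p
      then (K : ℝ) * g₀ (Classical.choose h).1 else 0, fun q => ?_⟩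
    have hex : ∃ q', pl (M := M) (N := N) (K := K) hg q' = pl hg q := ⟨q, rfl⟩
    have hch : Classical.choose hex = q := hinj (Classical.choose_spec hex)
    simp only [dif_pos hex, hch]
  have hmem : ∀ (x : Site M N → ZMod Q) (p : Fin g × Fin g), p ∈ enc hg x →
      ∃ q, pl (M := M) (N := N) (K := K) hg q = p := by
    intro x p hp
    unfold enc at hp
    obtain ⟨q, -, hq⟩ := mem_image.1 hp
    exact ⟨q, hq⟩
  have hL : ∀ p ∈ enc hg (z + red Q V), ∀ p' ∈ enc hg z, G p - G p' ≤ dist1 p p' := by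
    intro p hp p' hp'
    obtain ⟨q, rfl⟩ := hmem _ _ hp
    obtain ⟨q', rfl⟩ := hmem _ _ hp'
    rw [hG, hG]
    refine le_trans ?_ (dist1_pl_ge hg q q')
    rw [← mul_sub]
    exact mul_le_mul_of_nonneg_left (hLip _ _) (by positivity)
  have h1 := cost_ge_of_lipschitz π G hL
  rw [enc_sum hg hQ (z + red Q V) G (fun s => (K : ℝ) * g₀ s) hG,
    enc_sum hg hQ z G (fun s => (K : ℝ) * g₀ s) hG, ← sum_sub_distrib] at h1
  refine le_trans (le_of_eq ?_) h1
  rw [mul_sum]
  refine sum_congr rfl fun s _ => ?_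
  rw [helper61_val z V hz s]
  ring

end Pool.Agent.EMD33
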