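import Pool.Agent.EMD33.EncBasic

set_option autoImplicit false

namespace Pool.Agent.EMD33

open Finset

variable {M N K g Q : ℕ}

private theorem en_mem (hg : 2 * K * (M * N) ≤ g) (x : Site M N → ZMod Q) (p : Fin g × Fin g) :
    p ∈ enc hg x ↔ ∃ q : Site M N × Fin K × Fin K,
      (q.2.1 : ℕ) * K + q.2.2 < (x q.1).val ∧ pl hg q = p := by
  unfold enc
  rw [mem_image]
  constructor
  · rintro ⟨q, hq, rfl⟩
    exact ⟨q, (mem_filter.1 hq).2, rfl⟩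
  · rintro ⟨q, hq, rfl⟩
    exact ⟨q, mem_filter.2 ⟨mem_univ _, hq⟩, rfl⟩

private theorem en_dip_sum (e : Fin M × Bool × Fin N × Fin N) : ∑ s, dip e s = 0 := by
  unfold dip
  rw [sum_sub_distrib]
  simp

private theorem en_pos {T : ℕ} (x : IU M N T) {s : Site M N} (h : 0 < VU x s) :
    s = (x.1.1, nxt x.1.2.1 x.1.2.2) ∧ VU x s ≤ 2 ^ (x.2 : ℕ) := by
  unfold VU dip at h ⊢
  have h2 : (0 : ℤ) < 2 ^ (x.2 : ℕ) := by positivity
  by_cases h1 : s = (x.1.1, nxt x.1.2.1 x.1.2.2)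
  · refine ⟨h1, ?_⟩
    rw [if_pos h1]
    split_ifs <;> nlinarith
  · exfalso
    rw [if_neg h1] at h
    split_ifs at h <;> nlinarith

private theorem en_neg {T : ℕ} (x : IU M N T) {s : Site M N} (h : VU x s < 0) :
    s = (x.1.1, x.1.2.2) := by
  unfold VU dip at h
  have h2 : (0 : ℤ) < 2 ^ (x.2 : ℕ) := by positivity
  by_contra h1
  rw [if_neg h1] at h
  split_ifs at h <;> nlinarith

private theorem en_dist (hg : 2 * K * (M * N) ≤ g) (m : Fin M) (b : Bool) (a : Fin N × Fin N)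
    (u v u' v' : Fin K) :
    dist1 (pl hg ((m, nxt b a), (u, v))) (pl hg ((m, a), (u', v'))) ≤ 4 * K := by
  obtain ⟨a1, a2⟩ := a
  have hu : ((u : ℕ) : ℝ) ≤ K := by exact_mod_cast u.2.le
  have hv : ((v : ℕ) : ℝ) ≤ K := by exact_mod_cast v.2.le
  have hu' : ((u' : ℕ) : ℝ) ≤ K := by exact_mod_cast u'.2.le
  have hv' : ((v' : ℕ) : ℝ) ≤ K := by exact_mod_cast v'.2.le
  have hu0 : (0 : ℝ) ≤ ((u : ℕ) : ℝ) := Nat.cast_nonneg _
  have hv0 : (0 : ℝ) ≤ ((v : ℕ) : ℝ) := Nat.cast_nonneg _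
  have hu0' : (0 : ℝ) ≤ ((u' : ℕ) : ℝ) := Nat.cast_nonneg _
  have hv0' : (0 : ℝ) ≤ ((v' : ℕ) : ℝ) := Nat.cast_nonneg _
  have hK0 : (0 : ℝ) ≤ K := Nat.cast_nonneg _
  have ha1 := a1.2
  have ha2 := a2.2
  have hstep : ∀ t : ℕ, t < N → (((min (t + 1) (N - 1) : ℕ) : ℝ)) ≤ t + 1 ∧
      (t : ℝ) ≤ (((min (t + 1) (N - 1) : ℕ) : ℝ)) := by
    intro t ht
    constructor
    · have h1 : min (t + 1) (N - 1) ≤ t + 1 := min_le_left _ _
      exact_mod_cast h1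
    · have h1 : t ≤ min (t + 1) (N - 1) := by omega
      exact_mod_cast h1
  have key : ∀ (A B c d : ℝ), 0 ≤ c → c ≤ K → 0 ≤ d → d ≤ K → A ≤ B + 1 → B ≤ A →
      |(2 * K * A + c) - (2 * K * B + d)| ≤ 2 * K * (A - B) + K := by
    intro A B c d hc hc' hd hd' hAB hBA
    rw [abs_le]
    have h1 : 0 ≤ (K : ℝ) * (A - B) := mul_nonneg hK0 (by linarith)
    constructor <;> nlinarith
  unfold dist1 pl
  cases b
  · have h1 := hstep a2 ha2
    simp only [nxt, Bool.false_eq_true, if_false]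
    push_cast
    push_cast at h1
    have e1 := key ((m : ℕ) * N + (a1 : ℕ)) ((m : ℕ) * N + (a1 : ℕ)) (u : ℕ) (u' : ℕ) hu0 hu hu0' hu'
      (by linarith) le_rfl
    have e2 := key (min ((a2 : ℕ) + 1 : ℝ) ((N - 1 : ℕ) : ℝ)) ((a2 : ℕ) : ℝ) (v : ℕ) (v' : ℕ)
      hv0 hv hv0' hv' h1.1 h1.2
    have e3 : (K : ℝ) * (min ((a2 : ℕ) + 1 : ℝ) ((N - 1 : ℕ) : ℝ) - ((a2 : ℕ) : ℝ)) ≤ K * 1 :=
      mul_le_mul_of_nonneg_left (by linarith [h1.1]) hK0
    linarith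
  · have h1 := hstep a1 ha1
    simp only [nxt, if_true]
    push_cast
    push_cast at h1
    have e1 := key ((m : ℕ) * N + min ((a1 : ℕ) + 1 : ℝ) ((N - 1 : ℕ) : ℝ))
      ((m : ℕ) * N + (a1 : ℕ)) (u : ℕ) (u' : ℕ) hu0 hu hu0' hu' (by linarith [h1.1]) (by linarith [h1.2])
    have e2 := key ((a2 : ℕ) : ℝ) ((a2 : ℕ) : ℝ) (v : ℕ) (v' : ℕ)
      hv0 hv hv0' hv' (by linarith) le_rfl
    have e3 : (K : ℝ) * (min ((a1 : ℕ) + 1 : ℝ) ((N - 1 : ℕ) : ℝ) - ((a1 : ℕ) : ℝ)) ≤ K * 1 :=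
      mul_le_mul_of_nonneg_left (by linarith [h1.1]) hK0
    linarith

/-- one safe step of the walk is cheap. -/
theorem enc_step_near {T : ℕ} [NeZero Q] (hg : 2 * K * (M * N) ≤ g) (hQ : Q ≤ K * K)
    (z : Site M N → ZMod Q) (x : IU M N T) (hz : Safe z (VU x)) :
    Near ((2 : ℝ) ^ (x.2 : ℕ) * (4 * K)) (enc hg (z + red Q (VU x))) (enc hg z) := by
  classical
  have hV : ∑ s, VU x s = 0 := by
    unfold VU
    rw [← mul_sum, en_dip_sum, mul_zero]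
  have hcard := enc_card_safe hg hQ z (VU x) hV hz
  have hval := fun s => safe_val hz s
  have hA : ∀ p ∈ enc hg (z + red Q (VU x)) \ enc hg z, ∃ u v : Fin K,
      p = pl hg ((x.1.1, nxt x.1.2.1 x.1.2.2), (u, v)) ∧
      (z (x.1.1, nxt x.1.2.1 x.1.2.2)).val ≤ (u : ℕ) * K + v ∧
      (u : ℕ) * K + v < (z (x.1.1, nxt x.1.2.1 x.1.2.2)).val + 2 ^ (x.2 : ℕ) := by
    intro p hp
    rw [mem_sdiff, en_mem, en_mem] at hp
    obtain ⟨⟨⟨s, u, v⟩, hq, hpl⟩, hn⟩ := hp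
    have h1 : ¬ ((u : ℕ) * K + v < (z s).val) := fun h => hn ⟨⟨s, u, v⟩, h, hpl⟩
    have h2 := hval s
    dsimp only at hq
    have h3 : 0 < VU x s := by
      have : ((((z + red Q (VU x)) s).val : ℕ) : ℤ) > ((z s).val : ℤ) := by
        exact_mod_cast (by omega : (z s).val < ((z + red Q (VU x)) s).val)
      omega
    obtain ⟨h4, h5⟩ := en_pos x h3
    subst h4
    refine ⟨u, v, hpl.symm, by omega, ?_⟩
    have h6 : ((((z + red Q (VU x)) (x.1.1, nxt x.1.2.1 x.1.2.2)).val : ℕ) : ℤ) ≤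
        ((z (x.1.1, nxt x.1.2.1 x.1.2.2)).val : ℤ) + 2 ^ (x.2 : ℕ) := by omega
    have h7 : ((z + red Q (VU x)) (x.1.1, nxt x.1.2.1 x.1.2.2)).val ≤
        (z (x.1.1, nxt x.1.2.1 x.1.2.2)).val + 2 ^ (x.2 : ℕ) := by exact_mod_cast h6
    omega
  have hB : ∀ p ∈ enc hg z \ enc hg (z + red Q (VU x)), ∃ u v : Fin K,
      p = pl hg ((x.1.1, x.1.2.2), (u, v)) := by
    intro p hp
    rw [mem_sdiff, en_mem, en_mem] at hp
    obtain ⟨⟨⟨s, u, v⟩, hq, hpl⟩, hn⟩ := hp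
    have h1 : ¬ ((u : ℕ) * K + v < ((z + red Q (VU x)) s).val) := fun h => hn ⟨⟨s, u, v⟩, h, hpl⟩
    have h2 := hval s
    dsimp only at hq
    have h3 : VU x s < 0 := by
      have : ((((z + red Q (VU x)) s).val : ℕ) : ℤ) < ((z s).val : ℤ) := by
        exact_mod_cast (by omega : ((z + red Q (VU x)) s).val < (z s).val)
      omega
    have h4 := en_neg x h3
    subst h4
    exact ⟨u, v, hpl.symm⟩
  have hAc : (enc hg (z + red Q (VU x)) \ enc hg z).card ≤ 2 ^ (x.2 : ℕ) := by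
    set c := (z (x.1.1, nxt x.1.2.1 x.1.2.2)).val with hc
    set W : Finset (Fin K × Fin K) := univ.filter fun q =>
      c ≤ (q.1 : ℕ) * K + q.2 ∧ (q.1 : ℕ) * K + q.2 < c + 2 ^ (x.2 : ℕ) with hW
    have h1 : enc hg (z + red Q (VU x)) \ enc hg z ⊆
        W.image (fun q => pl hg ((x.1.1, nxt x.1.2.1 x.1.2.2), q)) := by
      intro p hp
      obtain ⟨u, v, h2, h3, h4⟩ := hA p hp
      exact mem_image.2 ⟨(u, v), mem_filter.2 ⟨mem_univ _, h3, h4⟩, h2.symm⟩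
    have h2 : W.card ≤ (Finset.Ico c (c + 2 ^ (x.2 : ℕ))).card := by
      refine card_le_card_of_injOn (fun q => (q.1 : ℕ) * K + q.2) ?_ ?_
      · intro q hq
        have h3 := (mem_filter.1 (mem_coe.1 hq)).2
        exact mem_coe.2 (mem_Ico.2 h3)
      · rintro ⟨u, v⟩ _ ⟨u', v'⟩ _ h
        dsimp only at h
        have hK : 0 < K := lt_of_le_of_lt (Nat.zero_le _) u.2
        have hv := v.2
        have hv' := v'.2
        have h5 : (u : ℕ) = u' := by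
          have h6 : ((u : ℕ) * K + v) / K = u := by
            rw [mul_comm, Nat.mul_add_div hK, Nat.div_eq_of_lt hv, add_zero]
          have h7 : ((u' : ℕ) * K + v') / K = u' := by
            rw [mul_comm, Nat.mul_add_div hK, Nat.div_eq_of_lt hv', add_zero]
          rw [← h6, h, h7]
        rw [h5] at h
        exact Prod.ext (Fin.ext h5) (Fin.ext (Nat.add_left_cancel h))
    rw [Nat.card_Ico, Nat.add_sub_cancel_left] at h2
    exact (card_le_card h1).trans (card_image_le.trans h2)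
  obtain ⟨π, hπ⟩ := near_of_sdiff (4 * (K : ℝ)) (by positivity)
    (card_sdiff_comm hcard) (fun p hp q hq => by
      obtain ⟨u, v, h1, -, -⟩ := hA p hp
      obtain ⟨u', v', h2⟩ := hB q hq
      rw [h1, h2]
      exact en_dist hg _ _ _ _ _ _ _)
  refine ⟨π, hπ.trans ?_⟩
  have h1 : ((enc hg (z + red Q (VU x)) \ enc hg z).card : ℝ) ≤ 2 ^ (x.2 : ℕ) := by
    exact_mod_cast hAc
  exact mul_le_mul_of_nonneg_right h1 (by positivity)

end Pool.Agent.EMD33
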