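import Pool.Agent.EMD33.Defs

set_option autoImplicit false

namespace Pool.Agent.EMD33

open Finset

/-- the pointwise inequality -/
private theorem ent_pw {x a : ℝ} (hx : 0 ≤ x) (ha : 0 < a) :
    (Real.sqrt x - Real.sqrt a) ^ 2 ≤ x * Real.log x - x * Real.log a - x + a := by
  rcases hx.eq_or_lt with rfl | hx'
  · have h1 : Real.sqrt a ^ 2 = a := Real.sq_sqrt ha.le
    simp only [Real.sqrt_zero]
    nlinarith
  · have h1 : Real.sqrt a ^ 2 = a := Real.sq_sqrt ha.le
    have h2 : Real.sqrt x ^ 2 = x := Real.sq_sqrt hx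
    have hp : 0 < Real.sqrt x := Real.sqrt_pos.2 hx'
    have hq : 0 < Real.sqrt a := Real.sqrt_pos.2 ha
    have h3 : Real.log (Real.sqrt a / Real.sqrt x) ≤ Real.sqrt a / Real.sqrt x - 1 :=
      Real.log_le_sub_one_of_pos (div_pos hq hp)
    rw [Real.log_div hq.ne' hp.ne', Real.log_sqrt hx, Real.log_sqrt ha.le] at h3
    have h4 : x * (Real.sqrt a / Real.sqrt x) = Real.sqrt x * Real.sqrt a := by
      rw [div_eq_mul_inv]
      have : x * (Real.sqrt a * (Real.sqrt x)⁻¹) =
        (Real.sqrt x ^ 2) * (Real.sqrt a * (Real.sqrt x)⁻¹) := by rw [h2]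
      rw [this]
      field_simp
    have h5 : x * (Real.log a / 2 - Real.log x / 2) ≤ Real.sqrt x * Real.sqrt a - x := by
      calc x * (Real.log a / 2 - Real.log x / 2) ≤ x * (Real.sqrt a / Real.sqrt x - 1) :=
            mul_le_mul_of_nonneg_left h3 hx
        _ = Real.sqrt x * Real.sqrt a - x := by rw [mul_sub, h4, mul_one]
    nlinarith

/-- the increment of the entropy at one point -/
private theorem ent_loc {ι : Type*} [Fintype ι] (w : ι → ℝ) (hw : ∀ i, 0 ≤ w i)
    (hs : ∑ i, w i ≤ 1 / 2) (x0 : ℝ) (x : ι → ℝ) (hx0 : 0 ≤ x0) (hx : ∀ i, 0 ≤ x i) :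
    1 / 4 * ∑ i, w i * (Real.sqrt x0 - Real.sqrt (x i)) ^ 2 ≤
      Real.negMulLog ((1 - ∑ i, w i) * x0 + ∑ i, w i * x i)
        - (1 - ∑ i, w i) * Real.negMulLog x0 - ∑ i, w i * Real.negMulLog (x i) := by
  set W : ℝ := ∑ i, w i with hW
  set a : ℝ := (1 - W) * x0 + ∑ i, w i * x i with ha
  have hW0 : 0 ≤ W := sum_nonneg fun i _ => hw i
  have hsum0 : 0 ≤ ∑ i, w i * x i := sum_nonneg fun i _ => mul_nonneg (hw i) (hx i)
  have hW1 : 0 < 1 - W := by linarith
  have ha0 : 0 ≤ a := by positivity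
  -- the terms
  have key : (1 - W) * (Real.sqrt x0 - Real.sqrt a) ^ 2 +
      ∑ i, w i * (Real.sqrt (x i) - Real.sqrt a) ^ 2 ≤
      (1 - W) * (x0 * Real.log x0 - x0 * Real.log a - x0 + a) +
      ∑ i, w i * (x i * Real.log (x i) - x i * Real.log a - x i + a) := by
    rcases ha0.eq_or_lt with h | h
    · have h1 : (1 - W) * x0 = 0 := by
        have := mul_nonneg hW1.le hx0
        linarith
      have h2 : ∑ i, w i * x i = 0 := by
        have := mul_nonneg hW1.le hx0
        linarith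
      have h3 : x0 = 0 := by
        rcases mul_eq_zero.1 h1 with h | h
        · linarith
        · exact h
      have h4 : ∀ i, w i * x i = 0 := fun i =>
        (sum_eq_zero_iff_of_nonneg fun i _ => mul_nonneg (hw i) (hx i)).1 h2 i (mem_univ i)
      refine add_le_add ?_ (sum_le_sum fun i _ => ?_)
      · rw [h3, ← h]
        simp
      · rw [← h]
        rcases mul_eq_zero.1 (h4 i) with h5 | h5
        · rw [h5]
          simp
        · rw [h5]
          simp
    · exact add_le_add (mul_le_mul_of_nonneg_left (ent_pw hx0 h) hW1.le)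
        (sum_le_sum fun i _ => mul_le_mul_of_nonneg_left (ent_pw (hx i) h) (hw i))
  have e1 : (1 - W) * (x0 * Real.log x0 - x0 * Real.log a - x0 + a) +
      ∑ i, w i * (x i * Real.log (x i) - x i * Real.log a - x i + a) =
      Real.negMulLog a - (1 - W) * Real.negMulLog x0 - ∑ i, w i * Real.negMulLog (x i) := by
    have e2 : ∑ i, w i * (x i * Real.log (x i) - x i * Real.log a - x i + a) =
        -(∑ i, w i * Real.negMulLog (x i)) - (∑ i, w i * x i) * Real.log a -
          (∑ i, w i * x i) + W * a := by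
      rw [hW, sum_mul, sum_mul, ← sum_neg_distrib, ← sum_sub_distrib, ← sum_sub_distrib,
        ← sum_add_distrib]
      refine sum_congr rfl fun i _ => ?_
      unfold Real.negMulLog
      ring
    rw [e2]
    have e3 : ∑ i, w i * x i = a - (1 - W) * x0 := by rw [ha]; ring
    rw [e3]
    unfold Real.negMulLog
    ring
  rw [← e1]
  refine le_trans ?_ key
  -- the quadratic inequality
  set b : ℝ := Real.sqrt a
  set y0 : ℝ := Real.sqrt x0
  have h1 : ∑ i, w i * (y0 - Real.sqrt (x i)) ^ 2 ≤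
      2 * (W * (y0 - b) ^ 2) + 2 * ∑ i, w i * (Real.sqrt (x i) - b) ^ 2 := by
    rw [hW, sum_mul, mul_sum, mul_sum, ← sum_add_distrib]
    refine sum_le_sum fun i _ => ?_
    have h2 : (y0 - Real.sqrt (x i)) ^ 2 ≤ 2 * (y0 - b) ^ 2 + 2 * (Real.sqrt (x i) - b) ^ 2 := by
      nlinarith [sq_nonneg ((y0 - b) + (Real.sqrt (x i) - b))]
    calc w i * (y0 - Real.sqrt (x i)) ^ 2
        ≤ w i * (2 * (y0 - b) ^ 2 + 2 * (Real.sqrt (x i) - b) ^ 2) :=
          mul_le_mul_of_nonneg_left h2 (hw i)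
      _ = 2 * (w i * (y0 - b) ^ 2) + 2 * (w i * (Real.sqrt (x i) - b) ^ 2) := by ring
  have h2 : 0 ≤ ∑ i, w i * (Real.sqrt (x i) - b) ^ 2 :=
    sum_nonneg fun i _ => mul_nonneg (hw i) (sq_nonneg _)
  have h3 : 0 ≤ (y0 - b) ^ 2 := sq_nonneg _
  nlinarith

/-- the increment of the entropy -/
private theorem ent_step {G ι : Type*} [AddCommGroup G] [Fintype G] [Fintype ι]
    (w : ι → ℝ) (v : ι → G) (hw : ∀ i, 0 ≤ w i) (hs : ∑ i, w i ≤ 1 / 2) (p : G → ℝ)
    (hp : ∀ z, 0 ≤ p z) :
    ∑ z : G, ∑ i, w i * (Real.sqrt (p z) - Real.sqrt (p (z + v i))) ^ 2 ≤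
      4 * (∑ z, Real.negMulLog (step w v p z) - ∑ z, Real.negMulLog (p z)) := by
  have h1 : ∑ z : G, 1 / 4 * ∑ i, w i * (Real.sqrt (p z) - Real.sqrt (p (z + v i))) ^ 2 ≤
      ∑ z : G, (Real.negMulLog (step w v p z) - (1 - ∑ i, w i) * Real.negMulLog (p z) -
        ∑ i, w i * Real.negMulLog (p (z + v i))) :=
    sum_le_sum fun z _ => ent_loc w hw hs (p z) (fun i => p (z + v i)) (hp z) fun i => hp _
  rw [← mul_sum] at h1
  have h2 : ∑ z : G, (Real.negMulLog (step w v p z) - (1 - ∑ i, w i) * Real.negMulLog (p z) -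
        ∑ i, w i * Real.negMulLog (p (z + v i))) =
      ∑ z, Real.negMulLog (step w v p z) - ∑ z, Real.negMulLog (p z) := by
    rw [sum_sub_distrib, sum_sub_distrib, ← mul_sum, sum_comm]
    have h3 : ∑ i, ∑ z : G, w i * Real.negMulLog (p (z + v i)) =
        (∑ i, w i) * ∑ z, Real.negMulLog (p z) := by
      rw [sum_mul]
      refine sum_congr rfl fun i _ => ?_
      rw [← mul_sum]
      congr 1
      exact Equiv.sum_comp (Equiv.addRight (v i)) fun z => Real.negMulLog (p z)
    rw [h3]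
    ring
  rw [h2] at h1
  linarith

/-- the entropy of a distribution -/
private theorem ent_le {Msg : Type*} [Fintype Msg] [Nonempty Msg] (p : Msg → ℝ)
    (hp : ∀ m, 0 ≤ p m) (h1 : ∑ m, p m = 1) :
    ∑ m, Real.negMulLog (p m) ≤ Real.log (Fintype.card Msg) := by
  have hK : 0 < (Fintype.card Msg : ℝ) := by exact_mod_cast Fintype.card_pos
  set K : ℝ := (Fintype.card Msg : ℝ) with hKdef
  have h2 : ∀ m, Real.negMulLog (p m) ≤ p m * Real.log K - p m + 1 / K := by
    intro m
    have h3 := ent_pw (hp m) (a := 1 / K) (by positivity)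
    have h4 := sq_nonneg (Real.sqrt (p m) - Real.sqrt (1 / K))
    have h5 : Real.log (1 / K) = - Real.log K := by rw [one_div, Real.log_inv]
    rw [h5] at h3
    unfold Real.negMulLog
    linarith
  calc ∑ m, Real.negMulLog (p m) ≤ ∑ m, (p m * Real.log K - p m + 1 / K) :=
        sum_le_sum fun m _ => h2 m
    _ = Real.log K := by
        rw [sum_add_distrib, sum_sub_distrib, ← sum_mul, h1, sum_const, card_univ, nsmul_eq_mul,
          ← hKdef]
        field_simp
        ring

/-- Entropy bound for the message of a random walk.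

Proof. `p t m z := (step w v)^[t] (1[f = m]) z`, a probability vector in `m`. With
`H t := sum_z sum_m negMulLog (p t m z)` one has `H 0 = 0`, `H J <= |G| log |Msg|`
(`-p log p <= p log K - p + 1/K`), and
`H (t+1) - H t >= (1/4) sum_m sum_z sum_i w_i (sqrt p(z) - sqrt p(z+v_i))^2`:
pointwise `x log (x/a) - x + a >= (sqrt x - sqrt a)^2` with `a` the average of the values `x`
(here `sum_z p(z + v_i) log p(z + v_i) = sum_z p(z) log p(z)`), and
`(1/2) w_0 sum_i w_i (y_0 - y_i)^2 <= w_0 (y_0 - b)^2 + sum_i w_i (y_i - b)^2` for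
`w_0 = 1 - sum w >= 1/2`, because `(y_0-y_i)^2 <= 2 (y_0-b)^2 + 2 (y_i-b)^2`. -/
theorem entropy_bound {G ι Msg : Type*} [AddCommGroup G] [Fintype G] [Fintype ι]
    [Fintype Msg] [DecidableEq Msg] [Nonempty Msg]
    (w : ι → ℝ) (v : ι → G) (hw : ∀ i, 0 ≤ w i) (hs : ∑ i, w i ≤ 1 / 2)
    (f : G → Msg) (J : ℕ) :
    ∑ t ∈ range J, ∑ m : Msg, ∑ z : G, ∑ i, w i *
      (Real.sqrt ((step w v)^[t] (fun x => if f x = m then 1 else 0) z)
        - Real.sqrt ((step w v)^[t] (fun x => if f x = m then 1 else 0) (z + v i))) ^ 2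
      ≤ 4 * (Fintype.card G : ℝ) * Real.log (Fintype.card Msg) := by
  set p : ℕ → Msg → G → ℝ := fun t m => (step w v)^[t] (fun x => if f x = m then 1 else 0)
    with hpdef
  have hsucc : ∀ t m, p (t + 1) m = step w v (p t m) := fun t m =>
    Function.iterate_succ_apply' _ _ _
  have hp : ∀ t m z, 0 ≤ p t m z := by
    intro t
    induction t with
    | zero =>
      intro m z
      show (0 : ℝ) ≤ if f z = m then 1 else 0
      split_ifs <;> norm_num
    | succ t ih =>
      intro m z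
      rw [hsucc]
      unfold step
      exact add_nonneg (mul_nonneg (by linarith) (ih m z))
        (sum_nonneg fun i _ => mul_nonneg (hw i) (ih m _))
  have hp1 : ∀ t z, ∑ m, p t m z = 1 := by
    intro t
    induction t with
    | zero =>
      intro z
      show ∑ m, (if f z = m then (1 : ℝ) else 0) = 1
      simp
    | succ t ih =>
      intro z
      have h1 : ∀ m, p (t + 1) m z =
          (1 - ∑ i, w i) * p t m z + ∑ i, w i * p t m (z + v i) := fun m => by
        rw [hsucc]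
        rfl
      simp only [h1]
      rw [sum_add_distrib, ← mul_sum, ih z, sum_comm]
      have h2 : ∑ i, ∑ m, w i * p t m (z + v i) = ∑ i, w i := by
        refine sum_congr rfl fun i _ => ?_
        rw [← mul_sum, ih, mul_one]
      rw [h2]
      ring
  have hH : ∀ t, ∑ m : Msg, ∑ z : G, ∑ i, w i *
      (Real.sqrt (p t m z) - Real.sqrt (p t m (z + v i))) ^ 2 ≤
      4 * (∑ m, ∑ z, Real.negMulLog (p (t + 1) m z)) -
        4 * ∑ m, ∑ z, Real.negMulLog (p t m z) := by
    intro t
    rw [← mul_sub, ← sum_sub_distrib, mul_sum]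
    refine sum_le_sum fun m _ => ?_
    rw [hsucc]
    exact ent_step w v hw hs (p t m) (hp t m)
  have htel : ∑ t ∈ range J, ∑ m : Msg, ∑ z : G, ∑ i, w i *
      (Real.sqrt (p t m z) - Real.sqrt (p t m (z + v i))) ^ 2 ≤
      4 * (∑ m, ∑ z, Real.negMulLog (p J m z)) - 4 * ∑ m, ∑ z, Real.negMulLog (p 0 m z) := by
    calc _ ≤ ∑ t ∈ range J, (4 * (∑ m, ∑ z, Real.negMulLog (p (t + 1) m z)) -
        4 * ∑ m, ∑ z, Real.negMulLog (p t m z)) := sum_le_sum fun t _ => hH t
      _ = _ := sum_range_sub (fun t => 4 * ∑ m, ∑ z, Real.negMulLog (p t m z)) J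
  have h0 : ∑ m, ∑ z, Real.negMulLog (p 0 m z) = 0 := by
    refine sum_eq_zero fun m _ => sum_eq_zero fun z _ => ?_
    show Real.negMulLog (if f z = m then 1 else 0) = 0
    split_ifs
    · exact Real.negMulLog_one
    · exact Real.negMulLog_zero
  have hJ : ∑ m, ∑ z, Real.negMulLog (p J m z) ≤
      (Fintype.card G : ℝ) * Real.log (Fintype.card Msg) := by
    rw [sum_comm]
    calc ∑ z : G, ∑ m, Real.negMulLog (p J m z) ≤ ∑ z : G, Real.log (Fintype.card Msg) :=
          sum_le_sum fun z _ => ent_le (fun m => p J m z) (fun m => hp J m z) (hp1 J z)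
      _ = (Fintype.card G : ℝ) * Real.log (Fintype.card Msg) := by
          rw [sum_const, card_univ, nsmul_eq_mul]
  rw [h0] at htel
  linarith

end Pool.Agent.EMD33
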