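import Pool.Agent.EMD33.Isoper

set_option autoImplicit false

namespace Pool.Agent.EMD33

open Finset

/-- shift to the right by `j` (stopped at the boundary). -/
def psh {N : ℕ} (j : ℕ) (a : Fin N × Fin N) : Fin N × Fin N :=
  (⟨min (a.1.1 + j) (N - 1), by have := a.1.2; omega⟩, a.2)

theorem psh_zero {N : ℕ} (a : Fin N × Fin N) : psh 0 a = a := by
  have := a.1.2
  refine Prod.ext (Fin.ext ?_) rfl
  show min (a.1.1 + 0) (N - 1) = a.1.1
  omega

theorem nxt_psh {N : ℕ} (j : ℕ) (a : Fin N × Fin N) : nxt true (psh j a) = psh (j + 1) a := by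
  have := a.1.2
  refine Prod.ext (Fin.ext ?_) rfl
  show min (min (a.1.1 + j) (N - 1) + 1) (N - 1) = min (a.1.1 + (j + 1)) (N - 1)
  omega

theorem half_iff {h x q r : ℕ} (hh : 1 ≤ h) (hr : r < 2 * h) (hx : x = 2 * h * q + r) :
    x / (2 * h) = q ∧ ((x / h) % 2 = 0 ↔ r < h) := by
  have h1 : x / (2 * h) = q := by
    rw [hx, Nat.mul_add_div (by omega), Nat.div_eq_of_lt hr, Nat.add_zero]
  refine ⟨h1, ?_⟩
  have h2 : x / h = 2 * q + r / h := by
    rw [hx, show 2 * h * q + r = h * (2 * q) + r by ring, Nat.mul_add_div (by omega)]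
  have h3 : r / h < 2 := by
    rw [Nat.div_lt_iff_lt_mul (by omega)]
    omega
  have h4 : r / h = 0 ↔ r < h := Nat.div_eq_zero_iff_lt (by omega)
  rw [h2, ← h4]
  generalize r / h = t at h3 ⊢
  omega

theorem exists_qr {h : ℕ} (x : ℕ) (hh : 1 ≤ h) : ∃ q r, r < 2 * h ∧ x = 2 * h * q + r :=
  ⟨x / (2 * h), x % (2 * h), Nat.mod_lt _ (by omega), (Nat.div_add_mod _ _).symm⟩

theorem left_lt {N h : ℕ} (hh : 1 ≤ h) (hd : 2 * h ∣ N) {a : Fin N × Fin N}
    (ha : (a.1.1 / h) % 2 = 0) : a.1.1 + h < N := by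
  obtain ⟨k, hk⟩ := hd
  obtain ⟨q, r, hr, hx⟩ := exists_qr a.1.1 hh
  have h1 := ((half_iff hh hr hx).2).1 ha
  have h2 := a.1.2
  have h3 : q < k := by
    by_contra hc
    have h4 : 2 * h * k ≤ 2 * h * q := Nat.mul_le_mul_left _ (not_lt.1 hc)
    omega
  have h5 : 2 * h * (q + 1) ≤ 2 * h * k := Nat.mul_le_mul_left _ h3
  have h6 : 2 * h * (q + 1) = 2 * h * q + 2 * h := by ring
  omega

theorem psh_left {N h : ℕ} (hh : 1 ≤ h) (hd : 2 * h ∣ N) {a : Fin N × Fin N}
    (ha : (a.1.1 / h) % 2 = 0) : cell h (psh h a) = cell h a ∧ ¬ ((psh h a).1.1 / h) % 2 = 0 ∧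
      (psh h a).1.1 = a.1.1 + h := by
  have h0 := left_lt hh hd ha
  obtain ⟨q, r, hr, hx⟩ := exists_qr a.1.1 hh
  have h1 := half_iff hh hr hx
  have hr' := h1.2.1 ha
  have h2 : (psh h a).1.1 = a.1.1 + h := by
    show min (a.1.1 + h) (N - 1) = a.1.1 + h
    omega
  have h3 : a.1.1 + h = 2 * h * q + (r + h) := by omega
  have h4 := half_iff hh (by omega : r + h < 2 * h) h3
  refine ⟨?_, ?_, h2⟩
  · refine Prod.ext (Fin.ext ?_) rfl
    show (psh h a).1.1 / (2 * h) = a.1.1 / (2 * h)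
    rw [h2, h4.1, h1.1]
  · rw [h2, h4.2]
    omega

/-- shift to the left by `h`. -/
def pshl {N : ℕ} (h : ℕ) (a : Fin N × Fin N) : Fin N × Fin N :=
  (⟨a.1.1 - h, by have := a.1.2; omega⟩, a.2)

theorem pshl_right {N h : ℕ} (hh : 1 ≤ h) {a : Fin N × Fin N}
    (ha : ¬ (a.1.1 / h) % 2 = 0) : cell h (pshl h a) = cell h a ∧ ((pshl h a).1.1 / h) % 2 = 0 ∧
      (pshl h a).1.1 + h = a.1.1 := by
  obtain ⟨q, r, hr, hx⟩ := exists_qr a.1.1 hh
  have h1 := half_iff hh hr hx
  have hr' : h ≤ r := by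
    by_contra hc
    exact ha (h1.2.2 (by omega))
  have h2 : (pshl h a).1.1 = a.1.1 - h := rfl
  have h3 : a.1.1 - h = 2 * h * q + (r - h) := by omega
  have h4 := half_iff hh (by omega : r - h < 2 * h) h3
  refine ⟨?_, ?_, ?_⟩
  · refine Prod.ext (Fin.ext ?_) rfl
    show (pshl h a).1.1 / (2 * h) = a.1.1 / (2 * h)
    rw [h2, h4.1, h1.1]
  · rw [h2, h4.2]
    omega
  · rw [h2]
    omega

/-- `pat` as a sum over the left squares. -/
theorem pat_eq {N : ℕ} (h : ℕ) (hh : 1 ≤ h) (hd : 2 * h ∣ N) (φ : Fin N × Fin N → ℝ)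
    (q : Fin N × Fin N) : pat h φ q =
      ∑ a ∈ univ.filter (fun a : Fin N × Fin N => (a.1.1 / h) % 2 = 0),
        if cell h a = q then (φ a - φ (psh h a)) else 0 := by
  unfold pat
  have h1 : ∀ a : Fin N × Fin N, (if cell h a = q then (sgnH h a : ℝ) * φ a else 0)
      = (if (a.1.1 / h) % 2 = 0 then (if cell h a = q then φ a else 0) else 0)
        - (if ¬ (a.1.1 / h) % 2 = 0 then (if cell h a = q then φ a else 0) else 0) := by
    intro a
    unfold sgnH
    by_cases h2 : (a.1.1 / h) % 2 = 0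
    · rw [if_pos h2, if_pos h2, if_neg (not_not.2 h2)]
      split_ifs <;> simp
    · rw [if_neg h2, if_neg h2, if_pos h2]
      split_ifs <;> simp
  simp only [h1]
  rw [Finset.sum_sub_distrib,
    ← Finset.sum_filter (fun a : Fin N × Fin N => (a.1.1 / h) % 2 = 0)
      (fun a => if cell h a = q then φ a else 0),
    ← Finset.sum_filter (fun a : Fin N × Fin N => ¬ (a.1.1 / h) % 2 = 0)
      (fun a => if cell h a = q then φ a else 0)]
  have h3 : ∑ a ∈ univ.filter (fun a : Fin N × Fin N => ¬ (a.1.1 / h) % 2 = 0),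
        (if cell h a = q then φ a else 0)
      = ∑ a ∈ univ.filter (fun a : Fin N × Fin N => (a.1.1 / h) % 2 = 0),
        (if cell h a = q then φ (psh h a) else 0) := by
    symm
    refine Finset.sum_bij' (fun a _ => psh h a) (fun a _ => pshl h a) ?_ ?_ ?_ ?_ ?_
    · intro a ha
      rw [mem_filter] at ha ⊢
      exact ⟨mem_univ _, (psh_left hh hd ha.2).2.1⟩
    · intro a ha
      rw [mem_filter] at ha ⊢
      exact ⟨mem_univ _, (pshl_right hh ha.2).2.1⟩
    · intro a ha
      rw [mem_filter] at ha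
      have h4 := (psh_left hh hd ha.2).2.2
      refine Prod.ext (Fin.ext ?_) rfl
      show (psh h a).1.1 - h = a.1.1
      omega
    · intro a ha
      rw [mem_filter] at ha
      have h4 := (pshl_right hh ha.2).2.2
      have h5 := a.1.2
      refine Prod.ext (Fin.ext ?_) rfl
      show min ((pshl h a).1.1 + h) (N - 1) = a.1.1
      omega
    · intro a ha
      rw [mem_filter] at ha
      rw [(psh_left hh hd ha.2).1]
  rw [h3, ← Finset.sum_sub_distrib]
  refine Finset.sum_congr rfl fun a _ => ?_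
  split_ifs <;> simp

/-- the signs of a cell cancel. -/
theorem sgn_cell_sum {N : ℕ} (h : ℕ) (hh : 1 ≤ h) (hd : 2 * h ∣ N) (q : Fin N × Fin N) :
    ∑ a : Fin N × Fin N, (if cell h a = q then sgnH h a else 0) = 0 := by
  have h1 := pat_eq h hh hd (fun _ => (1 : ℝ)) q
  simp only [sub_self, ite_self, Finset.sum_const_zero] at h1
  unfold pat at h1
  simp only [mul_one] at h1
  exact_mod_cast h1

/-- each square has at most `h^2` points. -/
theorem pat_le_sq {N : ℕ} (h : ℕ) (hh : 1 ≤ h) (A : Finset (Fin N × Fin N))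
    (q : Fin N × Fin N) : |pat h (ind A) q| ≤ (h : ℝ) ^ 2 := by
  classical
  have key : ∀ e : ℕ, ∑ a ∈ univ.filter (fun a : Fin N × Fin N => (a.1.1 / h) % 2 = e ∧
      cell h a = q), ind A a ≤ (h : ℝ) ^ 2 := by
    intro e
    have h1 : ∑ a ∈ univ.filter (fun a : Fin N × Fin N => (a.1.1 / h) % 2 = e ∧
      cell h a = q), ind A a ≤ ∑ a ∈ univ.filter (fun a : Fin N × Fin N => (a.1.1 / h) % 2 = e ∧
      cell h a = q), (1 : ℝ) := by
      refine Finset.sum_le_sum fun a _ => ?_
      unfold ind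
      split_ifs <;> norm_num
    refine h1.trans ?_
    rw [Finset.sum_const, nsmul_eq_mul, mul_one]
    have h2 : (univ.filter (fun a : Fin N × Fin N => (a.1.1 / h) % 2 = e ∧
        cell h a = q)).card ≤ (range h ×ˢ range h).card := by
      refine Finset.card_le_card_of_injOn (fun a => (a.1.1 % h, a.2.1 % h)) ?_ ?_
      · intro a _
        simp only [Finset.coe_product, Finset.coe_range, Set.mem_prod, Set.mem_Iio]
        exact ⟨Nat.mod_lt _ hh, Nat.mod_lt _ hh⟩
      · intro a ha b hb hab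
        simp only [Finset.coe_filter, Finset.mem_univ, true_and, Set.mem_ofPred_eq] at ha hb
        obtain ⟨ha1, ha2⟩ := ha
        obtain ⟨hb1, hb2⟩ := hb
        have hab1 : a.1.1 % h = b.1.1 % h := (Prod.ext_iff.1 hab).1
        have hab2 : a.2.1 % h = b.2.1 % h := (Prod.ext_iff.1 hab).2
        have hc := ha2.trans hb2.symm
        have hc1 : a.1.1 / (2 * h) = b.1.1 / (2 * h) := Fin.ext_iff.1 (Prod.ext_iff.1 hc).1
        have hc2 : a.2.1 / h = b.2.1 / h := Fin.ext_iff.1 (Prod.ext_iff.1 hc).2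
        have hd1 : a.1.1 / h / 2 = b.1.1 / h / 2 := by
          rw [Nat.div_div_eq_div_mul, Nat.div_div_eq_div_mul, Nat.mul_comm h 2]
          exact hc1
        have he1 : a.1.1 / h = b.1.1 / h := by omega
        refine Prod.ext (Fin.ext ?_) (Fin.ext ?_)
        · rw [← Nat.div_add_mod a.1.1 h, ← Nat.div_add_mod b.1.1 h, he1, hab1]
        · rw [← Nat.div_add_mod a.2.1 h, ← Nat.div_add_mod b.2.1 h, hc2, hab2]
    rw [Finset.card_product, Finset.card_range] at h2
    have h3 : ((univ.filter (fun a : Fin N × Fin N => (a.1.1 / h) % 2 = e ∧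
        cell h a = q)).card : ℝ) ≤ ((h * h : ℕ) : ℝ) := by exact_mod_cast h2
    rw [pow_two]
    push_cast at h3
    exact h3
  have hnn : ∀ e : ℕ, 0 ≤ ∑ a ∈ univ.filter (fun a : Fin N × Fin N => (a.1.1 / h) % 2 = e ∧
      cell h a = q), ind A a := by
    intro e
    refine Finset.sum_nonneg fun a _ => ?_
    unfold ind
    split_ifs <;> norm_num
  have h1 : pat h (ind A) q = ∑ a ∈ univ.filter (fun a : Fin N × Fin N => (a.1.1 / h) % 2 = 0 ∧
      cell h a = q), ind A a - ∑ a ∈ univ.filter (fun a : Fin N × Fin N => (a.1.1 / h) % 2 = 1 ∧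
      cell h a = q), ind A a := by
    rw [Finset.sum_filter, Finset.sum_filter, ← Finset.sum_sub_distrib]
    unfold pat
    refine Finset.sum_congr rfl fun a _ => ?_
    unfold sgnH
    by_cases h2 : cell h a = q
    · rcases Nat.mod_two_eq_zero_or_one (a.1.1 / h) with h3 | h3
      · simp [h2, h3]
      · simp [h2, h3]
    · simp [h2]
  rw [h1, abs_le]
  constructor
  · have := key 1
    have := hnn 0
    linarith
  · have := key 0
    have := hnn 1
    linarith

/-- Comparing `a` with `a + (h,0)` along the horizontal path. -/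
theorem pat_sum_le_tv {N : ℕ} (h : ℕ) (hh : 1 ≤ h) (hd : 2 * h ∣ N) (φ : Fin N × Fin N → ℝ) :
    ∑ q, |pat h φ q| ≤ (h : ℝ) * tv φ := by
  classical
  have tel : ∀ (j : ℕ) (a : Fin N × Fin N), |φ a - φ (psh j a)|
      ≤ ∑ i ∈ range j, |φ (nxt true (psh i a)) - φ (psh i a)| := by
    intro j a
    induction j with
    | zero => rw [psh_zero]; simp
    | succ j ih =>
      rw [Finset.sum_range_succ, nxt_psh]
      have h1 : φ a - φ (psh (j + 1) a) = (φ a - φ (psh j a)) - (φ (psh (j + 1) a) - φ (psh j a)) := by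
        ring
      rw [h1]
      exact (abs_sub _ _).trans (add_le_add ih le_rfl)
  have h1 : ∑ q, |pat h φ q| ≤ ∑ a ∈ univ.filter (fun a : Fin N × Fin N => (a.1.1 / h) % 2 = 0),
      |φ a - φ (psh h a)| := by
    have h2 : ∀ q, |pat h φ q| ≤ ∑ a ∈ univ.filter (fun a : Fin N × Fin N => (a.1.1 / h) % 2 = 0),
        if cell h a = q then |φ a - φ (psh h a)| else 0 := by
      intro q
      rw [pat_eq h hh hd]
      refine (Finset.abs_sum_le_sum_abs _ _).trans (Finset.sum_le_sum fun a _ => ?_)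
      split_ifs <;> simp
    refine (Finset.sum_le_sum fun q _ => h2 q).trans ?_
    rw [Finset.sum_comm]
    refine Finset.sum_le_sum fun a _ => ?_
    rw [Finset.sum_ite_eq]
    simp
  refine h1.trans ?_
  refine (Finset.sum_le_sum fun a _ => tel h a).trans ?_
  rw [Finset.sum_comm]
  have h3 : ∀ j ∈ range h, ∑ a ∈ univ.filter (fun a : Fin N × Fin N => (a.1.1 / h) % 2 = 0),
      |φ (nxt true (psh j a)) - φ (psh j a)| ≤ ∑ b : Fin N × Fin N, |φ (nxt true b) - φ b| := by
    intro j hj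
    rw [mem_range] at hj
    have h4 : ∀ a ∈ univ.filter (fun a : Fin N × Fin N => (a.1.1 / h) % 2 = 0),
        ∀ b ∈ univ.filter (fun a : Fin N × Fin N => (a.1.1 / h) % 2 = 0),
        psh j a = psh j b → a = b := by
      intro a ha b hb hab
      rw [mem_filter] at ha hb
      have h5 := left_lt hh hd ha.2
      have h6 := left_lt hh hd hb.2
      have h7 : min (a.1.1 + j) (N - 1) = min (b.1.1 + j) (N - 1) :=
        Fin.ext_iff.1 (Prod.ext_iff.1 hab).1
      have h8 : a.2 = b.2 := (Prod.ext_iff.1 hab).2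
      refine Prod.ext (Fin.ext ?_) h8
      omega
    rw [← Finset.sum_image (f := fun b : Fin N × Fin N => |φ (nxt true b) - φ b|)
      (g := psh j) h4]
    exact Finset.sum_le_sum_of_subset_of_nonneg (Finset.subset_univ _) fun _ _ _ => abs_nonneg _
  refine (Finset.sum_le_sum h3).trans ?_
  rw [Finset.sum_const, Finset.card_range, nsmul_eq_mul]
  refine mul_le_mul_of_nonneg_left ?_ (Nat.cast_nonneg _)
  unfold tv
  rw [Fintype.sum_bool]
  have : 0 ≤ ∑ a : Fin N × Fin N, |φ (nxt false a) - φ a| :=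
    Finset.sum_nonneg fun _ _ => abs_nonneg _
  linarith

theorem pat_sum_le_card {N : ℕ} (h : ℕ) (hh : 1 ≤ h) (hd : 2 * h ∣ N)
    (A : Finset (Fin N × Fin N)) :
    ∑ q, |pat h (ind A) q| ≤ (min A.card (Aᶜ).card : ℝ) := by
  classical
  have key : ∀ B : Finset (Fin N × Fin N), ∑ q, |pat h (ind B) q| ≤ (B.card : ℝ) := by
    intro B
    have h2 : ∀ q, |pat h (ind B) q| ≤ ∑ a : Fin N × Fin N, if cell h a = q then ind B a else 0 := by
      intro q
      unfold pat
      refine (Finset.abs_sum_le_sum_abs _ _).trans (Finset.sum_le_sum fun a _ => ?_)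
      unfold sgnH ind
      split_ifs <;> simp
    refine (Finset.sum_le_sum fun q _ => h2 q).trans ?_
    rw [Finset.sum_comm]
    have h3 : ∀ a : Fin N × Fin N, ∑ q, (if cell h a = q then ind B a else 0) = ind B a := by
      intro a
      rw [Finset.sum_ite_eq]
      simp
    simp only [h3]
    unfold ind
    rw [Finset.sum_ite_mem, univ_inter, Finset.sum_const, nsmul_eq_mul, mul_one]
  refine le_min (key A) ?_
  have h1 : ∀ q, |pat h (ind A) q| = |pat h (ind Aᶜ) q| := by
    intro q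
    have h2 : pat h (ind A) q + pat h (ind Aᶜ) q = 0 := by
      have h3 := sgn_cell_sum h hh hd q
      have h4 : ((∑ a : Fin N × Fin N, (if cell h a = q then sgnH h a else 0) : ℤ) : ℝ) = 0 := by
        rw [h3]; norm_num
      push_cast at h4
      rw [← h4]
      unfold pat
      rw [← Finset.sum_add_distrib]
      refine Finset.sum_congr rfl fun a _ => ?_
      unfold ind
      by_cases h5 : cell h a = q
      · by_cases h6 : a ∈ A
        · simp [h5, h6]
        · simp [h5, h6]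
      · simp [h5]
    have h5 : pat h (ind A) q = - pat h (ind Aᶜ) q := by linarith
    rw [h5, abs_neg]
  simp only [h1]
  exact key Aᶜ

end Pool.Agent.EMD33
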