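import Pool.Agent.EMD33.EncBasic
import Pool.Agent.EMD33.Pattern

set_option autoImplicit false

namespace Pool.Agent.EMD33

open Finset

/-- distance to the boundary of a block of length `h`. -/
private def tentW (h u : ℕ) : ℕ := min (u % h) (h - 1 - u % h)

private theorem tentW_same {h X X' : ℕ} (hh : 0 < h) (hX : X / h = X' / h) :
    tentW h X ≤ tentW h X' + ((X - X') + (X' - X)) := by
  have h1 := Nat.div_add_mod X h
  have h2 := Nat.div_add_mod X' h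
  have h3 := Nat.mod_lt X hh
  have h4 := Nat.mod_lt X' hh
  rw [← hX] at h2
  unfold tentW
  generalize h * (X / h) = c at h1 h2
  generalize X % h = u at h1 h3 ⊢
  generalize X' % h = u' at h2 h4 ⊢
  omega

private theorem tentW_diff_aux {h X X' : ℕ} (hh : 0 < h) (hX : X / h < X' / h) :
    tentW h X + tentW h X' ≤ X' - X := by
  have h1 := Nat.div_add_mod X h
  have h2 := Nat.div_add_mod X' h
  have h3 := Nat.mod_lt X hh
  have h4 := Nat.mod_lt X' hh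
  have h5 : h * (X / h) + h ≤ h * (X' / h) := by
    calc h * (X / h) + h = h * (X / h + 1) := by ring
      _ ≤ h * (X' / h) := Nat.mul_le_mul_left _ hX
  unfold tentW
  generalize h * (X / h) = c at h1 h5
  generalize h * (X' / h) = c' at h2 h5
  generalize X % h = u at h1 h3 ⊢
  generalize X' % h = u' at h2 h4 ⊢
  omega

private theorem tentW_diff {h X X' : ℕ} (hh : 0 < h) (hX : X / h ≠ X' / h) :
    tentW h X + tentW h X' ≤ (X - X') + (X' - X) := by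
  rcases Nat.lt_or_gt_of_ne hX with h1 | h1
  · have h2 := tentW_diff_aux hh h1
    omega
  · have h2 := tentW_diff_aux hh h1
    omega

private theorem abs_natW (X X' : ℕ) : |((X : ℕ) : ℝ) - ((X' : ℕ) : ℝ)| = (((X - X') + (X' - X) : ℕ) : ℝ) := by
  rcases le_total X X' with h | h
  · have h1 : X - X' = 0 := Nat.sub_eq_zero_of_le h
    have h2 : ((X' - X : ℕ) : ℝ) = (X' : ℝ) - X := Nat.cast_sub h
    have h3 : (X : ℝ) ≤ X' := by exact_mod_cast h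
    rw [h1, zero_add, h2, abs_of_nonpos (by linarith)]
    ring
  · have h1 : X' - X = 0 := Nat.sub_eq_zero_of_le h
    have h2 : ((X - X' : ℕ) : ℝ) = (X : ℝ) - X' := Nat.cast_sub h
    have h3 : (X' : ℝ) ≤ X := by exact_mod_cast h
    rw [h1, add_zero, h2, abs_of_nonneg (by linarith)]

private theorem sum_blocksW (h q : ℕ) (f : ℕ → ℕ) :
    ∑ i ∈ range (h * q), f (i % h) = q * ∑ u ∈ range h, f u := by
  induction q with
  | zero => simp
  | succ q ih =>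
    rw [Nat.mul_succ, Finset.sum_range_add, ih, Nat.succ_mul]
    congr 1
    refine sum_congr rfl fun u hu => ?_
    rw [Nat.mul_add_mod, Nat.mod_eq_of_lt (mem_range.1 hu)]

private theorem sum_reflectW (p : ℕ) (f : ℕ → ℕ) :
    ∑ u ∈ range (2 * p), f (min u (2 * p - 1 - u)) = 2 * ∑ u ∈ range p, f u := by
  rw [two_mul p, Finset.sum_range_add, two_mul]
  congr 1
  · refine sum_congr rfl fun u hu => ?_
    have := mem_range.1 hu
    congr 1
    omega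
  · rw [← Finset.sum_range_reflect f p]
    refine sum_congr rfl fun u hu => ?_
    have := mem_range.1 hu
    congr 1
    omega

private theorem sum_minW (p : ℕ) :
    ∑ u ∈ range p, ∑ v ∈ range p, min u v = ∑ m ∈ range p, m ^ 2 := by
  induction p with
  | zero => simp
  | succ p ih =>
    rw [Finset.sum_range_succ, Finset.sum_range_succ (fun m => m ^ 2), ← ih]
    have h1 : ∑ u ∈ range p, ∑ v ∈ range (p + 1), min u v
        = ∑ u ∈ range p, ∑ v ∈ range p, min u v + ∑ u ∈ range p, u := by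
      rw [← sum_add_distrib]
      refine sum_congr rfl fun u hu => ?_
      rw [Finset.sum_range_succ, Nat.min_eq_left (mem_range.1 hu).le]
    have h2 : ∑ v ∈ range (p + 1), min p v = ∑ v ∈ range p, v + p := by
      rw [Finset.sum_range_succ, Nat.min_self]
      congr 1
      refine sum_congr rfl fun v hv => ?_
      rw [Nat.min_eq_right (mem_range.1 hv).le]
    have h3 := Finset.sum_range_id_mul_two p
    rw [h1, h2]
    have h4 : (∑ u ∈ range p, u) + ((∑ v ∈ range p, v) + p) = p ^ 2 := by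
      have h5 : p * (p - 1) + p = p ^ 2 := by
        cases p with
        | zero => rfl
        | succ m => rw [Nat.add_sub_cancel]; ring
      omega
    omega

private theorem sum_sqW (p : ℕ) : 6 * (∑ m ∈ range p, (m : ℝ) ^ 2) = (p - 1) * p * (2 * p - 1) := by
  induction p with
  | zero => simp
  | succ p ih =>
    rw [Finset.sum_range_succ, mul_add, ih]
    push_cast
    ring

/-- the sum of the tent function over all squares. -/
private theorem tent_sumW (p q : ℕ) (hp : 2 ≤ p) :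
    ((2 * p : ℕ) : ℝ) ^ 3 / 16 * (q : ℝ) ^ 2 ≤
      ((∑ i ∈ range (2 * p * q), ∑ k ∈ range (2 * p * q), min (tentW (2 * p) i) (tentW (2 * p) k) : ℕ) : ℝ) := by
  have h1 : ∑ i ∈ range (2 * p * q), ∑ k ∈ range (2 * p * q), min (tentW (2 * p) i) (tentW (2 * p) k)
      = q * (2 * (q * (2 * ∑ m ∈ range p, m ^ 2))) := by
    unfold tentW
    rw [sum_blocksW (2 * p) q (fun u => ∑ k ∈ range (2 * p * q),
      min (min u (2 * p - 1 - u)) (min (k % (2 * p)) (2 * p - 1 - k % (2 * p))))]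
    rw [sum_reflectW p (fun t => ∑ k ∈ range (2 * p * q), min t (min (k % (2 * p)) (2 * p - 1 - k % (2 * p))))]
    congr 2
    rw [← sum_minW, mul_sum, mul_sum]
    refine sum_congr rfl fun t _ => ?_
    rw [sum_blocksW (2 * p) q (fun u => min t (min u (2 * p - 1 - u))), sum_reflectW p (fun v => min t v)]
  rw [h1]
  have h2 := sum_sqW p
  push_cast
  have hp' : (2 : ℝ) ≤ p := by exact_mod_cast hp
  have hq : (0 : ℝ) ≤ (q : ℝ) ^ 2 := by positivity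
  have h3 : (2 * (p : ℝ)) ^ 3 / 16 ≤ 4 * ∑ m ∈ range p, (m : ℝ) ^ 2 := by
    nlinarith [mul_nonneg (by linarith : (0 : ℝ) ≤ (p : ℝ) - 2) (by linarith : (0 : ℝ) ≤ 5 * (p : ℝ) - 2),
      mul_nonneg (mul_nonneg (by linarith : (0 : ℝ) ≤ (p : ℝ) - 2) (by linarith : (0 : ℝ) ≤ 5 * (p : ℝ) - 2))
        (by linarith : (0 : ℝ) ≤ (p : ℝ))]
  calc (2 * (p : ℝ)) ^ 3 / 16 * (q : ℝ) ^ 2 ≤ (4 * ∑ m ∈ range p, (m : ℝ) ^ 2) * (q : ℝ) ^ 2 :=
        mul_le_mul_of_nonneg_right h3 hq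
    _ = q * (2 * (q * (2 * ∑ m ∈ range p, (m : ℝ) ^ 2))) := by ring

private theorem arithW {N h q : ℕ} (hN : N = h * q) (m a : ℕ) : m * N + a = h * (m * q) + a := by
  rw [hN]; ring

private theorem divW {N h q : ℕ} (hN : N = h * q) (hh : 0 < h) : N / h = q := by
  rw [hN, Nat.mul_div_cancel_left _ hh]

/-- the sign of the wave, as a real number -/
private noncomputable def sigW {M N B : ℕ} (x : IV M N B) (s : Site M N) : ℝ :=
  ((sg (x.2.2 (s.1, cell (4 ^ ((x.2.1 : ℕ) + 1)) s.2)) * sgnH (4 ^ ((x.2.1 : ℕ) + 1)) s.2 : ℤ) : ℝ)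

private theorem sigW_cases {M N B : ℕ} (x : IV M N B) (s : Site M N) : sigW x s = 1 ∨ sigW x s = -1 := by
  unfold sigW sg sgnH
  split_ifs <;> simp

private noncomputable def tenW {M N : ℕ} (h : ℕ) (s : Site M N) : ℕ :=
  min (tentW h ((s.1 : ℕ) * N + s.2.1)) (tentW h s.2.2)

private theorem lipW {M N B : ℕ} (x : IV M N B) {q : ℕ} (hN : N = 4 ^ ((x.2.1 : ℕ) + 1) * q)
    (s s' : Site M N) :
    sigW x s * (tenW (4 ^ ((x.2.1 : ℕ) + 1)) s : ℝ) - sigW x s' * (tenW (4 ^ ((x.2.1 : ℕ) + 1)) s' : ℝ)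
      ≤ sdist s s' := by
  set h := 4 ^ ((x.2.1 : ℕ) + 1) with hh
  have hpos : 0 < h := by positivity
  have hs : sdist s s' = (((((s.1 : ℕ) * N + s.2.1) - ((s'.1 : ℕ) * N + s'.2.1)) +
      (((s'.1 : ℕ) * N + s'.2.1) - ((s.1 : ℕ) * N + s.2.1)) : ℕ) : ℝ) +
      ((((s.2.2 : ℕ) - (s'.2.2 : ℕ)) + ((s'.2.2 : ℕ) - (s.2.2 : ℕ)) : ℕ) : ℝ) := by
    unfold sdist
    rw [abs_natW, abs_natW]
  rw [hs]
  by_cases hc : ((s.1 : ℕ) * N + s.2.1) / h = ((s'.1 : ℕ) * N + s'.2.1) / h ∧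
      (s.2.2 : ℕ) / h = (s'.2.2 : ℕ) / h
  · -- same square
    obtain ⟨h1, h2⟩ := hc
    have hdiv : ∀ u : Site M N, ((u.1 : ℕ) * N + u.2.1) / h = (u.1 : ℕ) * q + (u.2.1 : ℕ) / h := by
      intro u
      have e : (u.1 : ℕ) * N + u.2.1 = u.2.1 + h * ((u.1 : ℕ) * q) :=
        (arithW hN (u.1 : ℕ) (u.2.1 : ℕ)).trans (Nat.add_comm _ _)
      rw [e, Nat.add_mul_div_left _ _ hpos]
      ring
    have hlt : ∀ u : Site M N, (u.2.1 : ℕ) / h < q := by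
      intro u
      apply Nat.div_lt_of_lt_mul
      exact lt_of_lt_of_eq u.2.1.2 hN
    rw [hdiv, hdiv] at h1
    have hq : 0 < q := lt_of_le_of_lt (Nat.zero_le _) (hlt s)
    have h3 : (s.1 : ℕ) = (s'.1 : ℕ) := by
      have e1 : ((s.1 : ℕ) * q + (s.2.1 : ℕ) / h) / q = s.1 := by
        rw [Nat.add_comm, Nat.add_mul_div_right _ _ hq, Nat.div_eq_of_lt (hlt s), zero_add]
      have e2 : ((s'.1 : ℕ) * q + (s'.2.1 : ℕ) / h) / q = s'.1 := by
        rw [Nat.add_comm, Nat.add_mul_div_right _ _ hq, Nat.div_eq_of_lt (hlt s'), zero_add]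
      rw [← e1, ← e2, h1]
    have h4 : (s.2.1 : ℕ) / h = (s'.2.1 : ℕ) / h := by
      rw [h3] at h1
      exact Nat.add_left_cancel h1
    have h5 : s.1 = s'.1 := Fin.ext h3
    have h6 : cell h s.2 = cell h s'.2 := by
      unfold cell
      refine Prod.ext (Fin.ext ?_) (Fin.ext ?_)
      · show (s.2.1 : ℕ) / (2 * h) = (s'.2.1 : ℕ) / (2 * h)
        rw [Nat.mul_comm 2 h, ← Nat.div_div_eq_div_mul, ← Nat.div_div_eq_div_mul, h4]
      · exact h2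
    have h7 : sigW x s = sigW x s' := by
      unfold sigW sgnH
      rw [← hh, h5, h6, h4]
    have h8 : ((s.1 : ℕ) * N + s.2.1) / h = ((s'.1 : ℕ) * N + s'.2.1) / h := by
      rw [hdiv, hdiv, h1]
    have h9 := tentW_same hpos h8
    have h10 := tentW_same hpos h8.symm
    have h11 := tentW_same hpos h2
    have h12 := tentW_same hpos h2.symm
    have h13 : tenW h s ≤ tenW h s' + (((((s.1 : ℕ) * N + s.2.1) - ((s'.1 : ℕ) * N + s'.2.1)) +
      (((s'.1 : ℕ) * N + s'.2.1) - ((s.1 : ℕ) * N + s.2.1))) +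
      (((s.2.2 : ℕ) - (s'.2.2 : ℕ)) + ((s'.2.2 : ℕ) - (s.2.2 : ℕ)))) := by
      unfold tenW
      generalize tentW h ((s.1 : ℕ) * N + s.2.1) = a1 at *
      generalize tentW h ((s'.1 : ℕ) * N + s'.2.1) = a1' at *
      generalize tentW h (s.2.2 : ℕ) = a2 at *
      generalize tentW h (s'.2.2 : ℕ) = a2' at *
      omega
    have h14 : tenW h s' ≤ tenW h s + (((((s.1 : ℕ) * N + s.2.1) - ((s'.1 : ℕ) * N + s'.2.1)) +
      (((s'.1 : ℕ) * N + s'.2.1) - ((s.1 : ℕ) * N + s.2.1))) +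
      (((s.2.2 : ℕ) - (s'.2.2 : ℕ)) + ((s'.2.2 : ℕ) - (s.2.2 : ℕ)))) := by
      unfold tenW
      generalize tentW h ((s.1 : ℕ) * N + s.2.1) = a1 at *
      generalize tentW h ((s'.1 : ℕ) * N + s'.2.1) = a1' at *
      generalize tentW h (s.2.2 : ℕ) = a2 at *
      generalize tentW h (s'.2.2 : ℕ) = a2' at *
      omega
    have h15 : (tenW h s : ℝ) ≤ (tenW h s' : ℝ) + (((((((s.1 : ℕ) * N + s.2.1) - ((s'.1 : ℕ) * N + s'.2.1)) +
      (((s'.1 : ℕ) * N + s'.2.1) - ((s.1 : ℕ) * N + s.2.1)) : ℕ) : ℝ)) +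
      ((((s.2.2 : ℕ) - (s'.2.2 : ℕ)) + ((s'.2.2 : ℕ) - (s.2.2 : ℕ)) : ℕ) : ℝ)) := by exact_mod_cast h13
    have h16 : (tenW h s' : ℝ) ≤ (tenW h s : ℝ) + (((((((s.1 : ℕ) * N + s.2.1) - ((s'.1 : ℕ) * N + s'.2.1)) +
      (((s'.1 : ℕ) * N + s'.2.1) - ((s.1 : ℕ) * N + s.2.1)) : ℕ) : ℝ)) +
      ((((s.2.2 : ℕ) - (s'.2.2 : ℕ)) + ((s'.2.2 : ℕ) - (s.2.2 : ℕ)) : ℕ) : ℝ)) := by exact_mod_cast h14
    rw [h7]
    rcases sigW_cases x s' with h17 | h17
    · rw [h17]; linarith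
    · rw [h17]; linarith
  · -- different squares
    have h1 : tenW h s + tenW h s' ≤ ((((s.1 : ℕ) * N + s.2.1) - ((s'.1 : ℕ) * N + s'.2.1)) +
      (((s'.1 : ℕ) * N + s'.2.1) - ((s.1 : ℕ) * N + s.2.1))) +
      (((s.2.2 : ℕ) - (s'.2.2 : ℕ)) + ((s'.2.2 : ℕ) - (s.2.2 : ℕ))) := by
      rw [not_and_or] at hc
      rcases hc with hc | hc
      · have h2 := tentW_diff hpos hc
        have h3 : tenW h s ≤ tentW h ((s.1 : ℕ) * N + s.2.1) := min_le_left _ _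
        have h4 : tenW h s' ≤ tentW h ((s'.1 : ℕ) * N + s'.2.1) := min_le_left _ _
        omega
      · have h2 := tentW_diff hpos hc
        have h3 : tenW h s ≤ tentW h (s.2.2 : ℕ) := min_le_right _ _
        have h4 : tenW h s' ≤ tentW h (s'.2.2 : ℕ) := min_le_right _ _
        omega
    have h2 : (tenW h s : ℝ) + (tenW h s' : ℝ) ≤ ((((s.1 : ℕ) * N + s.2.1) - ((s'.1 : ℕ) * N + s'.2.1)) +
      (((s'.1 : ℕ) * N + s'.2.1) - ((s.1 : ℕ) * N + s.2.1)) : ℕ) +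
      ((((s.2.2 : ℕ) - (s'.2.2 : ℕ)) + ((s'.2.2 : ℕ) - (s.2.2 : ℕ)) : ℕ) : ℝ) := by exact_mod_cast h1
    have h3 : (0 : ℝ) ≤ (tenW h s : ℝ) := Nat.cast_nonneg _
    have h4 : (0 : ℝ) ≤ (tenW h s' : ℝ) := Nat.cast_nonneg _
    rcases sigW_cases x s with h5 | h5 <;> rcases sigW_cases x s' with h6 | h6 <;> rw [h5, h6] <;> linarith

/-- The tent function of the `h x h` squares (`h = 4^(j+1)`), with the signs of the wave, is
`1`-Lipschitz and sees the wave: every square contributes at least `h^3/16`. -/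
theorem exists_witness {M B n : ℕ} [NeZero M] (x : IV M (4 ^ (B + 1)) B) :
    ∃ g₀ : Site M (4 ^ (B + 1)) → ℝ, (∀ s s', g₀ s - g₀ s' ≤ sdist s s') ∧
      ((4 : ℝ) ^ (B + 1)) ^ 3 / 16 * ∑ r ∈ range M, (alpha n r : ℝ)
        ≤ ∑ s, (VV n x s : ℝ) * g₀ s := by
  obtain ⟨p, hp⟩ : ∃ p, 4 ^ ((x.2.1 : ℕ) + 1) = 2 * p := ⟨2 * 4 ^ (x.2.1 : ℕ), by ring⟩
  have hp2 : 2 ≤ p := by
    have h1 : 1 ≤ 4 ^ (x.2.1 : ℕ) := Nat.one_le_pow _ _ (by norm_num)
    rw [pow_succ] at hp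
    omega
  obtain ⟨q, hq⟩ : ∃ q, 4 ^ (B + 1) = 4 ^ ((x.2.1 : ℕ) + 1) * q := by
    refine ⟨4 ^ (B - (x.2.1 : ℕ)), ?_⟩
    rw [← pow_add]
    congr 1
    have := x.2.1.2
    omega
  have hqd : 4 ^ (B + 1) / 4 ^ ((x.2.1 : ℕ) + 1) = q := divW hq (by positivity)
  refine ⟨fun s => sigW x s * (tenW (4 ^ ((x.2.1 : ℕ) + 1)) s : ℝ), fun s s' => lipW x hq s s', ?_⟩
  -- the sum
  have h1 : ∀ s : Site M (4 ^ (B + 1)), (VV n x s : ℝ) * (sigW x s * (tenW (4 ^ ((x.2.1 : ℕ) + 1)) s : ℝ))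
      = (alpha n ((s.1 + x.1 : Fin M) : ℕ) : ℝ) * ((q : ℝ) *
        ((min (tentW (4 ^ ((x.2.1 : ℕ) + 1)) (s.2.1 : ℕ)) (tentW (4 ^ ((x.2.1 : ℕ) + 1)) (s.2.2 : ℕ)) : ℕ) : ℝ)) := by
    intro s
    have e1 : (VV n x s : ℝ) = (alpha n ((s.1 + x.1 : Fin M) : ℕ) : ℝ) * ((q : ℝ) * sigW x s) := by
      unfold VV waveZ sigW
      rw [hqd]
      push_cast
      ring
    have e2 : tenW (4 ^ ((x.2.1 : ℕ) + 1)) s =
        min (tentW (4 ^ ((x.2.1 : ℕ) + 1)) (s.2.1 : ℕ)) (tentW (4 ^ ((x.2.1 : ℕ) + 1)) (s.2.2 : ℕ)) := by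
      unfold tenW tentW
      have e3 : ((s.1 : ℕ) * 4 ^ (B + 1) + s.2.1) % 4 ^ ((x.2.1 : ℕ) + 1) = (s.2.1 : ℕ) % 4 ^ ((x.2.1 : ℕ) + 1) := by
        have e4 : (s.1 : ℕ) * 4 ^ (B + 1) + s.2.1 = 4 ^ ((x.2.1 : ℕ) + 1) * ((s.1 : ℕ) * q) + s.2.1 :=
          arithW hq (s.1 : ℕ) (s.2.1 : ℕ)
        rw [e4, Nat.mul_add_mod]
      rw [e3]
    have e5 : sigW x s * sigW x s = 1 := by
      rcases sigW_cases x s with h | h <;> rw [h] <;> norm_num
    rw [e1, e2]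
    calc _ = (alpha n ((s.1 + x.1 : Fin M) : ℕ) : ℝ) * ((q : ℝ) *
        ((min (tentW (4 ^ ((x.2.1 : ℕ) + 1)) (s.2.1 : ℕ)) (tentW (4 ^ ((x.2.1 : ℕ) + 1)) (s.2.2 : ℕ)) : ℕ) : ℝ)) *
          (sigW x s * sigW x s) := by ring
      _ = _ := by rw [e5, mul_one]
  have h2 : ∑ s : Site M (4 ^ (B + 1)), (VV n x s : ℝ) * (sigW x s * (tenW (4 ^ ((x.2.1 : ℕ) + 1)) s : ℝ))
      = (∑ r ∈ range M, (alpha n r : ℝ)) * ((q : ℝ) *
        ((∑ i ∈ range (2 * p * q), ∑ k ∈ range (2 * p * q),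
          min (tentW (2 * p) i) (tentW (2 * p) k) : ℕ) : ℝ)) := by
    rw [Finset.sum_congr rfl fun s _ => h1 s, Fintype.sum_prod_type]
    have h3 : (∑ r ∈ range M, (alpha n r : ℝ)) = ∑ m : Fin M, (alpha n ((m + x.1 : Fin M) : ℕ) : ℝ) := by
      rw [← Fin.sum_univ_eq_sum_range (fun r => (alpha n r : ℝ)) M]
      exact (Equiv.sum_comp (Equiv.addRight x.1) (fun m : Fin M => (alpha n (m : ℕ) : ℝ))).symm
    rw [h3, Finset.sum_mul]
    refine Finset.sum_congr rfl fun m _ => ?_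
    dsimp only
    rw [← Finset.mul_sum, ← Finset.mul_sum]
    congr 2
    rw [Fintype.sum_prod_type, hp]
    have h4 : 4 ^ (B + 1) = 2 * p * q := by rw [hq, hp]
    push_cast
    rw [← h4, ← Fin.sum_univ_eq_sum_range (fun i => ∑ k ∈ range (4 ^ (B + 1)),
      min (tentW (2 * p) i : ℝ) (tentW (2 * p) k : ℝ)) (4 ^ (B + 1))]
    refine Finset.sum_congr rfl fun i _ => ?_
    rw [← Fin.sum_univ_eq_sum_range (fun k => min (tentW (2 * p) i : ℝ) (tentW (2 * p) k : ℝ)) (4 ^ (B + 1))]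
  rw [h2]
  have h5 := tent_sumW p q hp2
  have h6 : (0 : ℝ) ≤ ∑ r ∈ range M, (alpha n r : ℝ) := Finset.sum_nonneg fun _ _ => Nat.cast_nonneg _
  have h7 : ((4 : ℝ) ^ (B + 1)) = ((2 * p : ℕ) : ℝ) * q := by
    have h8 : ((4 ^ (B + 1) : ℕ) : ℝ) = ((2 * p * q : ℕ) : ℝ) := by rw [hq, hp]
    push_cast at h8 ⊢
    exact h8
  rw [h7]
  calc (((2 * p : ℕ) : ℝ) * q) ^ 3 / 16 * ∑ r ∈ range M, (alpha n r : ℝ)
      = (∑ r ∈ range M, (alpha n r : ℝ)) * ((q : ℝ) * (((2 * p : ℕ) : ℝ) ^ 3 / 16 * (q : ℝ) ^ 2)) := by ring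
    _ ≤ _ := mul_le_mul_of_nonneg_left (mul_le_mul_of_nonneg_left h5 (Nat.cast_nonneg q)) h6

end Pool.Agent.EMD33
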