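import Pool.Agent.EMD33.NearCount
import Pool.Agent.EMD33.EncLower
import Pool.Agent.EMD33.Witness

set_option autoImplicit false

namespace Pool.Agent.EMD33

open Finset

/-- a pair `(x, z)` is far when `z` is safe for the perturbation and `x` is near the perturbed point. -/
private theorem far_of_near_pert {M B K g T n : ℕ} [NeZero M] (hg : 2 * K * (M * 4 ^ (B + 1)) ≤ g)
    (hQ : 2 ^ T ≤ K * K) (Λ c : ℝ)
    (hfar : (c + 1) * Λ <
      K * (((4 : ℝ) ^ (B + 1)) ^ 3 / 16 * ∑ r ∈ range M, (alpha n r : ℝ)))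
    (k : IV M (4 ^ (B + 1)) B) (x z : Site M (4 ^ (B + 1)) → ZMod (2 ^ T))
    (hz : Safe z (VV n k))
    (h : Near Λ (enc hg x) (enc hg (z + red (2 ^ T) (VV n k)))) :
    Far (c * Λ) (enc hg x) (enc hg z) := by
  haveI : NeZero (2 ^ T) := ⟨by positivity⟩
  obtain ⟨g₀, hLip, hg₀⟩ := exists_witness (M := M) (B := B) (n := n) k
  refine far_of_near (Γ := K * (((4 : ℝ) ^ (B + 1)) ^ 3 / 16 * ∑ r ∈ range M, (alpha n r : ℝ))) h
    (enc_card_safe hg hQ z (VV n k) (VV_sum k) hz) ?_ hfar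
  intro π
  refine le_trans ?_ (enc_lower hg hQ z (VV n k) hz g₀ hLip π)
  exact mul_le_mul_of_nonneg_left hg₀ (Nat.cast_nonneg K)

/-- Most perturbed pairs are far.

Proof. If `z` is safe for `V = VV n k` and `x` is near `z + V` then `(x, z)` is far
(`far_of_near`, `enc_lower` with `exists_witness`, `enc_card_safe`), so
`farF x z >= nearF x (z+V) - 1[z not safe]`; sum with `near_count` (translated by `V`) and
`unsafe_card`, `VV_abs_sum`. -/
theorem far_count {M B K g T n : ℕ} [NeZero M] (hg : 2 * K * (M * 4 ^ (B + 1)) ≤ g)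
    (hQ : 2 ^ T ≤ K * K) (hB : 1 ≤ B) (hK : 1 ≤ K) (hT : 1 ≤ T) (t : ℕ) (ht : 1 ≤ t)
    (hQt : (36 : ℝ) * t * T ≤ 2 ^ T) (c : ℝ) (hc : 1 ≤ c)
    (hfar : (c + 1) * (72 * t * T * K) <
      K * (((4 : ℝ) ^ (B + 1)) ^ 3 / 16 * ∑ r ∈ range M, (alpha n r : ℝ)))
    (hwrap : 36 * (((4 : ℝ) ^ (B + 1)) ^ 3 / 4 * ∑ r ∈ range M, (alpha n r : ℝ)) ≤ 2 ^ T) :
    (34 / 36 : ℝ) * Fintype.card (Site M (4 ^ (B + 1)) → ZMod (2 ^ T)) ≤
      ∑ z, ∑ k : IV M (4 ^ (B + 1)) B, wV M (4 ^ (B + 1)) B k *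
        (step (wU M (4 ^ (B + 1)) T) (fun x => red (2 ^ T) (VU x)))^[t]
        (fun x => farF (Q := 2 ^ T) hg (c * (72 * t * T * K)) x z) (z + red (2 ^ T) (VV n k)) := by
  classical
  haveI : NeZero (2 ^ T) := ⟨by positivity⟩
  have hM1 : 1 ≤ M := Nat.one_le_iff_ne_zero.mpr (NeZero.ne M)
  have hN1 : 1 ≤ 4 ^ (B + 1) := Nat.one_le_pow _ _ (by norm_num)
  have hws : ∑ x, wU M (4 ^ (B + 1)) T x ≤ 1 := (wU_sum_le M (4 ^ (B + 1)) T).trans (by norm_num)
  have hnear := near_count (T := T) hg hQ hM1 hN1 hK hT t ht hQt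
  obtain ⟨u, hu⟩ : ∃ u : IV M (4 ^ (B + 1)) B → (Site M (4 ^ (B + 1)) → ZMod (2 ^ T)) → ℝ,
      u = fun k z => if Safe z (VV n k) then 0 else 1 := ⟨_, rfl⟩
  -- the pointwise inequality
  have key : ∀ (k : IV M (4 ^ (B + 1)) B) (z x : Site M (4 ^ (B + 1)) → ZMod (2 ^ T)),
      nearF (Q := 2 ^ T) hg (72 * t * T * K) x (z + red (2 ^ T) (VV n k)) + -(u k z) ≤
        farF (Q := 2 ^ T) hg (c * (72 * t * T * K)) x z := by
    intro k z x
    have hf0 : 0 ≤ farF (Q := 2 ^ T) hg (c * (72 * t * T * K)) x z := by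
      unfold farF
      split_ifs <;> norm_num
    have hn1 : nearF (Q := 2 ^ T) hg (72 * t * T * K) x (z + red (2 ^ T) (VV n k)) ≤ 1 := by
      unfold nearF
      split_ifs <;> norm_num
    rw [hu]
    simp only
    by_cases hz : Safe z (VV n k)
    · rw [if_pos hz]
      by_cases hx : Near (72 * t * T * K : ℝ) (enc hg x) (enc hg (z + red (2 ^ T) (VV n k)))
      · have hF := far_of_near_pert hg hQ (72 * t * T * K) c hfar k x z hz hx
        have e1 : farF (Q := 2 ^ T) hg (c * (72 * t * T * K)) x z = 1 := by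
          unfold farF
          exact if_pos hF
        rw [e1]
        linarith
      · have e0 : nearF (Q := 2 ^ T) hg (72 * t * T * K) x (z + red (2 ^ T) (VV n k)) = 0 := by
          unfold nearF
          exact if_neg hx
        rw [e0]
        linarith
    · rw [if_neg hz]
      linarith
  -- the inequality along the walk
  have key2 : ∀ (k : IV M (4 ^ (B + 1)) B) (z : Site M (4 ^ (B + 1)) → ZMod (2 ^ T)),
      (step (wU M (4 ^ (B + 1)) T) (fun x => red (2 ^ T) (VU x)))^[t]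
        (fun x => nearF (Q := 2 ^ T) hg (72 * t * T * K) x (z + red (2 ^ T) (VV n k)))
        (z + red (2 ^ T) (VV n k)) - u k z ≤
      (step (wU M (4 ^ (B + 1)) T) (fun x => red (2 ^ T) (VU x)))^[t]
        (fun x => farF (Q := 2 ^ T) hg (c * (72 * t * T * K)) x z) (z + red (2 ^ T) (VV n k)) := by
    intro k z
    have h1 := step_mono (wU M (4 ^ (B + 1)) T) (fun x => red (2 ^ T) (VU x)) wU_nonneg hws t
      (key k z) (z + red (2 ^ T) (VV n k))
    rw [step_add, step_const] at h1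
    linarith
  -- the number of unsafe points
  have hunsafe : ∀ k : IV M (4 ^ (B + 1)) B, ∑ z, u k z ≤
      (1 / 36 : ℝ) * Fintype.card (Site M (4 ^ (B + 1)) → ZMod (2 ^ T)) := by
    intro k
    have h1 : ∑ z, u k z = (((univ : Finset (Site M (4 ^ (B + 1)) → ZMod (2 ^ T))).filter
        (fun z => ¬ Safe z (VV n k))).card : ℝ) := by
      rw [hu, Finset.card_filter]
      push_cast
      refine sum_congr rfl fun z _ => ?_
      by_cases hz : Safe z (VV n k)
      · simp [hz]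
      · simp [hz]
    have h2 := unsafe_card (Q := 2 ^ T) (VV n k)
    have h3 := VV_abs_sum (n := n) k
    have hQpos : (0 : ℝ) < ((2 ^ T : ℕ) : ℝ) := by positivity
    rw [h1]
    refine h2.trans ?_
    rw [div_le_iff₀ hQpos]
    have h4 : ∑ s, |(VV n k s : ℝ)| ≤ (1 / 36) * ((2 ^ T : ℕ) : ℝ) := by
      push_cast
      linarith
    calc (Fintype.card (Site M (4 ^ (B + 1)) → ZMod (2 ^ T)) : ℝ) * ∑ s, |(VV n k s : ℝ)|
        ≤ (Fintype.card (Site M (4 ^ (B + 1)) → ZMod (2 ^ T)) : ℝ) * ((1 / 36) * ((2 ^ T : ℕ) : ℝ)) :=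
          mul_le_mul_of_nonneg_left h4 (Nat.cast_nonneg _)
      _ = _ := by ring
  -- summation
  have hk : ∀ k : IV M (4 ^ (B + 1)) B,
      (34 / 36 : ℝ) * Fintype.card (Site M (4 ^ (B + 1)) → ZMod (2 ^ T)) ≤
        ∑ z, (step (wU M (4 ^ (B + 1)) T) (fun x => red (2 ^ T) (VU x)))^[t]
          (fun x => farF (Q := 2 ^ T) hg (c * (72 * t * T * K)) x z) (z + red (2 ^ T) (VV n k)) := by
    intro k
    have h1 : ∑ z, ((step (wU M (4 ^ (B + 1)) T) (fun x => red (2 ^ T) (VU x)))^[t]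
        (fun x => nearF (Q := 2 ^ T) hg (72 * t * T * K) x (z + red (2 ^ T) (VV n k)))
        (z + red (2 ^ T) (VV n k)) - u k z) ≤ _ := sum_le_sum fun z _ => key2 k z
    rw [sum_sub_distrib] at h1
    have h2 : ∑ z, (step (wU M (4 ^ (B + 1)) T) (fun x => red (2 ^ T) (VU x)))^[t]
        (fun x => nearF (Q := 2 ^ T) hg (72 * t * T * K) x (z + red (2 ^ T) (VV n k)))
        (z + red (2 ^ T) (VV n k)) =
        ∑ z, (step (wU M (4 ^ (B + 1)) T) (fun x => red (2 ^ T) (VU x)))^[t]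
        (fun x => nearF (Q := 2 ^ T) hg (72 * t * T * K) x z) z :=
      Equiv.sum_comp (Equiv.addRight (red (2 ^ T) (VV n k))) (fun z =>
        (step (wU M (4 ^ (B + 1)) T) (fun x => red (2 ^ T) (VU x)))^[t]
        (fun x => nearF (Q := 2 ^ T) hg (72 * t * T * K) x z) z)
    rw [h2] at h1
    have h3 := hunsafe k
    linarith
  rw [sum_comm]
  have h5 : ∀ k : IV M (4 ^ (B + 1)) B,
      wV M (4 ^ (B + 1)) B k * ((34 / 36 : ℝ) * Fintype.card (Site M (4 ^ (B + 1)) → ZMod (2 ^ T))) ≤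
      ∑ z, wV M (4 ^ (B + 1)) B k *
        (step (wU M (4 ^ (B + 1)) T) (fun x => red (2 ^ T) (VU x)))^[t]
        (fun x => farF (Q := 2 ^ T) hg (c * (72 * t * T * K)) x z) (z + red (2 ^ T) (VV n k)) := by
    intro k
    rw [← mul_sum]
    exact mul_le_mul_of_nonneg_left (hk k) (wV_nonneg k)
  refine le_trans (le_of_eq ?_) (sum_le_sum fun k _ => h5 k)
  rw [← sum_mul, wV_sum M (4 ^ (B + 1)) B hM1 hB, one_mul]

end Pool.Agent.EMD33
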