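import Pool.Agent.EMD33.Main

set_option autoImplicit false

namespace Pool.Agent.EMD33

open Finset MeasureTheory

/-- The tradeoff `c * s >= (log n)^2 / 10^15` for all one-way protocols. -/
theorem tradeoff {g s : ℕ} (hg : 2 ≤ g) (c : ℝ) (hc : 1 ≤ c)
    {Ω : Type*} [MeasurableSpace Ω] (P : Measure Ω) [IsProbabilityMeasure P]
    (L : Ω → Finset (Fin g × Fin g) → (Fin s → Bool))
    (E : Ω → (Fin s → Bool) → Finset (Fin g × Fin g) → ℝ)
    (hmeas : ∀ A B : Finset (Fin g × Fin g), A.card = B.card →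
      MeasurableSet {ω | Approx c A B (E ω (L ω A) B)})
    (hprob : ∀ A B : Finset (Fin g × Fin g), A.card = B.card →
      (2 / 3 : ENNReal) ≤ P {ω | Approx c A B (E ω (L ω A) B)}) :
    1 / 10 ^ 15 * (Real.log g) ^ 2 ≤ c * s := by
  have hs1 : 1 ≤ s := one_le_size hg c P L E hmeas hprob
  have hsR : (1 : ℝ) ≤ s := by exact_mod_cast hs1
  have hcs : 1 ≤ c * s := by nlinarith
  have hlog2 : Real.log 2 ≤ 0.7 := by have := Real.log_two_lt_d9; linarith
  have hlog2pos : 0 < Real.log 2 := Real.log_pos (by norm_num)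
  have hgpos : (0 : ℝ) < g := by positivity
  set k : ℕ := Nat.log 2 g with hk
  have hlt : g < 2 ^ (k + 1) := Nat.lt_pow_succ_log_self (by norm_num) g
  have hle : 2 ^ k ≤ g := Nat.pow_log_le_self 2 (by omega)
  have hlog : Real.log g ≤ (k + 1) * 0.7 := by
    have h1 : (g : ℝ) ≤ (2 : ℝ) ^ (k + 1) := by exact_mod_cast hlt.le
    have h2 := Real.log_le_log hgpos h1
    rw [Real.log_pow] at h2
    push_cast at h2
    have h3 : (0 : ℝ) ≤ (k : ℝ) + 1 := by positivity
    nlinarith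
  have hlog0 : 0 ≤ Real.log g := Real.log_nonneg (by exact_mod_cast (by omega : 1 ≤ g))
  by_cases hk85 : k < 85
  · have h1 : (k : ℝ) + 1 ≤ 85 := by exact_mod_cast hk85
    have h2 : Real.log g ≤ 60 := by nlinarith
    have h3 : (Real.log g) ^ 2 ≤ 3600 := by nlinarith
    nlinarith
  · push Not at hk85
    obtain ⟨B, hB1, hB2⟩ : ∃ B, 12 * B + 13 ≤ k ∧ k ≤ 12 * B + 24 := ⟨(k - 13) / 12, by omega, by omega⟩
    have hB6 : 6 ≤ B := by omega
    have hBR : (6 : ℝ) ≤ B := by exact_mod_cast hB6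
    have h1 : Real.log g ≤ 12 * B := by
      have h2 : (k : ℝ) ≤ 12 * B + 24 := by exact_mod_cast hB2
      nlinarith
    have hsq : (Real.log g) ^ 2 ≤ 144 * (B : ℝ) ^ 2 := by nlinarith
    by_cases hcB : c ≤ (B : ℝ) ^ 2
    · have hg2 : 2 * (4 ^ (B + 1)) ^ 3 * ((4 ^ (B + 1)) ^ 2 * 4 ^ (B + 1)) ≤ g := by
        refine le_trans (le_of_eq ?_) (le_trans (Nat.pow_le_pow_right (by norm_num) hB1) hle)
        have e4 : (4 : ℕ) ^ (B + 1) = 2 ^ (2 * (B + 1)) := by rw [pow_mul]; norm_num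
        rw [e4]
        ring
      have h3 := main_param hB6 hg2 c hc hcB P L E hmeas hprob
      nlinarith
    · push Not at hcB
      have : c ≤ c * s := by nlinarith
      nlinarith

end Pool.Agent.EMD33
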