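import Pool.Agent.EMD33.Defs

set_option autoImplicit false

namespace Pool.Agent.EMD33

open Finset

/-- indicator of a set of grid points. -/
noncomputable def ind {N : ℕ} (A : Finset (Fin N × Fin N)) (a : Fin N × Fin N) : ℝ :=
  if a ∈ A then 1 else 0

private theorem one_dim_iso {N : ℕ} (f : Fin N → ℝ) (hf : ∀ y, f y = 0 ∨ f y = 1) (g : Fin N → Fin N)
    (hg : ∀ y : Fin N, (g y : ℕ) = min ((y : ℕ) + 1) (N - 1)) (y y' : Fin N)
    (h1 : f y = 1) (h0 : f y' = 0) : 1 ≤ ∑ z : Fin N, |f (g z) - f z| := by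
  by_contra hcon
  push Not at hcon
  have hstep : ∀ z, f (g z) = f z := by
    intro z
    by_contra hne
    have h2 : |f (g z) - f z| = 1 := by
      rcases hf z with h | h <;> rcases hf (g z) with h' | h' <;> rw [h, h'] at hne ⊢ <;>
        simp at hne ⊢
    have h3 : |f (g z) - f z| ≤ ∑ z : Fin N, |f (g z) - f z| :=
      single_le_sum (f := fun z => |f (g z) - f z|) (fun _ _ => abs_nonneg _) (mem_univ z)
    linarith
  have hN : 0 < N := lt_of_le_of_lt (Nat.zero_le _) y.2
  have hall : ∀ n (hn : n < N), f ⟨n, hn⟩ = f ⟨0, hN⟩ := by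
    intro n
    induction n with
    | zero => intro hn; rfl
    | succ n ih =>
      intro hn
      have h2 := hstep ⟨n, by omega⟩
      have h3 : g ⟨n, by omega⟩ = ⟨n + 1, hn⟩ := by
        apply Fin.ext
        rw [hg]
        dsimp only
        omega
      rw [h3] at h2
      rw [h2]
      exact ih (by omega)
  have e1 := hall y.1 y.2
  have e2 := hall y'.1 y'.2
  rw [Fin.eta] at e1 e2
  rw [e1] at h1
  rw [e2, h1] at h0
  norm_num at h0

private theorem ind_vals_iso {N : ℕ} (A : Finset (Fin N × Fin N)) (a : Fin N × Fin N) :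
    ind A a = 0 ∨ ind A a = 1 := by
  unfold ind
  by_cases h : a ∈ A
  · right; rw [if_pos h]
  · left; rw [if_neg h]

private theorem tv_ge_iso {N : ℕ} (A : Finset (Fin N × Fin N)) :
    ((univ.filter fun y : Fin N => ∃ x x' : Fin N, (x, y) ∈ A ∧ (x', y) ∉ A).card : ℝ)
      + ((univ.filter fun x : Fin N => ∃ y y' : Fin N, (x, y) ∈ A ∧ (x, y') ∉ A).card : ℝ)
      ≤ tv (ind A) := by
  unfold tv
  rw [Fintype.sum_bool]
  apply add_le_add
  · rw [Fintype.sum_prod_type, sum_comm, ← Finset.sum_boole]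
    apply sum_le_sum
    intro y _
    by_cases h : ∃ x x' : Fin N, (x, y) ∈ A ∧ (x', y) ∉ A
    · rw [if_pos h]
      obtain ⟨x, x', hx, hx'⟩ := h
      exact one_dim_iso (fun x => ind A (x, y)) (fun x => ind_vals_iso A _)
        (fun x => (nxt true (x, y)).1) (fun x => rfl) x x' (by simp [ind, hx]) (by simp [ind, hx'])
    · rw [if_neg h]
      exact sum_nonneg fun _ _ => abs_nonneg _
  · rw [Fintype.sum_prod_type, ← Finset.sum_boole]
    apply sum_le_sum
    intro x _
    by_cases h : ∃ y y' : Fin N, (x, y) ∈ A ∧ (x, y') ∉ A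
    · rw [if_pos h]
      obtain ⟨y, y', hy, hy'⟩ := h
      exact one_dim_iso (fun y => ind A (x, y)) (fun y => ind_vals_iso A _)
        (fun y => (nxt false (x, y)).2) (fun y => rfl) y y' (by simp [ind, hy]) (by simp [ind, hy'])
    · rw [if_neg h]
      exact sum_nonneg fun _ _ => abs_nonneg _

private theorem fin_iso {N : ℕ} (A : Finset (Fin N × Fin N)) (R C : Finset (Fin N))
    (hA : A ⊆ C ×ˢ R) : (A.card : ℝ) ≤ ((R.card : ℝ) + (C.card : ℝ)) ^ 2 := by
  have h1 := card_le_card hA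
  rw [card_product] at h1
  have h2 : (A.card : ℝ) ≤ (C.card : ℝ) * (R.card : ℝ) := by exact_mod_cast h1
  have h3 : (0 : ℝ) ≤ C.card := by positivity
  have h4 : (0 : ℝ) ≤ R.card := by positivity
  nlinarith

/-- Isoperimetric inequality in the `N x N` grid.

Proof. Call a column (fixed first coordinate) or a row (fixed second coordinate) mixed if it
meets `A` and its complement; `tv (ind A) >= #mixed columns + #mixed rows`. If all columns (or
all rows) are mixed, `tv >= N`. Otherwise a pure column and a pure row meet, so both lie in the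
complement (or both in `A`); then every point of `A` (of the complement) lies in a mixed row
and in a mixed column. -/
theorem isoper {N : ℕ} (A : Finset (Fin N × Fin N)) :
    (min A.card (Aᶜ).card : ℝ) ≤ (tv (ind A)) ^ 2 := by
  classical
  have htv := tv_ge_iso A
  obtain ⟨R, hR⟩ : ∃ R : Finset (Fin N),
      R = univ.filter fun y : Fin N => ∃ x x' : Fin N, (x, y) ∈ A ∧ (x', y) ∉ A := ⟨_, rfl⟩
  obtain ⟨C, hC⟩ : ∃ C : Finset (Fin N),
      C = univ.filter fun x : Fin N => ∃ y y' : Fin N, (x, y) ∈ A ∧ (x, y') ∉ A := ⟨_, rfl⟩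
  rw [← hR, ← hC] at htv
  have hR' : ∀ y, y ∈ R ↔ ∃ x x' : Fin N, (x, y) ∈ A ∧ (x', y) ∉ A := by
    intro y; rw [hR, mem_filter]; simp
  have hC' : ∀ x, x ∈ C ↔ ∃ y y' : Fin N, (x, y) ∈ A ∧ (x, y') ∉ A := by
    intro x; rw [hC, mem_filter]; simp
  have h3 : (0 : ℝ) ≤ C.card := by positivity
  have h4 : (0 : ℝ) ≤ R.card := by positivity
  have hsq : ((R.card : ℝ) + (C.card : ℝ)) ^ 2 ≤ (tv (ind A)) ^ 2 := by
    apply pow_le_pow_left₀ (by linarith) htv
  have hle : (A.card : ℝ) ≤ (N : ℝ) * N := by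
    have h5 := card_le_univ A
    rw [Fintype.card_prod, Fintype.card_fin] at h5
    exact_mod_cast h5
  by_cases hCall : C = univ
  · have h6 : (C.card : ℝ) = N := by rw [hCall, card_univ, Fintype.card_fin]
    refine (min_le_left _ _).trans (le_trans ?_ hsq)
    rw [h6]
    have h7 : (0 : ℝ) ≤ N := by positivity
    nlinarith
  by_cases hRall : R = univ
  · have h6 : (R.card : ℝ) = N := by rw [hRall, card_univ, Fintype.card_fin]
    refine (min_le_left _ _).trans (le_trans ?_ hsq)
    rw [h6]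
    have h7 : (0 : ℝ) ≤ N := by positivity
    nlinarith
  obtain ⟨x0, hx0⟩ : ∃ x0, x0 ∉ C := by
    by_contra hcon
    push Not at hcon
    exact hCall (eq_univ_of_forall hcon)
  obtain ⟨y0, hy0⟩ : ∃ y0, y0 ∉ R := by
    by_contra hcon
    push Not at hcon
    exact hRall (eq_univ_of_forall hcon)
  rw [hC'] at hx0
  rw [hR'] at hy0
  push Not at hx0 hy0
  by_cases h00 : (x0, y0) ∈ A
  · -- the pure column and row lie in `A`
    refine (min_le_right _ _).trans (le_trans (fin_iso Aᶜ R C ?_) hsq)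
    rintro ⟨x, y⟩ hxy
    rw [mem_compl] at hxy
    rw [mem_product]
    refine ⟨?_, ?_⟩
    · rw [hC']
      exact ⟨y0, y, hy0 x0 x h00, hxy⟩
    · rw [hR']
      exact ⟨x0, x, hx0 y0 y h00, hxy⟩
  · refine (min_le_left _ _).trans (le_trans (fin_iso A R C ?_) hsq)
    rintro ⟨x, y⟩ hxy
    rw [mem_product]
    refine ⟨?_, ?_⟩
    · rw [hC']
      exact ⟨y, y0, hxy, fun h => h00 (hy0 x x0 h)⟩
    · rw [hR']
      exact ⟨x, x0, hxy, fun h => h00 (hx0 y y0 h)⟩

end Pool.Agent.EMD33
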