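import Pool.Agent.EMD33.FarCount
import Pool.Agent.EMD33.Average
import Pool.Agent.EMD33.Compare

set_option autoImplicit false

namespace Pool.Agent.EMD33

open Finset MeasureTheory

theorem pow_ge_lin (B : ℕ) (hB : 6 ≤ B) : 1000 * (B + 1) ≤ 4 ^ (B + 1) := by
  induction B, hB using Nat.le_induction with
  | base => norm_num
  | succ n hn ih =>
    calc 1000 * (n + 1 + 1) ≤ 4 * (1000 * (n + 1)) := by omega
      _ ≤ 4 * 4 ^ (n + 1) := Nat.mul_le_mul_left _ ih
      _ = 4 ^ (n + 1 + 1) := by ring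

set_option maxHeartbeats 4000000 in
/-- the bound for one choice of the parameters: `N = 4^(B+1)`, `M = N^2`, `K = N^3`,
`Q = 2^(12 (B+1)) = N^6`. -/
theorem main_param {g s B : ℕ} (hB : 6 ≤ B)
    (hg : 2 * (4 ^ (B + 1)) ^ 3 * ((4 ^ (B + 1)) ^ 2 * 4 ^ (B + 1)) ≤ g)
    (c : ℝ) (hc : 1 ≤ c) (hcB : c ≤ (B : ℝ) ^ 2)
    {Ω : Type*} [MeasurableSpace Ω] (P : Measure Ω) [IsProbabilityMeasure P]
    (L : Ω → Finset (Fin g × Fin g) → (Fin s → Bool))
    (E : Ω → (Fin s → Bool) → Finset (Fin g × Fin g) → ℝ)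
    (hmeas : ∀ A B : Finset (Fin g × Fin g), A.card = B.card →
      MeasurableSet {ω | Approx c A B (E ω (L ω A) B)})
    (hprob : ∀ A B : Finset (Fin g × Fin g), A.card = B.card →
      (2 / 3 : ENNReal) ≤ P {ω | Approx c A B (E ω (L ω A) B)}) :
    (B : ℝ) ^ 2 ≤ 10 ^ 12 * (c * s) := by
  classical
  set M : ℕ := (4 ^ (B + 1)) ^ 2 with hMdef
  set K : ℕ := (4 ^ (B + 1)) ^ 3 with hKdef
  set T : ℕ := 12 * (B + 1) with hTdef
  set x : ℝ := (4 : ℝ) ^ (B + 1) with hxdef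
  have hMpos : 0 < M := by positivity
  have : NeZero M := ⟨hMpos.ne'⟩
  have hMx : (M : ℝ) = x ^ 2 := by simp [hMdef, hxdef]
  have hKx : (K : ℝ) = x ^ 3 := by simp [hKdef, hxdef]
  have hBR : (6 : ℝ) ≤ B := by exact_mod_cast hB
  have hTx : (T : ℝ) = 12 * (B + 1) := by simp [hTdef]
  have h2T : (2 : ℕ) ^ T = K * K := by
    rw [hTdef, hKdef, show (4 : ℕ) = 2 ^ 2 by norm_num, ← pow_mul, ← pow_mul, ← pow_add]
    congr 1; ring
  have h2Tx : (2 : ℝ) ^ T = x ^ 6 := by
    have : ((2 ^ T : ℕ) : ℝ) = ((K * K : ℕ) : ℝ) := by rw [h2T]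
    push_cast at this
    rw [this, hKx]; ring
  have hxlin : 1000 * ((B : ℝ) + 1) ≤ x := by
    have := pow_ge_lin B hB
    have h2 : ((1000 * (B + 1) : ℕ) : ℝ) ≤ ((4 ^ (B + 1) : ℕ) : ℝ) := by exact_mod_cast this
    push_cast at h2
    exact h2
  have hx7000 : 7000 ≤ x := by linarith
  have hx0 : 0 < x := by linarith
  -- logarithm
  set l : ℝ := Real.log x with hldef
  have hlog4lo : 1.386 ≤ Real.log 4 := by
    have h := Real.log_two_gt_d9
    rw [show (4 : ℝ) = 2 ^ 2 by norm_num, Real.log_pow]; push_cast; linarith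
  have hlog4hi : Real.log 4 ≤ 1.387 := by
    have h := Real.log_two_lt_d9
    rw [show (4 : ℝ) = 2 ^ 2 by norm_num, Real.log_pow]; push_cast; linarith
  have hl : l = (B + 1) * Real.log 4 := by
    rw [hldef, hxdef, Real.log_pow]; push_cast; ring
  have hl2 : 2 ≤ l := by rw [hl]; nlinarith
  have hlx : 700 * l ≤ x := by rw [hl]; nlinarith
  have hl0 : 0 < l := by linarith
  -- beta
  set β : ℝ := 2304 * (c + 1) * T / (x ^ 3 * l) with hβdef
  have hTpos : (0 : ℝ) < T := by rw [hTx]; positivity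
  have hc1 : 0 < c + 1 := by linarith
  have hβpos : 0 < β := by rw [hβdef]; positivity
  have hβx : β * x ^ 3 * l = 2304 * (c + 1) * T := by
    rw [hβdef]; field_simp
  have hcx : c + 1 ≤ x ^ 2 / 10 ^ 6 := by
    have h1 : ((B : ℝ) + 1) ^ 2 ≤ (x / 1000) ^ 2 := by
      apply pow_le_pow_left₀ (by positivity)
      rw [le_div_iff₀ (by norm_num)]; linarith
    have h2 : (x / 1000) ^ 2 = x ^ 2 / 10 ^ 6 := by ring
    nlinarith
  have hβ1 : β ≤ 1 := by
    rw [hβdef, div_le_one (by positivity), hTx, hl]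
    have h1 : 2304 * (c + 1) * (12 * ((B : ℝ) + 1)) = 27648 * (c + 1) * (B + 1) := by ring
    rw [h1]
    have h2 : 27648 * (c + 1) ≤ x ^ 3 * Real.log 4 := by
      have h3 : 27648 * (c + 1) ≤ x ^ 2 := by nlinarith [sq_nonneg x]
      have h4 : x ^ 2 ≤ x ^ 3 := pow_le_pow_right₀ (by linarith) (by norm_num)
      have h5 : x ^ 3 ≤ x ^ 3 * Real.log 4 := by
        have : 0 < x ^ 3 := by positivity
        nlinarith
      linarith
    calc 27648 * (c + 1) * ((B : ℝ) + 1) ≤ x ^ 3 * Real.log 4 * (B + 1) :=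
          mul_le_mul_of_nonneg_right h2 (by positivity)
      _ = x ^ 3 * ((B + 1) * Real.log 4) := by ring
  set t0 : ℕ := ⌈x / β⌉₊ with ht0def
  set t1 : ℕ := ⌊(x ^ 2 - 1) / β⌋₊ with ht1def
  set nn : ℕ → ℕ := fun t => ⌊β * t⌋₊ + 1 with hnndef
  have ht0pos : 1 ≤ t0 := by
    rw [ht0def]; exact Nat.one_le_iff_ne_zero.mpr (by
      have : 0 < ⌈x / β⌉₊ := Nat.ceil_pos.mpr (by positivity)
      omega)
  have ht0le : (t0 : ℝ) ≤ (x + 1) / β := by
    have h1 : (t0 : ℝ) < x / β + 1 := Nat.ceil_lt_add_one (by positivity)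
    have h2 : (1 : ℝ) ≤ 1 / β := by rw [le_div_iff₀ hβpos]; linarith
    rw [add_div]; linarith
  have ht1ge : (x ^ 2 - 1) / β < (t1 : ℝ) + 1 := Nat.lt_floor_add_one _
  have ht01 : t0 ≤ t1 := by
    have h1 : (t0 : ℝ) < (t1 : ℝ) + 1 := by
      refine lt_of_le_of_lt (ht0le.trans ?_) ht1ge
      apply div_le_div_of_nonneg_right _ hβpos.le
      nlinarith
    have : t0 < t1 + 1 := by exact_mod_cast h1
    omega
  -- facts for t in the interval
  have hI : ∀ t ∈ Finset.Icc t0 t1, 1 ≤ t ∧ x ≤ β * t ∧ β * t ≤ x ^ 2 - 1 := by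
    intro t ht
    rw [Finset.mem_Icc] at ht
    refine ⟨le_trans ht0pos ht.1, ?_, ?_⟩
    · have h1 : x / β ≤ (t : ℝ) := (Nat.le_ceil _).trans (by exact_mod_cast ht.1)
      rw [div_le_iff₀ hβpos] at h1; linarith
    · have h1 : (t : ℝ) ≤ (x ^ 2 - 1) / β := by
        have h2 : (t1 : ℝ) ≤ (x ^ 2 - 1) / β := Nat.floor_le (by
          apply div_nonneg _ hβpos.le; nlinarith)
        exact le_trans (by exact_mod_cast ht.2) h2
      rw [le_div_iff₀ hβpos] at h1; linarith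
  have hnn_lo : ∀ t, β * t < (nn t : ℝ) := by
    intro t; simp only [hnndef]; push_cast; exact Nat.lt_floor_add_one _
  have hnn_hi : ∀ t ∈ Finset.Icc t0 t1, (nn t : ℝ) ≤ β * t + 1 := by
    intro t ht
    simp only [hnndef]; push_cast
    have := Nat.floor_le (show 0 ≤ β * t by positivity)
    linarith
  have hnnM : ∀ t ∈ Finset.Icc t0 t1, nn t ≤ M := by
    intro t ht
    have h1 := hnn_hi t ht
    have h2 := (hI t ht).2.2
    have h3 : (nn t : ℝ) ≤ (M : ℝ) := by rw [hMx]; linarith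
    exact_mod_cast h3
  have hnn1 : ∀ t, 1 ≤ nn t := by intro t; simp [hnndef]
  have hsum_lo : ∀ t ∈ Finset.Icc t0 t1,
      (nn t : ℝ) * l / 2 ≤ ∑ r ∈ range M, (alpha (nn t) r : ℝ) := by
    intro t ht
    refine le_trans ?_ (alpha_lower (nn t) M (hnn1 t) (hnnM t ht))
    have h1 : l ≤ Real.log (nn t) := by
      apply Real.log_le_log hx0
      have := hnn_lo t; have := (hI t ht).2.1; linarith
    have h2 : (0 : ℝ) ≤ nn t := by positivity
    have h3 : l / 2 ≤ Real.log (nn t) - 1 := by linarith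
    calc (nn t : ℝ) * l / 2 = (nn t : ℝ) * (l / 2) := by ring
      _ ≤ _ := mul_le_mul_of_nonneg_left h3 h2
  have hsum_hi : ∀ t ∈ Finset.Icc t0 t1,
      ∑ r ∈ range M, (alpha (nn t) r : ℝ) ≤ x ^ 2 * (1 + 2 * l) := by
    intro t ht
    refine le_trans (alpha_upper (nn t) M (hnn1 t)) ?_
    have h0 : (0 : ℝ) < nn t := by exact_mod_cast hnn1 t
    have h1 : (nn t : ℝ) ≤ x ^ 2 := by rw [← hMx]; exact_mod_cast hnnM t ht
    have h2 : Real.log (nn t) ≤ 2 * l := by
      calc Real.log (nn t) ≤ Real.log (x ^ 2) := Real.log_le_log h0 h1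
        _ = 2 * l := by rw [Real.log_pow]; push_cast; ring
    have h3 : 0 ≤ Real.log (nn t) := Real.log_nonneg (by exact_mod_cast hnn1 t)
    calc (nn t : ℝ) * (1 + Real.log (nn t)) ≤ x ^ 2 * (1 + Real.log (nn t)) :=
          mul_le_mul_of_nonneg_right h1 (by linarith)
      _ ≤ _ := mul_le_mul_of_nonneg_left (by linarith) (by positivity)
  have hQt : ∀ t ∈ Finset.Icc t0 t1, (36 : ℝ) * t * T ≤ 2 ^ T := by
    intro t ht
    have h1 := (hI t ht).2.2
    -- 36 t T * (2304 (c+1)) = 36 t * β x^3 l <= 36 x^5 l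
    have h2 : (36 : ℝ) * t * T * (2304 * (c + 1)) = 36 * (β * t) * x ^ 3 * l := by
      calc (36 : ℝ) * t * T * (2304 * (c + 1)) = 36 * t * (2304 * (c + 1) * T) := by ring
        _ = 36 * t * (β * x ^ 3 * l) := by rw [hβx]
        _ = _ := by ring
    have h3 : 36 * (β * t) * x ^ 3 * l ≤ 36 * x ^ 2 * x ^ 3 * l := by
      have : β * t ≤ x ^ 2 := by linarith
      have hh : 0 ≤ x ^ 3 * l := by positivity
      nlinarith
    have h4 : 36 * x ^ 2 * x ^ 3 * l ≤ x ^ 6 := by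
      have : 36 * l ≤ x := by linarith
      calc 36 * x ^ 2 * x ^ 3 * l = x ^ 5 * (36 * l) := by ring
        _ ≤ x ^ 5 * x := mul_le_mul_of_nonneg_left this (by positivity)
        _ = x ^ 6 := by ring
    have h5 : (36 : ℝ) * t * T ≤ 36 * t * T * (2304 * (c + 1)) := by
      have : 0 ≤ (36 : ℝ) * t * T := by positivity
      nlinarith
    rw [h2Tx]
    linarith
  have hT1 : 1 ≤ T := by omega
  have hK1 : 1 ≤ K := Nat.one_le_iff_ne_zero.mpr (by positivity)
  have hfar : ∀ t ∈ Finset.Icc t0 t1, (c + 1) * (72 * t * T * K) <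
      K * (((4 : ℝ) ^ (B + 1)) ^ 3 / 16 * ∑ r ∈ range M, (alpha (nn t) r : ℝ)) := by
    intro t ht
    have h1 := hsum_lo t ht
    have h2 := hnn_lo t
    have hKpos : (0 : ℝ) < K := by exact_mod_cast hK1
    have h3 : (c + 1) * (72 * t * T) < x ^ 3 / 16 * ((nn t : ℝ) * l / 2) := by
      have h4 : (c + 1) * (72 * t * T) = x ^ 3 / 16 * (β * t * l / 2) := by
        calc (c + 1) * (72 * t * T) = (2304 * (c + 1) * T) * t / 32 := by ring
          _ = (β * x ^ 3 * l) * t / 32 := by rw [hβx]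
          _ = _ := by ring
      rw [h4]
      have hx3 : 0 < x ^ 3 / 16 := by positivity
      apply mul_lt_mul_of_pos_left _ hx3
      nlinarith
    calc (c + 1) * (72 * t * T * K) = K * ((c + 1) * (72 * t * T)) := by ring
      _ < K * (x ^ 3 / 16 * ((nn t : ℝ) * l / 2)) := mul_lt_mul_of_pos_left h3 hKpos
      _ ≤ _ := by
        apply mul_le_mul_of_nonneg_left _ hKpos.le
        apply mul_le_mul_of_nonneg_left h1 (by positivity)
  have hwrap : ∀ t ∈ Finset.Icc t0 t1,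
      36 * (((4 : ℝ) ^ (B + 1)) ^ 3 / 4 * ∑ r ∈ range M, (alpha (nn t) r : ℝ)) ≤ 2 ^ T := by
    intro t ht
    have h1 := hsum_hi t ht
    rw [h2Tx]
    calc 36 * (x ^ 3 / 4 * ∑ r ∈ range M, (alpha (nn t) r : ℝ))
        ≤ 36 * (x ^ 3 / 4 * (x ^ 2 * (1 + 2 * l))) := by
          apply mul_le_mul_of_nonneg_left _ (by norm_num)
          exact mul_le_mul_of_nonneg_left h1 (by positivity)
      _ = x ^ 5 * (9 * (1 + 2 * l)) := by ring
      _ ≤ x ^ 5 * x := mul_le_mul_of_nonneg_left (by linarith) (by positivity)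
      _ = x ^ 6 := by ring
  have hg' : 2 * K * (M * 4 ^ (B + 1)) ≤ g := hg
  have hQK : 2 ^ T ≤ K * K := h2T.le
  have hM1 : 1 ≤ M := hMpos
  have hN1 : 1 ≤ 4 ^ (B + 1) := Nat.one_le_pow _ _ (by norm_num)
  have hB1 : 1 ≤ B := by omega
  have key := average (g := g) (s := s)
    (wU M (4 ^ (B + 1)) T) (fun y => red (2 ^ T) (VU y)) wU_nonneg (wU_sum_le _ _ _)
    (fun _ => wV M (4 ^ (B + 1)) B) (fun t k => red (2 ^ T) (VV (nn t) k))
    (fun _ k => wV_nonneg k) (fun _ => wV_sum _ _ _ hM1 hB1)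
    (fun t => 512 * Real.pi * (nn t) * ((4 : ℝ) ^ (B + 1)) ^ 3 / B) (Finset.Icc t0 t1)
    (by
      intro t ht
      have h0 : (0 : ℝ) < nn t := by exact_mod_cast hnn1 t
      have := Real.pi_pos
      positivity)
    (fun t _ F => compare M B (nn t) T hB1 F)
    (enc hg') (fun t => 72 * t * T * K) c hc
    (fun t y z => nearF hg' (72 * t * T * K) y z)
    (fun t y z => farF hg' (c * (72 * t * T * K)) y z)
    (by
      intro t y z
      unfold nearF
      split_ifs with h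
      · exact Or.inr ⟨rfl, h⟩
      · exact Or.inl rfl)
    (by
      intro t y z
      unfold farF
      split_ifs with h
      · exact Or.inr ⟨rfl, h⟩
      · exact Or.inl rfl)
    (fun t ht => near_count hg' hQK hM1 hN1 hK1 hT1 t (hI t ht).1 (hQt t ht))
    (fun t ht => far_count hg' hQK hB1 hK1 hT1 t (hI t ht).1 (hQt t ht) c hc
      (hfar t ht) (hwrap t ht))
    P L E hmeas hprob
  -- lower bound for the sum
  have hBpos : (0 : ℝ) < B := by linarith
  have hpi := Real.pi_pos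
  have hterm : ∀ t ∈ Finset.Icc t0 t1,
      (B / (1024 * Real.pi * β * x ^ 3)) * (1 / (t : ℝ)) ≤
        1 / (512 * Real.pi * (nn t) * ((4 : ℝ) ^ (B + 1)) ^ 3 / B) := by
    intro t ht
    have h1 := hnn_hi t ht
    have h2 := (hI t ht).2.1
    have h0 : (0 : ℝ) < nn t := by exact_mod_cast hnn1 t
    have htpos : (0 : ℝ) < t := by exact_mod_cast (hI t ht).1
    have h3 : (nn t : ℝ) ≤ 2 * (β * t) := by linarith
    have e1 : (B / (1024 * Real.pi * β * x ^ 3)) * (1 / (t : ℝ))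
        = B / (512 * Real.pi * (2 * (β * t)) * x ^ 3) := by
      rw [div_mul_div_comm]; congr 1 <;> ring
    have e2 : 1 / (512 * Real.pi * (nn t) * ((4 : ℝ) ^ (B + 1)) ^ 3 / B)
        = B / (512 * Real.pi * (nn t) * x ^ 3) := by
      rw [one_div_div]
    rw [e1, e2]
    apply div_le_div_of_nonneg_left hBpos.le (by positivity)
    apply mul_le_mul_of_nonneg_right _ (by positivity)
    exact mul_le_mul_of_nonneg_left h3 (by positivity)
  have hharm := harmonic_Icc t0 t1 ht0pos ht01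
  have hlogge : B * Real.log 4 ≤ Real.log (((t1 : ℝ) + 1) / t0) := by
    have e : (B : ℝ) * Real.log 4 = Real.log ((4 : ℝ) ^ B) := by rw [Real.log_pow]
    rw [e]
    apply Real.log_le_log (by positivity)
    have ht0p : (0 : ℝ) < t0 := by exact_mod_cast ht0pos
    rw [le_div_iff₀ ht0p]
    have hx4 : (4 : ℝ) ^ B * 4 = x := by rw [hxdef, pow_succ]
    have h4B : (4 : ℝ) ^ B ≤ x - 1 := by
      have : (4 : ℝ) ^ B = x / 4 := by linarith
      rw [this]; linarith
    calc (4 : ℝ) ^ B * t0 ≤ (x - 1) * ((x + 1) / β) :=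
          mul_le_mul h4B ht0le ht0p.le (by linarith)
      _ = (x ^ 2 - 1) / β := by ring
      _ ≤ (t1 : ℝ) + 1 := ht1ge.le
  have hsumge : (B / (1024 * Real.pi * β * x ^ 3)) * (B * Real.log 4)
      ≤ 256 * (s : ℝ) * Real.log 2 := by
    calc (B / (1024 * Real.pi * β * x ^ 3)) * (B * Real.log 4)
        ≤ (B / (1024 * Real.pi * β * x ^ 3)) * ∑ t ∈ Finset.Icc t0 t1, 1 / (t : ℝ) := by
          apply mul_le_mul_of_nonneg_left (hlogge.trans hharm) (by positivity)
      _ = ∑ t ∈ Finset.Icc t0 t1, (B / (1024 * Real.pi * β * x ^ 3)) * (1 / (t : ℝ)) := by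
          rw [Finset.mul_sum]
      _ ≤ _ := Finset.sum_le_sum hterm
      _ ≤ _ := key
  -- β x^3 = 27648 (c+1) / log 4
  have hlog4pos : 0 < Real.log 4 := by linarith
  have hβx3 : β * x ^ 3 * Real.log 4 = 27648 * (c + 1) := by
    have hBp : (0 : ℝ) < B + 1 := by positivity
    have h1 : β * x ^ 3 * ((B + 1) * Real.log 4) = 2304 * (c + 1) * (12 * (B + 1)) := by
      rw [← hl, ← hTx]; exact hβx
    have h2 : (β * x ^ 3 * Real.log 4) * ((B : ℝ) + 1) = (27648 * (c + 1)) * (B + 1) := by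
      linarith
    exact mul_right_cancel₀ hBp.ne' h2
  have hmain : (B : ℝ) ^ 2 * (Real.log 4) ^ 2 ≤
      256 * s * Real.log 2 * (1024 * Real.pi * (27648 * (c + 1))) := by
    have hden : 0 < 1024 * Real.pi * β * x ^ 3 := by positivity
    have h1 : (B : ℝ) * (B * Real.log 4) ≤
        256 * s * Real.log 2 * (1024 * Real.pi * β * x ^ 3) := by
      have h2 := hsumge
      rw [div_mul_eq_mul_div, div_le_iff₀ hden] at h2
      exact h2
    have h3 := mul_le_mul_of_nonneg_right h1 hlog4pos.le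
    calc (B : ℝ) ^ 2 * (Real.log 4) ^ 2 = (B * (B * Real.log 4)) * Real.log 4 := by ring
      _ ≤ (256 * s * Real.log 2 * (1024 * Real.pi * β * x ^ 3)) * Real.log 4 := h3
      _ = 256 * s * Real.log 2 * (1024 * Real.pi * (β * x ^ 3 * Real.log 4)) := by ring
      _ = _ := by rw [hβx3]
  have hlog2 : Real.log 2 ≤ 0.7 := by have := Real.log_two_lt_d9; linarith
  have hlog2pos : 0 < Real.log 2 := Real.log_pos (by norm_num)
  have hpi4 : Real.pi ≤ 3.15 := by have := Real.pi_lt_d2; linarith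
  have hs0 : (0 : ℝ) ≤ s := by positivity
  have hlog4sq : 1.9 ≤ (Real.log 4) ^ 2 := by nlinarith
  have hcs : 0 ≤ (s : ℝ) * (c + 1) := by positivity
  have h5 : 256 * s * Real.log 2 * (1024 * Real.pi * (27648 * (c + 1)))
      ≤ 256 * s * 0.7 * (1024 * 3.15 * (27648 * (c + 1))) := by
    have h6 : Real.log 2 * Real.pi ≤ 0.7 * 3.15 :=
      mul_le_mul hlog2 hpi4 hpi.le (by norm_num)
    calc 256 * s * Real.log 2 * (1024 * Real.pi * (27648 * (c + 1)))
        = (256 * 1024 * 27648) * (s * (c + 1)) * (Real.log 2 * Real.pi) := by ring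
      _ ≤ (256 * 1024 * 27648) * (s * (c + 1)) * (0.7 * 3.15) :=
          mul_le_mul_of_nonneg_left h6 (by positivity)
      _ = _ := by ring
  have h7 : (B : ℝ) ^ 2 * 1.9 ≤ (B : ℝ) ^ 2 * (Real.log 4) ^ 2 :=
    mul_le_mul_of_nonneg_left hlog4sq (by positivity)
  have h8 : (s : ℝ) * (c + 1) ≤ 2 * (c * s) := by nlinarith
  nlinarith

end Pool.Agent.EMD33
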