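import Pool.Agent.EMD33.Defs

set_option autoImplicit false

namespace Pool.Agent.EMD33

open Finset

variable {g : ℕ}

theorem dist1_nonneg (p q : Fin g × Fin g) : 0 ≤ dist1 p q := by
  unfold dist1; positivity

theorem dist1_comm (p q : Fin g × Fin g) : dist1 p q = dist1 q p := by
  unfold dist1
  rw [abs_sub_comm, abs_sub_comm (((p.2 : ℕ) : ℝ))]

theorem dist1_triangle (p q r : Fin g × Fin g) : dist1 p r ≤ dist1 p q + dist1 q r := by
  unfold dist1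
  have h1 := abs_sub_le (((p.1 : ℕ) : ℝ)) (((q.1 : ℕ) : ℝ)) (((r.1 : ℕ) : ℝ))
  have h2 := abs_sub_le (((p.2 : ℕ) : ℝ)) (((q.2 : ℕ) : ℝ)) (((r.2 : ℕ) : ℝ))
  linarith

theorem cost_nonneg {A B : Finset (Fin g × Fin g)} (π : ↥A ≃ ↥B) : 0 ≤ cost π := by
  unfold cost
  exact sum_nonneg fun a _ => dist1_nonneg _ _

/-- composition of bijections. -/
theorem cost_trans {A B C : Finset (Fin g × Fin g)} (π : ↥A ≃ ↥B) (σ : ↥B ≃ ↥C) :
    cost (π.trans σ) ≤ cost π + cost σ := by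
  have h1 : cost σ = ∑ a : ↥A, dist1 (π a).1 (σ (π a)).1 := by
    unfold cost
    exact (Equiv.sum_comp π (fun b : ↥B => dist1 b.1 (σ b).1)).symm
  rw [h1]
  unfold cost
  rw [← sum_add_distrib]
  exact sum_le_sum fun a _ => dist1_triangle _ _ _

theorem cost_symm {A B : Finset (Fin g × Fin g)} (π : ↥A ≃ ↥B) : cost π.symm = cost π := by
  have h1 : cost π.symm = ∑ a : ↥A, dist1 (π a).1 (π.symm (π a)).1 := by
    unfold cost
    exact (Equiv.sum_comp π (fun b : ↥B => dist1 b.1 (π.symm b).1)).symm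
  rw [h1]
  unfold cost
  refine sum_congr rfl fun a _ => ?_
  rw [Equiv.symm_apply_apply, dist1_comm]

private theorem inf_nonneg_mt (A B : Finset (Fin g × Fin g)) : 0 ≤ ⨅ π : ↥A ≃ ↥B, cost π :=
  Real.iInf_nonneg fun π => cost_nonneg π

private theorem inf_le_mt {A B : Finset (Fin g × Fin g)} (π : ↥A ≃ ↥B) :
    (⨅ π : ↥A ≃ ↥B, cost π) ≤ cost π :=
  ciInf_le ⟨0, by rintro _ ⟨π, rfl⟩; exact cost_nonneg π⟩ π

private theorem inf_att_mt {A B : Finset (Fin g × Fin g)} (h : Nonempty (↥A ≃ ↥B)) :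
    ∃ π : ↥A ≃ ↥B, cost π = ⨅ π : ↥A ≃ ↥B, cost π := by
  haveI := h
  haveI : Finite (↥A ≃ ↥B) := inferInstance
  exact exists_eq_ciInf_of_finite

private theorem trunc_pos_mt {Λ : ℝ} {A B : Finset (Fin g × Fin g)} (h : Nonempty (↥A ≃ ↥B)) :
    trunc Λ A B = min 1 ((⨅ π : ↥A ≃ ↥B, cost π) / Λ) := by
  unfold trunc
  rw [if_pos h]

private theorem trunc_neg_mt {Λ : ℝ} {A B : Finset (Fin g × Fin g)} (h : ¬ Nonempty (↥A ≃ ↥B)) :
    trunc Λ A B = 1 := by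
  unfold trunc
  rw [if_neg h]

theorem trunc_nonneg {Λ : ℝ} (hΛ : 0 < Λ) (A B : Finset (Fin g × Fin g)) :
    0 ≤ trunc Λ A B := by
  by_cases h : Nonempty (↥A ≃ ↥B)
  · rw [trunc_pos_mt h]
    exact le_min zero_le_one (div_nonneg (inf_nonneg_mt A B) hΛ.le)
  · rw [trunc_neg_mt h]
    exact zero_le_one

theorem trunc_le_one {Λ : ℝ} (A B : Finset (Fin g × Fin g)) : trunc Λ A B ≤ 1 := by
  by_cases h : Nonempty (↥A ≃ ↥B)
  · rw [trunc_pos_mt h]
    exact min_le_left _ _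
  · rw [trunc_neg_mt h]

theorem trunc_self {Λ : ℝ} (hΛ : 0 < Λ) (A : Finset (Fin g × Fin g)) : trunc Λ A A = 0 := by
  have h : Nonempty (↥A ≃ ↥A) := ⟨Equiv.refl _⟩
  rw [trunc_pos_mt h]
  have h1 : cost (Equiv.refl ↥A) = 0 := by
    unfold cost dist1
    simp
  have h2 := inf_le_mt (Equiv.refl ↥A)
  rw [h1] at h2
  have h3 := inf_nonneg_mt A A
  have h4 : (⨅ π : ↥A ≃ ↥A, cost π) = 0 := le_antisymm h2 h3
  rw [h4, zero_div]
  exact min_eq_right zero_le_one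

theorem trunc_triangle {Λ : ℝ} (hΛ : 0 < Λ) (A B C : Finset (Fin g × Fin g)) :
    trunc Λ A C ≤ trunc Λ A B + trunc Λ B C := by
  have h1 := trunc_nonneg hΛ A B
  have h2 := trunc_nonneg hΛ B C
  have h3 := trunc_le_one (Λ := Λ) A C
  by_cases hAB : Nonempty (↥A ≃ ↥B)
  · by_cases hBC : Nonempty (↥B ≃ ↥C)
    · obtain ⟨π, hπ⟩ := inf_att_mt hAB
      obtain ⟨σ, hσ⟩ := inf_att_mt hBC
      have hAC : Nonempty (↥A ≃ ↥C) := ⟨π.trans σ⟩
      rw [trunc_pos_mt hAB, trunc_pos_mt hBC, trunc_pos_mt hAC, ← hπ, ← hσ]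
      have h4 := (inf_le_mt (π.trans σ)).trans (cost_trans π σ)
      have h5 : (⨅ π : ↥A ≃ ↥C, cost π) / Λ ≤ cost π / Λ + cost σ / Λ := by
        rw [← add_div]
        gcongr
      have h6 : 0 ≤ cost π / Λ := div_nonneg (cost_nonneg _) hΛ.le
      have h7 : 0 ≤ cost σ / Λ := div_nonneg (cost_nonneg _) hΛ.le
      rcases le_total 1 (cost π / Λ) with h8 | h8
      · rw [min_eq_left h8]
        have h9 : 0 ≤ min 1 (cost σ / Λ) := le_min zero_le_one h7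
        have h10 := min_le_left 1 ((⨅ π : ↥A ≃ ↥C, cost π) / Λ)
        linarith
      · rw [min_eq_right h8]
        rcases le_total 1 (cost σ / Λ) with h9 | h9
        · rw [min_eq_left h9]
          have h10 := min_le_left 1 ((⨅ π : ↥A ≃ ↥C, cost π) / Λ)
          linarith
        · rw [min_eq_right h9]
          exact (min_le_right _ _).trans h5
    · rw [trunc_neg_mt hBC]
      linarith
  · rw [trunc_neg_mt hAB]
    linarith

theorem trunc_le_of_near {Λ c : ℝ} (hΛ : 0 < Λ) {A B : Finset (Fin g × Fin g)}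
    (h : Near c A B) : trunc Λ A B ≤ c / Λ := by
  obtain ⟨π, hπ⟩ := h
  rw [trunc_pos_mt ⟨π⟩]
  refine (min_le_right _ _).trans ?_
  have := (inf_le_mt π).trans hπ
  gcongr

/-- the minimum over the bijections is attained. -/
theorem near_of_trunc_lt {Λ : ℝ} (hΛ : 0 < Λ) {A B : Finset (Fin g × Fin g)}
    (h : trunc Λ A B < 1) : Near Λ A B := by
  by_cases hAB : Nonempty (↥A ≃ ↥B)
  · rw [trunc_pos_mt hAB] at h
    obtain ⟨π, hπ⟩ := inf_att_mt hAB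
    rw [← hπ] at h
    refine ⟨π, ?_⟩
    rcases min_lt_iff.mp h with h1 | h1
    · exact absurd h1 (lt_irrefl _)
    · rw [div_lt_one hΛ] at h1
      exact h1.le
  · rw [trunc_neg_mt hAB] at h
    exact absurd h (lt_irrefl _)

/-- Exchange lemma: if `A \ B` and `B \ A` have the same size `k` and diameter at most `D`. -/
theorem near_of_sdiff {A B : Finset (Fin g × Fin g)} (D : ℝ) (hD : 0 ≤ D)
    (hcard : (A \ B).card = (B \ A).card)
    (h : ∀ p ∈ A \ B, ∀ q ∈ B \ A, dist1 p q ≤ D) :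
    Near (((A \ B).card : ℝ) * D) A B := by
  classical
  obtain ⟨e⟩ : Nonempty (↥(A \ B) ≃ ↥(B \ A)) := ⟨Finset.equivOfCardEq hcard⟩
  have hto : ∀ a : ↥A, (a : Fin g × Fin g) ∉ B → (a : Fin g × Fin g) ∈ A \ B :=
    fun a ha => mem_sdiff.mpr ⟨a.2, ha⟩
  have hinv : ∀ b : ↥B, (b : Fin g × Fin g) ∉ A → (b : Fin g × Fin g) ∈ B \ A :=
    fun b hb => mem_sdiff.mpr ⟨b.2, hb⟩
  obtain ⟨F, hF⟩ : ∃ F : ↥A → ↥B, F = fun (a : ↥A) =>
      if h : (a : Fin g × Fin g) ∈ B then (⟨a.1, h⟩ : ↥B)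
      else (⟨(e ⟨a.1, hto a h⟩).1, (mem_sdiff.mp (e ⟨a.1, hto a h⟩).2).1⟩ : ↥B) := ⟨_, rfl⟩
  obtain ⟨F', hF'⟩ : ∃ F' : ↥B → ↥A, F' = fun (b : ↥B) =>
      if h : (b : Fin g × Fin g) ∈ A then (⟨b.1, h⟩ : ↥A)
      else (⟨(e.symm ⟨b.1, hinv b h⟩).1, (mem_sdiff.mp (e.symm ⟨b.1, hinv b h⟩).2).1⟩ : ↥A) := ⟨_, rfl⟩
  have hFpos : ∀ (a : ↥A) (h : (a : Fin g × Fin g) ∈ B), F a = ⟨a.1, h⟩ := by
    intro a h
    rw [hF]
    dsimp only
    rw [dif_pos h]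
  have hFneg : ∀ (a : ↥A) (h : (a : Fin g × Fin g) ∉ B),
      F a = ⟨(e ⟨a.1, hto a h⟩).1, (mem_sdiff.mp (e ⟨a.1, hto a h⟩).2).1⟩ := by
    intro a h
    rw [hF]
    dsimp only
    rw [dif_neg h]
  have hFpos' : ∀ (b : ↥B) (h : (b : Fin g × Fin g) ∈ A), F' b = ⟨b.1, h⟩ := by
    intro b h
    rw [hF']
    dsimp only
    rw [dif_pos h]
  have hFneg' : ∀ (b : ↥B) (h : (b : Fin g × Fin g) ∉ A),
      F' b = ⟨(e.symm ⟨b.1, hinv b h⟩).1, (mem_sdiff.mp (e.symm ⟨b.1, hinv b h⟩).2).1⟩ := by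
    intro b h
    rw [hF']
    dsimp only
    rw [dif_neg h]
  have hl : Function.LeftInverse F' F := by
    intro a
    by_cases h : (a : Fin g × Fin g) ∈ B
    · rw [hFpos a h, hFpos' _ a.2]
    · rw [hFneg a h]
      have h2 : ((e ⟨a.1, hto a h⟩ : ↥(B \ A)) : Fin g × Fin g) ∉ A :=
        (mem_sdiff.mp (e ⟨a.1, hto a h⟩).2).2
      rw [hFneg' _ h2]
      apply Subtype.ext
      dsimp only
      rw [Subtype.coe_eta, Equiv.symm_apply_apply]
  have hr : Function.RightInverse F' F := by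
    intro b
    by_cases h : (b : Fin g × Fin g) ∈ A
    · rw [hFpos' b h, hFpos _ b.2]
    · rw [hFneg' b h]
      have h2 : ((e.symm ⟨b.1, hinv b h⟩ : ↥(A \ B)) : Fin g × Fin g) ∉ B :=
        (mem_sdiff.mp (e.symm ⟨b.1, hinv b h⟩).2).2
      rw [hFneg _ h2]
      apply Subtype.ext
      dsimp only
      rw [Subtype.coe_eta, Equiv.apply_symm_apply]
  refine ⟨⟨F, F', hl, hr⟩, ?_⟩
  unfold cost
  have h1 : ∀ a : ↥A, dist1 a.1 ((⟨F, F', hl, hr⟩ : ↥A ≃ ↥B) a).1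
      ≤ if (a : Fin g × Fin g) ∈ B then 0 else D := by
    intro a
    have h2 : ((⟨F, F', hl, hr⟩ : ↥A ≃ ↥B) a) = F a := rfl
    rw [h2]
    by_cases hb : (a : Fin g × Fin g) ∈ B
    · rw [if_pos hb, hFpos a hb]
      unfold dist1
      simp
    · rw [if_neg hb, hFneg a hb]
      exact h a.1 (hto a hb) _ (e ⟨a.1, hto a hb⟩).2
  refine (sum_le_sum fun a _ => h1 a).trans ?_
  rw [Finset.sum_coe_sort A (fun a => if a ∈ B then (0 : ℝ) else D)]
  rw [Finset.sum_ite, sum_const_zero, zero_add, sum_const, nsmul_eq_mul, Finset.filter_notMem_eq_sdiff]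

/-- Lipschitz lower bound. -/
theorem cost_ge_of_lipschitz {A B : Finset (Fin g × Fin g)} (π : ↥A ≃ ↥B)
    (G : Fin g × Fin g → ℝ) (hG : ∀ p ∈ A, ∀ q ∈ B, G p - G q ≤ dist1 p q) :
    ∑ p ∈ A, G p - ∑ q ∈ B, G q ≤ cost π := by
  have h1 : ∑ q ∈ B, G q = ∑ a : ↥A, G (π a).1 := by
    rw [← Finset.sum_coe_sort B G]
    exact (Equiv.sum_comp π (fun b : ↥B => G b.1)).symm
  rw [h1, ← Finset.sum_coe_sort A G, ← sum_sub_distrib]
  unfold cost
  exact sum_le_sum fun a _ => hG a.1 a.2 _ (π a).2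

/-- Far from a near set. -/
theorem far_of_near {A B C : Finset (Fin g × Fin g)} {Λ Γ c : ℝ} (h : Near Λ A B)
    (hcard : B.card = C.card) (hBC : ∀ π : ↥B ≃ ↥C, Γ ≤ cost π) (hc : (c + 1) * Λ < Γ) :
    Far (c * Λ) A C := by
  obtain ⟨π, hπ⟩ := h
  have h1 : A.card = B.card := by
    have := Fintype.card_congr π
    simpa using this
  refine ⟨h1.trans hcard, fun σ => ?_⟩
  have h2 := hBC (π.symm.trans σ)
  have h3 := cost_trans π.symm σ
  rw [cost_symm] at h3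
  nlinarith

end Pool.Agent.EMD33
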