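import Pool.Agent.EMD33.Defs

set_option autoImplicit false

namespace Pool.Agent.EMD33

open Finset

/-- sum of the circular distances over all edges. -/
noncomputable def ndSum {M N Q : ℕ} (ψ : Site M N → ZMod Q) : ℝ :=
  ∑ e : Fin M × Bool × Fin N × Fin N,
    (nd (ψ (e.1, nxt e.2.1 e.2.2) - ψ (e.1, e.2.2)) : ℝ)

end Pool.Agent.EMD33
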