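import Pool.Agent.EMD33.Pattern

set_option autoImplicit false

namespace Pool.Agent.EMD33

open Finset

private lemma sum_ind {S : Type*} [Fintype S] [DecidableEq S] (a : S) :
    ∑ s : S, (if s = a then (1 : ℤ) else 0) = 1 := by
  rw [sum_ite_eq' univ a]
  simp

theorem VU_sum {M N T : ℕ} (x : IU M N T) : ∑ s, VU x s = 0 := by
  unfold VU dip
  rw [← mul_sum, sum_sub_distrib, sum_ind, sum_ind, sub_self, mul_zero]

theorem VU_abs_sum {M N T : ℕ} (x : IU M N T) :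
    ∑ s, |(VU x s : ℝ)| ≤ 2 * (2 : ℝ) ^ (x.2 : ℕ) := by
  have h1 : ∀ s : Site M N, |(VU x s : ℝ)| ≤ (2 : ℝ) ^ (x.2 : ℕ) *
      (((if s = (x.1.1, nxt x.1.2.1 x.1.2.2) then (1 : ℤ) else 0 : ℤ) : ℝ) +
        ((if s = (x.1.1, x.1.2.2) then (1 : ℤ) else 0 : ℤ) : ℝ)) := by
    intro s
    unfold VU dip
    push_cast
    rw [abs_mul, abs_of_nonneg (by positivity : (0 : ℝ) ≤ 2 ^ (x.2 : ℕ))]
    apply mul_le_mul_of_nonneg_left _ (by positivity)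
    split_ifs <;> norm_num
  refine (sum_le_sum fun s _ => h1 s).trans (le_of_eq ?_)
  rw [← mul_sum, sum_add_distrib, ← Int.cast_sum, ← Int.cast_sum, sum_ind, sum_ind]
  push_cast
  ring

private lemma wave_sum {N : ℕ} (h : ℕ) (hh : 1 ≤ h) (hd : 2 * h ∣ N) (ε : Fin N × Fin N → Bool) :
    ∑ a, waveZ h ε a = 0 := by
  unfold waveZ
  have h1 : ∀ a : Fin N × Fin N, ((N / h : ℕ) : ℤ) * sg (ε (cell h a)) * sgnH h a =
      ∑ q : Fin N × Fin N, ((N / h : ℕ) : ℤ) * sg (ε q) * (if cell h a = q then sgnH h a else 0) := by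
    intro a
    rw [sum_eq_single (cell h a)]
    · rw [if_pos rfl]
    · intro b _ hb
      rw [if_neg (Ne.symm hb), mul_zero]
    · intro h; exact absurd (mem_univ _) h
  rw [sum_congr rfl fun a _ => h1 a, sum_comm]
  apply sum_eq_zero
  intro q _
  rw [← mul_sum, sgn_cell_sum h hh hd q, mul_zero]

private lemma dvd_pow {B k : ℕ} (hk : k < B) : 2 * 4 ^ (k + 1) ∣ 4 ^ (B + 1) := by
  obtain ⟨d, rfl⟩ := Nat.exists_eq_add_of_lt hk
  refine ⟨2 * 4 ^ d, ?_⟩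
  have : k + d + 1 + 1 = (k + 1) + 1 + d := by ring
  rw [this, pow_add, pow_succ]
  ring

theorem VV_sum {M B n : ℕ} (x : IV M (4 ^ (B + 1)) B) : ∑ s, VV n x s = 0 := by
  unfold VV
  rw [Fintype.sum_prod_type]
  apply sum_eq_zero
  intro m _
  show ∑ y : Fin (4 ^ (B + 1)) × Fin (4 ^ (B + 1)), (alpha n ((m + x.1 : Fin M) : ℕ) : ℤ) *
    waveZ (4 ^ ((x.2.1 : ℕ) + 1)) (fun q => x.2.2 (m, q)) y = 0
  rw [← mul_sum, wave_sum _ (Nat.one_le_pow _ _ (by norm_num)) (dvd_pow x.2.1.2), mul_zero]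

private lemma wave_abs {N : ℕ} (h : ℕ) (ε : Fin N × Fin N → Bool) (a : Fin N × Fin N) :
    |(waveZ h ε a : ℝ)| = ((N / h : ℕ) : ℝ) := by
  unfold waveZ
  rw [Int.cast_mul, Int.cast_mul, Int.cast_natCast]
  have h1 : |((sg (ε (cell h a)) : ℤ) : ℝ)| = 1 := by
    unfold sg; split_ifs <;> norm_num
  have h2 : |((sgnH h a : ℤ) : ℝ)| = 1 := by
    unfold sgnH; split_ifs <;> norm_num
  rw [abs_mul, abs_mul, h1, h2, mul_one, mul_one, abs_of_nonneg (Nat.cast_nonneg _)]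

theorem VV_abs_sum {M B n : ℕ} [NeZero M] (x : IV M (4 ^ (B + 1)) B) :
    ∑ s, |(VV n x s : ℝ)| ≤ ((4 : ℝ) ^ (B + 1)) ^ 3 / 4 * ∑ r ∈ range M, (alpha n r : ℝ) := by
  have h1 : ∀ s : Site M (4 ^ (B + 1)), |(VV n x s : ℝ)| ≤
      (alpha n ((s.1 + x.1 : Fin M) : ℕ) : ℝ) * (((4 : ℝ) ^ (B + 1)) / 4) := by
    intro s
    unfold VV
    push_cast
    rw [abs_mul, wave_abs, abs_of_nonneg (Nat.cast_nonneg _)]
    apply mul_le_mul_of_nonneg_left _ (Nat.cast_nonneg _)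
    have h2 : (4 ^ (B + 1) / 4 ^ ((x.2.1 : ℕ) + 1) : ℕ) ≤ 4 ^ (B + 1) / 4 := by
      apply Nat.div_le_div_left _ (by norm_num)
      calc 4 = 4 ^ 1 := by norm_num
        _ ≤ 4 ^ ((x.2.1 : ℕ) + 1) := Nat.pow_le_pow_right (by norm_num) (by omega)
    have h3 : (((4 ^ (B + 1) / 4 ^ ((x.2.1 : ℕ) + 1) : ℕ) : ℕ) : ℝ) ≤ ((4 ^ (B + 1) / 4 : ℕ) : ℝ) := by
      exact_mod_cast h2
    refine h3.trans ?_
    have h4 : ((4 ^ (B + 1) / 4 : ℕ) : ℝ) ≤ ((4 ^ (B + 1) : ℕ) : ℝ) / ((4 : ℕ) : ℝ) := Nat.cast_div_le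
    push_cast at h4
    exact h4
  refine (sum_le_sum fun s _ => h1 s).trans (le_of_eq ?_)
  rw [Fintype.sum_prod_type]
  have h5 : ∀ m : Fin M, ∑ _a : Fin (4 ^ (B + 1)) × Fin (4 ^ (B + 1)),
      (alpha n ((m + x.1 : Fin M) : ℕ) : ℝ) * (((4 : ℝ) ^ (B + 1)) / 4) =
      ((4 : ℝ) ^ (B + 1)) ^ 3 / 4 * (alpha n ((m + x.1 : Fin M) : ℕ) : ℝ) := by
    intro m
    rw [sum_const, card_univ, Fintype.card_prod, Fintype.card_fin, nsmul_eq_mul]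
    push_cast
    ring
  rw [sum_congr rfl fun m _ => h5 m, ← mul_sum]
  congr 1
  rw [← Fin.sum_univ_eq_sum_range (fun r => (alpha n r : ℝ)) M]
  exact Fintype.sum_equiv (Equiv.addRight x.1) _ _ (fun m => rfl)

end Pool.Agent.EMD33
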