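import Pool.Agent.EMD33.Defs

set_option autoImplicit false

namespace Pool.Agent.EMD33

open Finset

theorem wU_nonneg {M N T : ℕ} (x : IU M N T) : 0 ≤ wU M N T x := by
  unfold wU
  positivity

private lemma card_edges (M N : ℕ) : (Fintype.card (Fin M × Bool × Fin N × Fin N) : ℝ) =
    2 * (M : ℝ) * (N : ℝ) ^ 2 := by
  rw [Fintype.card_prod, Fintype.card_prod, Fintype.card_prod, Fintype.card_bool, Fintype.card_fin,
    Fintype.card_fin]
  push_cast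
  ring

theorem wU_sum_le (M N T : ℕ) : ∑ x, wU M N T x ≤ 1 / 2 := by
  unfold wU
  rw [Fintype.sum_prod_type]
  have h1 : ∀ e : Fin M × Bool × Fin N × Fin N, ∑ t : Fin T,
      (1 / 2 : ℝ) * (1 / (2 * (M : ℝ) * (N : ℝ) ^ 2)) * (1 / 2) ^ ((t : ℕ) + 1) ≤
      (1 / 2 : ℝ) * (1 / (2 * (M : ℝ) * (N : ℝ) ^ 2)) := by
    intro e
    rw [← mul_sum, Fin.sum_univ_eq_sum_range (fun t => (1 / 2 : ℝ) ^ (t + 1)) T]
    have h2 : ∑ t ∈ range T, (1 / 2 : ℝ) ^ (t + 1) = 1 - (1 / 2) ^ T := by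
      induction T with
      | zero => simp
      | succ k ih => rw [sum_range_succ, ih]; ring
    rw [h2]
    have h3 : (0 : ℝ) ≤ (1 / 2) ^ T := by positivity
    have h4 : (0 : ℝ) ≤ (1 / 2 : ℝ) * (1 / (2 * (M : ℝ) * (N : ℝ) ^ 2)) := by positivity
    nlinarith
  refine (sum_le_sum fun e _ => h1 e).trans ?_
  rw [sum_const, card_univ, nsmul_eq_mul, card_edges]
  rcases Nat.eq_zero_or_pos M with hM | hM
  · subst hM; norm_num
  · rcases Nat.eq_zero_or_pos N with hN | hN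
    · subst hN; norm_num
    · have hM' : (M : ℝ) ≠ 0 := by exact_mod_cast hM.ne'
      have hN' : (N : ℝ) ≠ 0 := by exact_mod_cast hN.ne'
      apply le_of_eq
      field_simp

/-- `sum of weight * amplitude`. -/
theorem wU_amp (M N T : ℕ) (hM : 1 ≤ M) (hN : 1 ≤ N) :
    ∑ x : IU M N T, wU M N T x * (2 : ℝ) ^ (x.2 : ℕ) = (T : ℝ) / 4 := by
  unfold wU
  have hM' : (M : ℝ) ≠ 0 := by exact_mod_cast (by omega : M ≠ 0)
  have hN' : (N : ℝ) ≠ 0 := by exact_mod_cast (by omega : N ≠ 0)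
  have h1 : ∀ x : IU M N T, (1 / 2 : ℝ) * (1 / (2 * (M : ℝ) * (N : ℝ) ^ 2)) * (1 / 2) ^ ((x.2 : ℕ) + 1) *
      (2 : ℝ) ^ (x.2 : ℕ) = (1 / 4) * (1 / (2 * (M : ℝ) * (N : ℝ) ^ 2)) := by
    intro x
    have h2 : (1 / 2 : ℝ) ^ ((x.2 : ℕ) + 1) * (2 : ℝ) ^ (x.2 : ℕ) = 1 / 2 := by
      rw [pow_succ, mul_assoc, mul_comm (1 / 2 : ℝ) ((2 : ℝ) ^ (x.2 : ℕ)), ← mul_assoc, ← mul_pow]
      norm_num
    rw [mul_assoc, h2]
    ring
  rw [sum_congr rfl fun x _ => h1 x, sum_const, card_univ, nsmul_eq_mul]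
  have h3 : (Fintype.card (IU M N T) : ℝ) = (2 * (M : ℝ) * (N : ℝ) ^ 2) * T := by
    unfold IU
    rw [Fintype.card_prod, Nat.cast_mul, card_edges, Fintype.card_fin]
  rw [h3]
  field_simp

theorem wV_nonneg {M N B : ℕ} (x : IV M N B) : 0 ≤ wV M N B x := by
  unfold wV
  positivity

theorem wV_sum (M N B : ℕ) (hM : 1 ≤ M) (hB : 1 ≤ B) : ∑ x, wV M N B x = 1 := by
  unfold wV
  rw [sum_const, card_univ, nsmul_eq_mul]
  have hM' : (M : ℝ) ≠ 0 := by exact_mod_cast (by omega : M ≠ 0)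
  have hB' : (B : ℝ) ≠ 0 := by exact_mod_cast (by omega : B ≠ 0)
  have h3 : (Fintype.card (IV M N B) : ℝ) = (M : ℝ) * (B : ℝ) * 2 ^ (M * (N * N)) := by
    unfold IV Site
    rw [Fintype.card_prod, Fintype.card_prod, Fintype.card_fun, Fintype.card_prod, Fintype.card_prod,
      Fintype.card_bool, Fintype.card_fin, Fintype.card_fin, Fintype.card_fin]
    push_cast
    ring
  rw [h3]
  have h4 : (2 : ℝ) ^ (M * (N * N)) ≠ 0 := by positivity
  field_simp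

end Pool.Agent.EMD33
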