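import Pool.Agent.EMD33.Walk
import Pool.Agent.EMD33.Weights
import Pool.Agent.EMD33.VSums
import Pool.Agent.EMD33.EncNear

set_option autoImplicit false

namespace Pool.Agent.EMD33

open Finset

/-- indicator of a near pair. -/
noncomputable def nearF {M N K g Q : ℕ} (hg : 2 * K * (M * N) ≤ g) (Λ : ℝ)
    (x z : Site M N → ZMod Q) : ℝ :=
  open Classical in if Near Λ (enc hg x) (enc hg z) then 1 else 0

/-- indicator of a far pair. -/
noncomputable def farF {M N K g Q : ℕ} (hg : 2 * K * (M * N) ≤ g) (Λ : ℝ)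
    (x z : Site M N → ZMod Q) : ℝ :=
  open Classical in if Far Λ (enc hg x) (enc hg z) then 1 else 0

/-- Most pairs along the walk are near.

Proof. `1 - nearF <= trunc Λ`, `walk_bound` for `D x z = trunc Λ (enc x) (enc z)`; one step:
`trunc <= 2^i * 4K / Λ` if `z` is safe for `VU x` (`enc_step_near`) and `<= 1` otherwise
(`unsafe_card`, `VU_abs_sum`); `Λ = 72 t T K`, so the total is
`t * (T K / Λ + T / (2 Q)) <= 1/72 + 1/72`. -/
theorem near_count {M N K g T : ℕ} (hg : 2 * K * (M * N) ≤ g) (hQ : 2 ^ T ≤ K * K)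
    (hM : 1 ≤ M) (hN : 1 ≤ N) (hK : 1 ≤ K) (hT : 1 ≤ T) (t : ℕ) (ht : 1 ≤ t)
    (hQt : (36 : ℝ) * t * T ≤ 2 ^ T) :
    (35 / 36 : ℝ) * Fintype.card (Site M N → ZMod (2 ^ T)) ≤
      ∑ z, (step (wU M N T) (fun x => red (2 ^ T) (VU x)))^[t]
        (fun x => nearF (Q := 2 ^ T) hg (72 * t * T * K) x z) z := by
  classical
  set Λ : ℝ := 72 * t * T * K with hΛd
  have ht0 : (0 : ℝ) < t := by exact_mod_cast ht
  have hT0 : (0 : ℝ) < T := by exact_mod_cast hT
  have hK0 : (0 : ℝ) < K := by exact_mod_cast hK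
  have hΛ : 0 < Λ := by rw [hΛd]; positivity
  have hQ0 : (0 : ℝ) < (2 : ℝ) ^ T := by positivity
  set w : IU M N T → ℝ := wU M N T with hw
  set v : IU M N T → (Site M N → ZMod (2 ^ T)) := fun x => red (2 ^ T) (VU x) with hv
  have hwn : ∀ i, 0 ≤ w i := fun i => wU_nonneg i
  have hws : ∑ i, w i ≤ 1 := (wU_sum_le M N T).trans (by norm_num)
  set D : (Site M N → ZMod (2 ^ T)) → (Site M N → ZMod (2 ^ T)) → ℝ :=
    fun x z => trunc Λ (enc hg x) (enc hg z) with hD
  have hD0 : ∀ x, D x x = 0 := fun x => trunc_self hΛ _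
  have hDt : ∀ x y z, D x z ≤ D x y + D y z := fun x y z => trunc_triangle hΛ _ _ _
  have hwalk := walk_bound w v hwn hws D hD0 hDt t
  set C : ℝ := (Fintype.card (Site M N → ZMod (2 ^ T)) : ℝ) with hC
  have hC0 : 0 ≤ C := Nat.cast_nonneg _
  -- pointwise comparison
  have hpt : ∀ z, 1 - (step w v)^[t] (fun x => D x z) z ≤
      (step w v)^[t] (fun x => nearF (Q := 2 ^ T) hg Λ x z) z := by
    intro z
    have h1 : ∀ x, (fun x => (fun _ => (1 : ℝ)) x + (fun x => (-1 : ℝ) * D x z) x) x ≤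
        (fun x => nearF (Q := 2 ^ T) hg Λ x z) x := by
      intro x
      show 1 + (-1 : ℝ) * D x z ≤ nearF (Q := 2 ^ T) hg Λ x z
      unfold nearF
      split_ifs with hn
      · have := trunc_nonneg hΛ (enc hg x) (enc hg z)
        simp only [hD]
        linarith
      · have h2 : ¬ trunc Λ (enc hg x) (enc hg z) < 1 := fun hh => hn (near_of_trunc_lt hΛ hh)
        simp only [hD]
        linarith
    have h2 := step_mono w v hwn hws t h1 z
    have h3 := step_add w v t (fun _ => (1 : ℝ)) (fun x => (-1 : ℝ) * D x z) z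
    rw [step_const, step_const_mul] at h3
    have h4 : (step w v)^[t] (fun x => (fun _ => (1 : ℝ)) x + (fun x => (-1 : ℝ) * D x z) x) z =
        1 + -1 * (step w v)^[t] (fun x => D x z) z := h3
    rw [h4] at h2
    linarith
  -- one step
  have hone : ∀ i : IU M N T, ∑ z, D (z + v i) z ≤
      C * ((2 : ℝ) ^ (i.2 : ℕ) * (4 * K) / Λ + 2 * (2 : ℝ) ^ (i.2 : ℕ) / 2 ^ T) := by
    intro i
    have h1 : ∀ z : Site M N → ZMod (2 ^ T), D (z + v i) z ≤
        (2 : ℝ) ^ (i.2 : ℕ) * (4 * K) / Λ + if ¬ Safe z (VU i) then 1 else 0 := by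
      intro z
      by_cases hs : Safe z (VU i)
      · have h2 := trunc_le_of_near hΛ (enc_step_near hg hQ z i hs)
        rw [if_neg (not_not.mpr hs), add_zero]
        exact h2
      · rw [if_pos hs]
        have h2 := trunc_le_one (Λ := Λ) (enc hg (z + v i)) (enc hg z)
        have h3 : 0 ≤ (2 : ℝ) ^ (i.2 : ℕ) * (4 * K) / Λ := by positivity
        show trunc Λ (enc hg (z + v i)) (enc hg z) ≤ _
        linarith
    have h2 : ∑ z, D (z + v i) z ≤ ∑ z : Site M N → ZMod (2 ^ T),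
        ((2 : ℝ) ^ (i.2 : ℕ) * (4 * K) / Λ + if ¬ Safe z (VU i) then (1 : ℝ) else 0) :=
      sum_le_sum fun z _ => h1 z
    rw [sum_add_distrib, sum_const, card_univ, nsmul_eq_mul] at h2
    have h3 : ∑ z : Site M N → ZMod (2 ^ T), (if ¬ Safe z (VU i) then (1 : ℝ) else 0) =
        (((univ : Finset (Site M N → ZMod (2 ^ T))).filter (fun z => ¬ Safe z (VU i))).card : ℝ) := by
      rw [Finset.sum_boole]
    have h4 : (((univ : Finset (Site M N → ZMod (2 ^ T))).filter (fun z => ¬ Safe z (VU i))).card : ℝ) ≤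
        C * (∑ s, |(VU i s : ℝ)|) / 2 ^ T := by
      have h5 := unsafe_card (Q := 2 ^ T) (VU i)
      have h6 : (((2 ^ T : ℕ)) : ℝ) = (2 : ℝ) ^ T := by push_cast; rfl
      rw [h6] at h5
      refine le_trans (le_of_eq ?_) h5
      congr!
    have h7 : C * (∑ s, |(VU i s : ℝ)|) / 2 ^ T ≤ C * (2 * (2 : ℝ) ^ (i.2 : ℕ)) / 2 ^ T := by
      apply div_le_div_of_nonneg_right _ hQ0.le
      exact mul_le_mul_of_nonneg_left (VU_abs_sum i) hC0
    rw [h3] at h2
    have h8 : C * ((2 : ℝ) ^ (i.2 : ℕ) * (4 * K) / Λ + 2 * (2 : ℝ) ^ (i.2 : ℕ) / 2 ^ T) =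
        C * ((2 : ℝ) ^ (i.2 : ℕ) * (4 * K) / Λ) + C * (2 * (2 : ℝ) ^ (i.2 : ℕ)) / 2 ^ T := by ring
    rw [h8]
    linarith
  -- summation over the steps
  have hstep : ∑ z, ∑ i, w i * D (z + v i) z ≤ C * (K * T / Λ + T / (2 * 2 ^ T)) := by
    rw [sum_comm]
    have h1 : ∀ i, ∑ z, w i * D (z + v i) z ≤
        (C * (4 * K / Λ + 2 / 2 ^ T)) * (wU M N T i * (2 : ℝ) ^ (i.2 : ℕ)) := by
      intro i
      rw [← mul_sum]
      refine (mul_le_mul_of_nonneg_left (hone i) (hwn i)).trans (le_of_eq ?_)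
      rw [hw]
      ring
    refine (sum_le_sum fun i _ => h1 i).trans (le_of_eq ?_)
    rw [← mul_sum, wU_amp M N T hM hN]
    field_simp
    ring
  have hA : (t : ℝ) * (K * T / Λ) = 1 / 72 := by
    rw [hΛd]
    field_simp
  have hB : (t : ℝ) * (T / (2 * 2 ^ T)) ≤ 1 / 72 := by
    rw [← mul_div_assoc, div_le_div_iff₀ (by positivity) (by norm_num)]
    linarith
  have htot : (t : ℝ) * ∑ z, ∑ i, w i * D (z + v i) z ≤ C / 36 := by
    have h1 := mul_le_mul_of_nonneg_left hstep ht0.le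
    have h2 : (t : ℝ) * (C * (K * T / Λ + T / (2 * 2 ^ T))) =
        C * ((t : ℝ) * (K * T / Λ)) + C * ((t : ℝ) * (T / (2 * 2 ^ T))) := by ring
    rw [h2, hA] at h1
    have h3 := mul_le_mul_of_nonneg_left hB hC0
    linarith
  have hfin : ∑ z, (1 - (step w v)^[t] (fun x => D x z) z) ≤
      ∑ z, (step w v)^[t] (fun x => nearF (Q := 2 ^ T) hg Λ x z) z := sum_le_sum fun z _ => hpt z
  rw [sum_sub_distrib, sum_const, card_univ, nsmul_eq_mul, mul_one] at hfin
  have h9 : (35 / 36 : ℝ) * C ≤ C - C / 36 := by linarith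
  linarith

end Pool.Agent.EMD33
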