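import Pool.Agent.EMD33.Pattern

set_option autoImplicit false

namespace Pool.Agent.EMD33

open Finset

/-- `sum_j min (sqrt (4^(j+1) P)) (P^2 / 4^(j+1)) <= 4 P` for `P = 0` or `P >= 1`. -/
theorem dyadic_min_sum (B : ℕ) (P : ℝ) (hP : P = 0 ∨ 1 ≤ P) :
    ∑ j ∈ range B, min (Real.sqrt ((4 : ℝ) ^ (j + 1) * P)) (P ^ 2 / (4 : ℝ) ^ (j + 1))
      ≤ 4 * P := by
  rcases hP with hP | hP
  · subst hP
    simp
  have hP0 : 0 ≤ P := by linarith
  have hsq : ∀ k : ℕ, Real.sqrt ((4 : ℝ) ^ k * P) = 2 ^ k * Real.sqrt P := by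
    intro k
    rw [Real.sqrt_mul (by positivity)]
    congr 1
    rw [show (4 : ℝ) ^ k = (2 ^ k) ^ 2 by rw [← pow_mul, mul_comm, pow_mul]; norm_num]
    exact Real.sqrt_sq (by positivity)
  have hle : ∀ k : ℕ, (4 : ℝ) ^ k ≤ P → (2 : ℝ) ^ k * Real.sqrt P ≤ P := by
    intro k hk
    have h1 : (2 : ℝ) ^ k ≤ Real.sqrt P := by
      refine Real.le_sqrt_of_sq_le ?_
      rw [← pow_mul, mul_comm, pow_mul]
      norm_num
      exact hk
    calc (2 : ℝ) ^ k * Real.sqrt P ≤ Real.sqrt P * Real.sqrt P :=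
          mul_le_mul_of_nonneg_right h1 (Real.sqrt_nonneg _)
      _ = P := Real.mul_self_sqrt hP0
  have key : ∀ B : ℕ,
      ((∑ j ∈ range B, min (Real.sqrt ((4 : ℝ) ^ (j + 1) * P)) (P ^ 2 / (4 : ℝ) ^ (j + 1))
        ≤ 2 * (2 ^ B * Real.sqrt P)) ∧ (4 : ℝ) ^ B ≤ P) ∨
      (∑ j ∈ range B, min (Real.sqrt ((4 : ℝ) ^ (j + 1) * P)) (P ^ 2 / (4 : ℝ) ^ (j + 1))
        + P ^ 2 / (3 * 4 ^ B) ≤ 4 * P) := by
    intro B
    induction B with
    | zero =>
      left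
      refine ⟨?_, by simpa using hP⟩
      simp
    | succ B ih =>
      rw [Finset.sum_range_succ]
      have h4 : (0 : ℝ) < 4 ^ B := by positivity
      have e1 : P ^ 2 / (4 : ℝ) ^ (B + 1) = (P ^ 2 / 4 ^ B) / 4 := by
        rw [pow_succ (4 : ℝ) B, div_div]
      have e2 : P ^ 2 / (3 * (4 : ℝ) ^ (B + 1)) = (P ^ 2 / 4 ^ B) / 12 := by
        rw [pow_succ (4 : ℝ) B, div_div]
        congr 1
        ring
      have e3 : P ^ 2 / (3 * (4 : ℝ) ^ B) = (P ^ 2 / 4 ^ B) / 3 := by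
        field_simp
      rcases ih with ⟨h1, h2⟩ | h1
      · by_cases h3 : (4 : ℝ) ^ (B + 1) ≤ P
        · left
          refine ⟨?_, h3⟩
          have h5 := min_le_left (Real.sqrt ((4 : ℝ) ^ (B + 1) * P)) (P ^ 2 / (4 : ℝ) ^ (B + 1))
          have h7 := hsq (B + 1)
          have h6 : (2 : ℝ) ^ (B + 1) * Real.sqrt P = 2 * (2 ^ B * Real.sqrt P) := by
            rw [pow_succ]; ring
          rw [h6] at h7 ⊢
          linarith
        · right
          have h5 := min_le_right (Real.sqrt ((4 : ℝ) ^ (B + 1) * P)) (P ^ 2 / (4 : ℝ) ^ (B + 1))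
          have h6 := hle B h2
          have h7 : P ^ 2 / (4 : ℝ) ^ (B + 1) ≤ P := by
            rw [div_le_iff₀ (by positivity)]
            nlinarith
          rw [e2]
          rw [e1] at h7
          rw [e1] at h5 ⊢
          linarith
      · right
        have h5 := min_le_right (Real.sqrt ((4 : ℝ) ^ (B + 1) * P)) (P ^ 2 / (4 : ℝ) ^ (B + 1))
        rw [e3] at h1
        rw [e2]
        rw [e1] at h5 ⊢
        linarith
  rcases key B with ⟨h1, h2⟩ | h1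
  · have := hle B h2
    linarith
  · have : 0 ≤ P ^ 2 / (3 * 4 ^ B) := by positivity
    linarith

/-- The perimeter of a set is an integer. -/
theorem tv_ind_zero_or {N : ℕ} (A : Finset (Fin N × Fin N)) :
    tv (ind A) = 0 ∨ 1 ≤ tv (ind A) := by
  classical
  have h1 : tv (ind A) = ((∑ b : Bool, ∑ a : Fin N × Fin N,
      (if (nxt b a ∈ A ↔ a ∈ A) then 0 else 1) : ℕ) : ℝ) := by
    unfold tv
    rw [Nat.cast_sum]
    refine Finset.sum_congr rfl fun b _ => ?_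
    rw [Nat.cast_sum]
    refine Finset.sum_congr rfl fun a _ => ?_
    unfold ind
    by_cases h1 : nxt b a ∈ A <;> by_cases h2 : a ∈ A <;> simp [h1, h2]
  rw [h1]
  rcases Nat.eq_zero_or_pos (∑ b : Bool, ∑ a : Fin N × Fin N,
      (if (nxt b a ∈ A ↔ a ∈ A) then 0 else 1)) with h | h
  · left; rw [h]; simp
  · right; exact_mod_cast h

/-- Besov-Sobolev inequality for sets (`sum_j ||P_j 1_A||_2 <= C Per(A)`).

Proof. With `h = 4^(j+1)`, `a_q = |pat h (ind A) q|`, `P = tv (ind A)`: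
`sum a_q^2 <= h^2 sum a_q <= h^3 P` and `sqrt (sum a_q^2) <= sum a_q <= min |A| |A^c| <= P^2`. -/
theorem sobolev_set (B : ℕ) (A : Finset (Fin (4 ^ (B + 1)) × Fin (4 ^ (B + 1)))) :
    ∑ j ∈ range B, (1 / (4 : ℝ) ^ (j + 1)) *
      Real.sqrt (∑ q, (pat (4 ^ (j + 1)) (ind A) q) ^ 2) ≤ 4 * tv (ind A) := by
  refine le_trans (Finset.sum_le_sum fun j hj => ?_) (dyadic_min_sum B _ (tv_ind_zero_or A))
  rw [mem_range] at hj
  have hP0 : 0 ≤ tv (ind A) := by
    rcases tv_ind_zero_or A with h | h <;> linarith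
  have hh : 1 ≤ 4 ^ (j + 1) := Nat.one_le_pow _ _ (by norm_num)
  have hd : 2 * 4 ^ (j + 1) ∣ 4 ^ (B + 1) := by
    refine dvd_trans ?_ (pow_dvd_pow 4 (show j + 2 ≤ B + 1 by omega))
    rw [show (4 : ℕ) ^ (j + 2) = 2 * 4 ^ (j + 1) * 2 by ring]
    exact dvd_mul_right _ _
  have hpos : (0 : ℝ) < (4 : ℝ) ^ (j + 1) := by positivity
  have hc : (((4 : ℕ) ^ (j + 1) : ℕ) : ℝ) = (4 : ℝ) ^ (j + 1) := by push_cast; ring
  have h1 := pat_sum_le_tv (4 ^ (j + 1)) hh hd (ind A)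
  have h2 := pat_sum_le_card (4 ^ (j + 1)) hh hd A
  have h3 := fun q => pat_le_sq (4 ^ (j + 1)) hh A q
  rw [hc] at h1
  simp only [hc] at h3
  refine le_min ?_ ?_
  · have h5 : ∑ q, (pat (4 ^ (j + 1)) (ind A) q) ^ 2
        ≤ ((4 : ℝ) ^ (j + 1)) ^ 2 * ((4 : ℝ) ^ (j + 1) * tv (ind A)) := by
      refine le_trans ?_ (mul_le_mul_of_nonneg_left h1 (by positivity))
      rw [Finset.mul_sum]
      refine Finset.sum_le_sum fun q _ => ?_
      rw [← sq_abs, pow_two]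
      exact mul_le_mul_of_nonneg_right (h3 q) (abs_nonneg _)
    have h6 : Real.sqrt (∑ q, (pat (4 ^ (j + 1)) (ind A) q) ^ 2)
        ≤ (4 : ℝ) ^ (j + 1) * Real.sqrt ((4 : ℝ) ^ (j + 1) * tv (ind A)) := by
      refine (Real.sqrt_le_sqrt h5).trans ?_
      rw [Real.sqrt_mul (by positivity), Real.sqrt_sq hpos.le]
    rw [one_div, inv_mul_le_iff₀ hpos]
    exact h6
  · have h5 : Real.sqrt (∑ q, (pat (4 ^ (j + 1)) (ind A) q) ^ 2)
        ≤ ∑ q, |pat (4 ^ (j + 1)) (ind A) q| := by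
      rw [Real.sqrt_le_left (Finset.sum_nonneg fun _ _ => abs_nonneg _)]
      have := Finset.sum_sq_le_sq_sum_of_nonneg (s := univ)
        (f := fun q => |pat (4 ^ (j + 1)) (ind A) q|) (fun _ _ => abs_nonneg _)
      simpa only [sq_abs] using this
    have h6 := isoper A
    rw [div_eq_mul_inv (tv (ind A) ^ 2), one_div, mul_comm]
    refine mul_le_mul_of_nonneg_right ?_ (by positivity)
    exact h5.trans (h2.trans h6)

end Pool.Agent.EMD33
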