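import Pool.Agent.EMD33.NdSum
import Pool.Agent.EMD33.Dipole

set_option autoImplicit false

namespace Pool.Agent.EMD33

open Finset

private theorem inner_VU (M N T : ℕ) (ψ : Site M N → ZMod (2 ^ T)) (e : Fin M × Bool × Fin N × Fin N)
    (i : Fin T) :
    ∑ s, ψ s * red (2 ^ T) (VU (e, i)) s =
      (2 : ZMod (2 ^ T)) ^ (i : ℕ) * (ψ (e.1, nxt e.2.1 e.2.2) - ψ (e.1, e.2.2)) := by
  have h : ∀ s : Site M N, ψ s * red (2 ^ T) (VU (e, i)) s =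
      (2 : ZMod (2 ^ T)) ^ (i : ℕ) * ((if s = (e.1, nxt e.2.1 e.2.2) then ψ s else 0) -
        (if s = (e.1, e.2.2) then ψ s else 0)) := by
    intro s
    simp only [red, VU, dip]
    push_cast
    split_ifs <;> ring
  rw [sum_congr rfl (fun s _ => h s), ← mul_sum, sum_sub_distrib, sum_ite_eq', sum_ite_eq',
    if_pos (mem_univ _), if_pos (mem_univ _)]

/-- The step law sees `ndSum`. -/
theorem step_lower (M N T : ℕ) (hM : 1 ≤ M) (hN : 1 ≤ N) (ψ : Site M N → ZMod (2 ^ T)) :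
    1 / (4 * (M : ℝ) * (N : ℝ) ^ 2 * 2 ^ T) * ndSum ψ ≤
      ∑ x : IU M N T, wU M N T x *
        (1 - cs (2 ^ T) (∑ s, ψ s * red (2 ^ T) (VU x) s)) := by
  have hM' : (0 : ℝ) < M := by exact_mod_cast hM
  have hN' : (0 : ℝ) < N := by exact_mod_cast hN
  rw [Fintype.sum_prod_type, ndSum, mul_sum]
  refine sum_le_sum fun e _ => ?_
  have h1 := dipole_lower T (ψ (e.1, nxt e.2.1 e.2.2) - ψ (e.1, e.2.2))
  rw [← Fin.sum_univ_eq_sum_range (fun i => (1 / 2 : ℝ) ^ (i + 1) *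
    (1 - cs (2 ^ T) ((2 : ZMod (2 ^ T)) ^ i * (ψ (e.1, nxt e.2.1 e.2.2) - ψ (e.1, e.2.2)))))] at h1
  have h2 : ∑ i : Fin T, wU M N T (e, i) * (1 - cs (2 ^ T) (∑ s, ψ s * red (2 ^ T) (VU (e, i)) s)) =
      1 / (4 * (M : ℝ) * (N : ℝ) ^ 2) * ∑ i : Fin T, (1 / 2 : ℝ) ^ ((i : ℕ) + 1) *
        (1 - cs (2 ^ T) ((2 : ZMod (2 ^ T)) ^ (i : ℕ) * (ψ (e.1, nxt e.2.1 e.2.2) - ψ (e.1, e.2.2)))) := by
    rw [mul_sum]
    refine sum_congr rfl fun i _ => ?_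
    rw [inner_VU, wU]
    field_simp
    ring
  rw [h2]
  have h3 : (0 : ℝ) ≤ 1 / (4 * (M : ℝ) * (N : ℝ) ^ 2) := by positivity
  refine le_trans (le_of_eq ?_) (mul_le_mul_of_nonneg_left h1 h3)
  field_simp

end Pool.Agent.EMD33
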